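import Pool.Agent.INFB.Defs2

set_option autoImplicit false

namespace Pool.Agent.INFB
namespace SB1




theorem len_psi {r : ℕ} (a : Fin r × Fin r) : (psi r a).length = r := by
  unfold psi; exact List.length_ofFn

theorem len_flatMap {r : ℕ} (w : List (Fin r × Fin r)) :
    (w.flatMap (psi r)).length = r * w.length := by
  induction w with
  | nil => simp
  | cons a w ih =>
    rw [List.flatMap_cons, List.length_append, ih, len_psi, List.length_cons]
    ring

/-- the letter at position `i` -/
theorem get_flatMap {r : ℕ} (hr : 2 ≤ r) (w : List (Fin r × Fin r)) (i : ℕ) :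
    (w.flatMap (psi r))[i]? = (w[i / r]?).map (fun a =>
      ((if (i % r) % 2 = 0 then a.1 else a.2, ⟨i % r, Nat.mod_lt _ (by omega)⟩) :
        Fin r × Fin r)) := by
  induction w generalizing i with
  | nil => simp
  | cons a w ih =>
    rw [List.flatMap_cons]
    rcases Nat.lt_or_ge i r with h | h
    · rw [List.getElem?_append_left (by rw [len_psi]; exact h)]
      have h1 : i / r = 0 := Nat.div_eq_of_lt h
      have h2 : i % r = i := Nat.mod_eq_of_lt h
      rw [h1, List.getElem?_cons_zero, Option.map_some]
      unfold psi
      rw [List.getElem?_ofFn]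
      simp only [h, dif_pos, h2]
    · rw [List.getElem?_append_right (by rw [len_psi]; exact h), len_psi, ih]
      have h1 : i / r = (i - r) / r + 1 := by
        rw [Nat.div_eq_sub_div (by omega) h]
      have h2 : i % r = (i - r) % r := by
        rw [Nat.mod_eq_sub_mod h]
      simp only [h1, h2, List.getElem?_cons_succ]

theorem get_data {r : ℕ} (hr : 2 ≤ r) (w : List (Fin r × Fin r)) {i : ℕ} {a : Fin r × Fin r}
    (h : (w.flatMap (psi r))[i]? = some a) : ∃ b, w[i / r]? = some b ∧
      a.1 = (if (i % r) % 2 = 0 then b.1 else b.2) ∧ a.2.val = i % r := by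
  rw [get_flatMap hr, Option.map_eq_some_iff] at h
  obtain ⟨b, hb, rfl⟩ := h
  exact ⟨b, hb, rfl, rfl⟩

theorem get_mid {β : Type*} (X : List β) (a : β) (Y : List β) :
    (X ++ a :: Y)[X.length]? = some a := by
  rw [List.getElem?_append_right le_rfl, Nat.sub_self, List.getElem?_cons_zero]

theorem get_mid1 {β : Type*} (X : List β) (a b : β) (Y : List β) :
    (X ++ a :: b :: Y)[X.length + 1]? = some b := by
  rw [List.getElem?_append_right (by omega), Nat.add_sub_cancel_left]
  rfl

theorem get_mid2 {β : Type*} (X : List β) (a b c : β) (Y : List β) :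
    (X ++ a :: b :: c :: Y)[X.length + 2]? = some c := by
  rw [List.getElem?_append_right (by omega), Nat.add_sub_cancel_left]
  rfl

/-- images of words satisfy the local rules -/
theorem loc_psi {r : ℕ} (hr : 2 ≤ r) (w : List (Fin r × Fin r)) : Loc (w.flatMap (psi r)) := by
  refine ⟨?_, ?_, ?_, ?_⟩
  · intro X a b Y h
    obtain ⟨_, _, _, ha⟩ := get_data hr w (by rw [h]; exact get_mid X a (b :: Y))
    obtain ⟨_, _, _, hb⟩ := get_data hr w (by rw [h]; exact get_mid1 X a b Y)
    rw [ha, hb, Nat.mod_add_mod]
  · intro X a b c Y h hc2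
    obtain ⟨a', ha', ha1, ha⟩ := get_data hr w (by rw [h]; exact get_mid X a (b :: c :: Y))
    obtain ⟨c', hc', hc1, hc⟩ := get_data hr w (by rw [h]; exact get_mid2 X a b c Y)
    have hs : X.length % r < r := Nat.mod_lt _ (by omega)
    have h1 : (X.length + 2) % r = (X.length % r + 2) % r := by rw [Nat.mod_add_mod]
    have h2 : X.length % r + 2 < r := by
      by_contra hcon
      push Not at hcon
      rw [hc, h1, Nat.mod_eq_sub_mod hcon, Nat.mod_eq_of_lt (by omega)] at hc2
      omega
    have h3 : (X.length + 2) % r = X.length % r + 2 := by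
      rw [h1, Nat.mod_eq_of_lt h2]
    have h4 : (X.length + 2) / r = X.length / r := by
      have e1 := Nat.div_add_mod X.length r
      have e2 : X.length + 2 = r * (X.length / r) + (X.length % r + 2) := by omega
      rw [e2, Nat.mul_add_div (by omega), Nat.div_eq_of_lt h2, add_zero]
    rw [h4] at hc'
    have h5 : a' = c' := by
      rw [ha'] at hc'
      exact Option.some_injective _ hc'
    have h6 : (X.length % r + 2) % 2 = X.length % r % 2 := by omega
    rw [ha1, hc1, h3, h5, h6]
  · intro a Y h
    obtain ⟨_, _, _, ha⟩ := get_data hr w (by rw [h]; exact get_mid [] a Y)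
    rw [ha]
    exact Nat.zero_mod r
  · intro X a h
    obtain ⟨_, _, _, ha⟩ := get_data hr w (by rw [h]; exact get_mid X a [])
    have h1 := len_flatMap w
    rw [h, List.length_append, List.length_singleton] at h1
    have h2 : 1 ≤ w.length := by
      by_contra hcon
      have : w.length = 0 := by omega
      rw [this] at h1
      omega
    have h3 : (X.length + 1) % r = 0 := by rw [h1, Nat.mul_mod_right]
    have hs : X.length % r < r := Nat.mod_lt _ (by omega)
    rw [ha]
    by_contra hcon
    have h4 : X.length % r + 1 < r := by omega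
    have h5 : (X.length + 1) % r = X.length % r + 1 := by
      rw [← Nat.mod_add_mod, Nat.mod_eq_of_lt h4]
    omega

/-- a factor which starts in column `0` and ends in column `r - 1` is the image of a factor -/
theorem decode_psi {r : ℕ} (hr : 2 ≤ r) (w X Y : List (Fin r × Fin r)) (t : List (Fin r × Fin r))
    (h : w.flatMap (psi r) = X ++ t ++ Y)
    (h0 : ∀ a s, t = a :: s → a.2.val = 0) (h1 : ∀ a s, t = s ++ [a] → a.2.val + 1 = r) :
    ∃ w1 : List (Fin r × Fin r), w1 <:+: w ∧ t = w1.flatMap (psi r) := by
  rcases t.eq_nil_or_concat with rfl | ⟨s', b, hb⟩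
  · exact ⟨[], List.nil_infix, by simp⟩
  rw [List.concat_eq_append] at hb
  have hlen := len_flatMap w
  obtain ⟨a, s, has⟩ : ∃ a s, t = a :: s := by
    cases t with
    | nil => simp at hb
    | cons a s => exact ⟨a, s, rfl⟩
  have hX : X.length % r = 0 := by
    obtain ⟨_, _, _, ha⟩ := get_data hr w (i := X.length) (a := a) (by
      rw [h, has, List.append_assoc, List.cons_append]; exact get_mid X a _)
    rw [← ha]
    exact h0 a s has
  have ht : t.length % r = 0 := by
    obtain ⟨_, _, _, hb'⟩ := get_data hr w (i := (X ++ s').length) (a := b) (by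
      rw [h, hb, ← List.append_assoc X s' [b], List.append_assoc (X ++ s') [b] Y,
        List.singleton_append]
      exact get_mid (X ++ s') b _)
    have h2 := h1 b s' hb
    rw [hb', List.length_append] at h2
    have h3 : t.length = s'.length + 1 := by rw [hb]; simp
    have h4 : (X.length + s'.length) % r = s'.length % r := by
      rw [← Nat.mod_add_mod, hX, zero_add]
    rw [h4] at h2
    rw [h3, ← Nat.mod_add_mod, h2, Nat.mod_self]
  obtain ⟨p, hp⟩ := Nat.dvd_of_mod_eq_zero hX
  obtain ⟨k, hk⟩ := Nat.dvd_of_mod_eq_zero ht
  have htot : X.length + t.length ≤ r * w.length := by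
    rw [← hlen, h, List.length_append, List.length_append]; omega
  have hpk : p + k ≤ w.length := by
    rw [hp, hk, ← Nat.mul_add] at htot
    exact Nat.le_of_mul_le_mul_left htot (by omega)
  have hw : w = w.take p ++ (w.drop p).take k ++ (w.drop p).drop k := by
    rw [List.append_assoc, List.take_append_drop, List.take_append_drop]
  refine ⟨(w.drop p).take k, ⟨w.take p, (w.drop p).drop k, hw.symm⟩, ?_⟩
  have h5 : (w.take p).flatMap (psi r) ++ (((w.drop p).take k).flatMap (psi r) ++
      ((w.drop p).drop k).flatMap (psi r)) = X ++ (t ++ Y) := by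
    rw [← List.append_assoc X, ← h]
    conv_rhs => rw [hw]
    rw [List.flatMap_append, List.flatMap_append, List.append_assoc]
  have h6 : ((w.take p).flatMap (psi r)).length = X.length := by
    rw [len_flatMap, List.length_take, hp, min_eq_left (by omega)]
  have h7 := List.append_inj h5 h6
  have h8 : (((w.drop p).take k).flatMap (psi r)).length = t.length := by
    rw [len_flatMap, List.length_take, List.length_drop, hk, min_eq_left (by omega)]
  exact (List.append_inj h7.2 h8).1.symm

theorem psi_inj {r : ℕ} (hr : 2 ≤ r) {a b : Fin r × Fin r} (h : psi r a = psi r b) : a = b := by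
  unfold psi at h
  have h1 := List.ofFn_injective h
  have h2 := congrFun h1 ⟨0, by omega⟩
  have h3 := congrFun h1 ⟨1, by omega⟩
  simp only [Nat.zero_mod, if_true, Prod.mk.injEq, and_true] at h2
  simp only [Nat.one_mod, Nat.reduceMod, Nat.one_ne_zero, if_false, Prod.mk.injEq, and_true] at h3
  exact Prod.ext h2 h3

/-- injectivity -/
theorem psi_flatMap_inj {r : ℕ} (hr : 2 ≤ r) (w w' : List (Fin r × Fin r))
    (h : w.flatMap (psi r) = w'.flatMap (psi r)) : w = w' := by
  induction w generalizing w' with
  | nil =>
    have h1 := congrArg List.length h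
    rw [len_flatMap, len_flatMap, List.length_nil, mul_zero] at h1
    have h2 : w'.length = 0 := by
      rcases Nat.mul_eq_zero.1 h1.symm with h3 | h3
      · omega
      · exact h3
    exact (List.length_eq_zero_iff.1 h2).symm
  | cons a w ih =>
    cases w' with
    | nil =>
      exfalso
      have h1 := congrArg List.length h
      rw [len_flatMap, len_flatMap, List.length_nil, mul_zero, List.length_cons] at h1
      rcases Nat.mul_eq_zero.1 h1 with h3 | h3 <;> omega
    | cons b w' =>
      rw [List.flatMap_cons, List.flatMap_cons] at h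
      obtain ⟨h1, h2⟩ := List.append_inj h (by rw [len_psi, len_psi])
      rw [psi_inj hr h1, ih w' h2]

end SB1
end Pool.Agent.INFB
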