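import Pool.Agent.INFB.Defs2

set_option autoImplicit false

namespace Pool.Agent.INFB
namespace SB2




lemma chain_of (R : ℕ → ℕ → Prop) : ∀ u : List ℕ,
    (∀ X x y Y, u = X ++ x :: y :: Y → R x y) → u.IsChain R
  | [], _ => List.IsChain.nil
  | [x], _ => List.IsChain.singleton x
  | x :: y :: u, h => by
    rw [List.isChain_cons_cons]
    refine ⟨h [] x y u rfl, chain_of R (y :: u) ?_⟩
    intro X a b Y hX
    exact h (x :: X) a b Y (by rw [hX]; rfl)

lemma tel {α : Type*} (φ φ' l r' : ℕ → List α) : ∀ (v : List ℕ) (x : ℕ),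
    (x :: v).IsChain (fun x y => l x = r' y) → (∀ y ∈ x :: v, r' y ++ φ' y = φ y ++ l y) →
    ∃ z Z, x :: v = Z ++ [z] ∧ r' x ++ (x :: v).flatMap φ' = (x :: v).flatMap φ ++ l z
  | [], x, _, h => ⟨x, [], rfl, by simpa using h x (by simp)⟩
  | y :: v, x, hc, h => by
    rw [List.isChain_cons_cons] at hc
    obtain ⟨z, Z, hz, hz2⟩ := tel φ φ' l r' v y hc.2 (fun w hw => h w (List.mem_cons_of_mem _ hw))
    refine ⟨z, x :: Z, by rw [hz]; rfl, ?_⟩
    have h1 := h x (by simp)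
    rw [List.flatMap_cons, ← List.append_assoc, h1, List.append_assoc, hc.1, hz2,
      List.flatMap_cons (x := x), List.append_assoc]

lemma mod_ne {r c k : ℕ} (hc2 : 2 ≤ c) (hcr : c < r) (hk : k < r) (hkc : k ≠ c - 1) :
    (k + 1) % r ≠ c := by
  rcases Nat.lt_or_ge (k + 1) r with h | h
  · rw [Nat.mod_eq_of_lt h]; omega
  · have : k + 1 = r := by omega
    rw [this, Nat.mod_self]; omega

/-- moving the boundary `c` to `c + 1` -/
theorem right_step {r : ℕ} (W : List (Fin r × Fin r)) (hW : Loc W) (u : List ℕ)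
    (φ : ℕ → List (Fin r × Fin r)) (hne : ∀ x ∈ u, φ x ≠ []) (hin : u.flatMap φ <:+: W)
    (c : ℕ) (hc2 : 2 ≤ c) (hcr : c < r) (hNB : NB φ u (c - 1)) :
    ∃ (φ' l r' : ℕ → List (Fin r × Fin r)) (ε δ : ℕ → Bool),
      (∀ x ∈ u, r' x ++ φ' x = φ x ++ l x) ∧ u.IsChain (fun x y => l x = r' y) ∧
      u.flatMap φ' <:+: W ∧ (∀ x ∈ u, φ' x = [] → ε x = true ∧ δ x = true) ∧
      u.IsChain (fun x y => ε y = !δ x) ∧ NB φ' u c ∧
      ∀ b, b ≠ (c + 1) % r → NB φ u b → NB φ' u b := by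
  -- the local specification
  have hex : ∀ x : ℕ, ∃ (p l rr : List (Fin r × Fin r)) (ε δ : Bool), x ∈ u →
      (rr ++ p = φ x ++ l) ∧
      ((ε = true ∧ ∃ h t2, φ x = h :: t2 ∧ h.2.val = c ∧ rr = [h]) ∨
        (ε = false ∧ rr = [] ∧ ∃ h t2, φ x = h :: t2 ∧ h.2.val ≠ c)) ∧
      ((δ = false ∧ ∃ t2 a b, φ x = t2 ++ [a, b] ∧ b.2.val = c - 1 ∧ l = [(a.1, ⟨c, hcr⟩)]) ∨
        (δ = true ∧ l = [] ∧ ∃ t2 b, φ x = t2 ++ [b] ∧ b.2.val ≠ c - 1)) := by
    intro x
    by_cases hx : x ∈ u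
    swap
    · exact ⟨[], [], [], true, true, fun h => absurd h hx⟩
    -- the left part
    have hl : ∃ (l : List (Fin r × Fin r)) (δ : Bool),
        ((δ = false ∧ ∃ t2 a b, φ x = t2 ++ [a, b] ∧ b.2.val = c - 1 ∧ l = [(a.1, ⟨c, hcr⟩)]) ∨
        (δ = true ∧ l = [] ∧ ∃ t2 b, φ x = t2 ++ [b] ∧ b.2.val ≠ c - 1)) := by
      rcases List.eq_nil_or_concat (φ x) with h0 | ⟨t3, b, hb⟩
      · exact absurd h0 (hne x hx)
      by_cases hbc : b.2.val = c - 1
      · rcases List.eq_nil_or_concat t3 with h0 | ⟨t4, a, ha⟩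
        · exfalso
          rw [h0] at hb
          exact (hNB x hx b []).1 (by rw [hb]; rfl) hbc
        · refine ⟨[(a.1, ⟨c, hcr⟩)], false, Or.inl ⟨rfl, t4, a, b, ?_, hbc, rfl⟩⟩
          rw [hb, ha]; simp
      · exact ⟨[], true, Or.inr ⟨rfl, rfl, t3, b, by rw [hb]; simp, hbc⟩⟩
    obtain ⟨l, δ, hlδ⟩ := hl
    obtain ⟨h, t2, ht⟩ := List.exists_cons_of_ne_nil (hne x hx)
    by_cases hhc : h.2.val = c
    · exact ⟨t2 ++ l, l, [h], true, δ, fun _ => ⟨by rw [ht]; rfl,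
        Or.inl ⟨rfl, h, t2, ht, hhc, rfl⟩, hlδ⟩⟩
    · exact ⟨φ x ++ l, l, [], false, δ, fun _ => ⟨rfl,
        Or.inr ⟨rfl, rfl, h, t2, ht, hhc⟩, hlδ⟩⟩
  choose φ' l r' ε δ hspec using hex
  obtain ⟨P, Q, hPQ⟩ := hin
  -- adjacent pairs of u
  have hpair : ∀ X x y Y, u = X ++ x :: y :: Y → l x = r' y ∧ ε y = !δ x := by
    intro X x y Y hu
    have hx : x ∈ u := by rw [hu]; simp
    have hy : y ∈ u := by rw [hu]; simp
    obtain ⟨-, -, hδ⟩ := hspec x hx
    obtain ⟨-, hε, -⟩ := hspec y hy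
    have hWd : W = (P ++ X.flatMap φ) ++ φ x ++ φ y ++ (Y.flatMap φ ++ Q) := by
      rw [← hPQ, hu]
      simp [List.flatMap_append, List.flatMap_cons]
    obtain ⟨h, t2, ht⟩ := List.exists_cons_of_ne_nil (hne y hy)
    rcases hδ with ⟨hδ, t3, a, b, hab, hbc, hl⟩ | ⟨hδ, hl, t3, b, hb, hbc⟩
    · have h1 : h.2.val = c := by
        have h2 := hW.adj ((P ++ X.flatMap φ) ++ t3 ++ [a]) b h (t2 ++ (Y.flatMap φ ++ Q))
          (by rw [hWd, hab, ht]; simp)
        rw [h2, hbc, show c - 1 + 1 = c by omega, Nat.mod_eq_of_lt hcr]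
      have h3 : h.1 = a.1 := hW.sym ((P ++ X.flatMap φ) ++ t3) a b h (t2 ++ (Y.flatMap φ ++ Q))
          (by rw [hWd, hab, ht]; simp) (by omega)
      have h4 : h = (a.1, ⟨c, hcr⟩) := Prod.ext h3 (Fin.ext h1)
      rcases hε with ⟨hε, h', t', ht', hc', hr'⟩ | ⟨hε, hr', h', t', ht', hc'⟩
      · have h5 : h' = h := by
          rw [ht] at ht'; exact (List.cons.inj ht').1.symm
        refine ⟨?_, by rw [hε, hδ]; rfl⟩
        rw [hl, hr', h5, h4]
      · have h5 : h' = h := by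
          rw [ht] at ht'; exact (List.cons.inj ht').1.symm
        rw [h5] at hc'
        exact absurd h1 hc'
    · have h1 : h.2.val ≠ c := by
        have h2 := hW.adj ((P ++ X.flatMap φ) ++ t3) b h (t2 ++ (Y.flatMap φ ++ Q))
          (by rw [hWd, hb, ht]; simp)
        rw [h2]
        exact mod_ne hc2 hcr b.2.isLt hbc
      rcases hε with ⟨hε, h', t', ht', hc', hr'⟩ | ⟨hε, hr', h', t', ht', hc'⟩
      · have h5 : h' = h := by
          rw [ht] at ht'; exact (List.cons.inj ht').1.symm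
        rw [h5] at hc'
        exact absurd hc' h1
      · exact ⟨by rw [hl, hr'], by rw [hε, hδ]; rfl⟩
  have hchain : u.IsChain (fun x y => l x = r' y) :=
    chain_of _ u fun X x y Y hu => (hpair X x y Y hu).1
  have hmul : ∀ x ∈ u, r' x ++ φ' x = φ x ++ l x := fun x hx => (hspec x hx).1
  have hmod1 : (c + 1) % r ≠ c := mod_ne hc2 hcr hcr (by omega)
  -- factor
  have hfac : ∀ x ∈ u, ∃ A B, W = A ++ φ x ++ B := by
    intro x hx
    obtain ⟨X, Y, hu⟩ := List.append_of_mem hx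
    refine ⟨P ++ X.flatMap φ, Y.flatMap φ ++ Q, ?_⟩
    rw [← hPQ, hu]
    simp [List.flatMap_append, List.flatMap_cons]
  -- first letters
  have hfirst : ∀ x ∈ u, ∀ a t, φ' x = a :: t →
      (a.2.val = (c + 1) % r) ∨ (a.2.val ≠ c ∧ ∃ t', φ x = a :: t') := by
    intro x hx a t hat
    obtain ⟨h1, h2, h3⟩ := hspec x hx
    rcases h2 with ⟨hε, h, t2, ht2, hhc, hrr⟩ | ⟨hε, hrr, h, t2, ht2, hhc⟩
    · left
      rw [hrr, ht2] at h1
      have h4 : φ' x = t2 ++ l x := by simpa using h1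
      rcases t2 with _ | ⟨b, t3⟩
      · -- φ x = [h]
        exfalso
        rcases h3 with ⟨-, t4, a', b', hab, -, -⟩ | ⟨-, hl, -⟩
        · rw [ht2] at hab
          have := congrArg List.length hab
          simp at this
        · rw [hl, hat] at h4
          simp at h4
      · rw [hat] at h4
        have h5 : a = b := (List.cons.inj h4).1
        obtain ⟨A, B, hAB⟩ := hfac x hx
        have h6 := hW.adj A h b (t3 ++ B) (by rw [hAB, ht2]; simp)
        rw [h5, h6, hhc]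
    · right
      rw [hrr, List.nil_append, hat, ht2] at h1
      have h5 : a = h := (List.cons.inj h1).1
      rw [h5]
      exact ⟨hhc, t2, ht2⟩
  -- last letters
  have hlast : ∀ x ∈ u, ∀ a t, φ' x = t ++ [a] →
      (a.2.val = c) ∨ (a.2.val ≠ c - 1 ∧ ∃ t', φ x = t' ++ [a]) := by
    intro x hx a t hat
    obtain ⟨h1, h2, h3⟩ := hspec x hx
    rcases h3 with ⟨-, t4, a', b', hab, -, hl⟩ | ⟨-, hl, t4, b, hb, hbc⟩
    · left
      rw [hat, hl, ← List.append_assoc] at h1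
      have h4 := List.append_inj_right' h1 (by simp)
      have h5 : a = (a'.1, ⟨c, hcr⟩) := by simpa using h4
      rw [h5]
    · right
      rw [hat, hl, List.append_nil, ← List.append_assoc] at h1
      rw [hb] at h1
      have h4 := List.append_inj_right' h1 (by simp)
      have h5 : a = b := by simpa using h4
      rw [h5]
      exact ⟨hbc, t4, hb⟩
  refine ⟨φ', l, r', ε, δ, hmul, hchain, ?_, ?_, chain_of _ u fun X x y Y hu => (hpair X x y Y hu).2,
    ?_, ?_⟩
  · -- factor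
    rcases u with _ | ⟨x, v⟩
    · simp
    · obtain ⟨z, Z, hz, hz2⟩ := tel φ φ' l r' v x hchain hmul
      have hzu : z ∈ x :: v := by rw [hz]; simp
      have hsuf : (x :: v).flatMap φ' <:+ (x :: v).flatMap φ ++ l z := by
        rw [← hz2]; exact List.suffix_append _ _
      obtain ⟨-, -, h3⟩ := hspec z hzu
      rcases h3 with ⟨-, t4, a, b, hab, hbc, hl⟩ | ⟨-, hl, -⟩
      · have hWd : W = (P ++ Z.flatMap φ ++ t4) ++ a :: b :: Q := by
          rw [← hPQ, hz]
          simp [List.flatMap_append, List.flatMap_cons, hab]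
        rcases Q with _ | ⟨h, Q'⟩
        · exfalso
          have := hW.lst ((P ++ Z.flatMap φ ++ t4) ++ [a]) b (by rw [hWd]; simp)
          omega
        · have h1 : h.2.val = c := by
            have h2 := hW.adj ((P ++ Z.flatMap φ ++ t4) ++ [a]) b h Q' (by rw [hWd]; simp)
            rw [h2, hbc, show c - 1 + 1 = c by omega, Nat.mod_eq_of_lt hcr]
          have h3 : h.1 = a.1 := hW.sym (P ++ Z.flatMap φ ++ t4) a b h Q' hWd (by omega)
          have h4 : h = (a.1, ⟨c, hcr⟩) := Prod.ext h3 (Fin.ext h1)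
          refine hsuf.isInfix.trans ⟨P, Q', ?_⟩
          rw [← hPQ, hl, ← h4]; simp
      · rw [hl, List.append_nil] at hsuf
        exact hsuf.isInfix.trans ⟨P, Q, hPQ⟩
  · intro x hx h0
    obtain ⟨h1, h2, h3⟩ := hspec x hx
    rw [h0, List.append_nil] at h1
    rcases h2 with ⟨hε, h, t2, ht2, hhc, hrr⟩ | ⟨hε, hrr, h, t2, ht2, hhc⟩
    · refine ⟨hε, ?_⟩
      rcases h3 with ⟨-, t4, a', b', hab, -, hl⟩ | ⟨hδ, -, -⟩
      · rw [hrr, hl, hab] at h1
        have := congrArg List.length h1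
        simp at this
      · exact hδ
    · rw [hrr, ht2] at h1
      simp at h1
  · intro x hx a t
    refine ⟨fun h => ?_, fun h => ?_⟩
    · rcases hfirst x hx a t h with h1 | h1
      · rw [h1]; exact hmod1
      · exact h1.1
    · rcases hlast x hx a t h with h1 | h1
      · rw [h1]; exact hmod1
      · exact mod_ne hc2 hcr a.2.isLt h1.1
  · intro b hb hNBb x hx a t
    refine ⟨fun h => ?_, fun h => ?_⟩
    · rcases hfirst x hx a t h with h1 | ⟨-, t', h1⟩
      · rw [h1]; exact hb.symm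
      · exact (hNBb x hx a t').1 h1
    · rcases hlast x hx a t h with h1 | ⟨-, t', h1⟩
      · rw [h1]; exact hb.symm
      · exact (hNBb x hx a t').2 h1

end SB2
end Pool.Agent.INFB
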