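import Pool.Agent.INFB.Defs2

set_option autoImplicit false

namespace Pool.Agent.INFB
namespace SB3





section defs
variable {r : ℕ}

/-- the letter prepended -/
def rr (c : ℕ) (hc : c - 1 < r) : List (Fin r × Fin r) → List (Fin r × Fin r)
  | a :: b :: _ => if a.2.val = c then [(b.1, ⟨c - 1, hc⟩)] else []
  | _ => []

/-- does the last letter have column `c - 1` -/
def dl (c : ℕ) (t : List (Fin r × Fin r)) : Bool :=
  match t.getLast? with
  | some g => decide (g.2.val + 1 = c)
  | none => false

def ll (c : ℕ) (t : List (Fin r × Fin r)) : List (Fin r × Fin r) :=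
  if dl c t = true then t.getLast?.toList else []

def ph (c : ℕ) (hc : c - 1 < r) (t : List (Fin r × Fin r)) : List (Fin r × Fin r) :=
  rr c hc t ++ (if dl c t = true then t.dropLast else t)

def ep (c : ℕ) (t : List (Fin r × Fin r)) : Bool :=
  match t.head? with
  | some a => decide (a.2.val ≠ c)
  | none => true

theorem rr_cons2 (c : ℕ) (hc : c - 1 < r) (a b : Fin r × Fin r) (t : List (Fin r × Fin r)) :
    rr c hc (a :: b :: t) = if a.2.val = c then [(b.1, ⟨c - 1, hc⟩)] else [] := rfl

theorem rr_one (c : ℕ) (hc : c - 1 < r) (a : Fin r × Fin r) : rr c hc [a] = [] := rfl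

theorem rr_ne (c : ℕ) (hc : c - 1 < r) (a : Fin r × Fin r) (t : List (Fin r × Fin r))
    (h : a.2.val ≠ c) : rr c hc (a :: t) = [] := by
  cases t with
  | nil => rfl
  | cons b t => rw [rr_cons2, if_neg h]

theorem dl_snoc (c : ℕ) (s : List (Fin r × Fin r)) (g : Fin r × Fin r) :
    dl c (s ++ [g]) = decide (g.2.val + 1 = c) := by
  simp [dl]

theorem ll_snoc (c : ℕ) (s : List (Fin r × Fin r)) (g : Fin r × Fin r) :
    ll c (s ++ [g]) = if g.2.val + 1 = c then [g] else [] := by
  simp [ll, dl_snoc]

theorem ph_snoc (c : ℕ) (hc : c - 1 < r) (s : List (Fin r × Fin r)) (g : Fin r × Fin r) :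
    ph c hc (s ++ [g]) = rr c hc (s ++ [g]) ++ (if g.2.val + 1 = c then s else s ++ [g]) := by
  simp [ph, dl_snoc]

theorem ep_cons (c : ℕ) (a : Fin r × Fin r) (t : List (Fin r × Fin r)) :
    ep c (a :: t) = decide (a.2.val ≠ c) := by
  simp [ep]

theorem snoc_exists {α : Type} (t : List α) (h : t ≠ []) : ∃ s g, t = s ++ [g] :=
  ⟨t.dropLast, t.getLast h, (List.dropLast_append_getLast h).symm⟩

theorem tele (φ φ' l r' : ℕ → List (Fin r × Fin r)) :
    ∀ (u : List ℕ) (x : ℕ), (∀ y ∈ x :: u, r' y ++ φ y = φ' y ++ l y) →
      (x :: u).IsChain (fun x y => l x = r' y) →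
      ∃ z, r' x ++ (x :: u).flatMap φ = (x :: u).flatMap φ' ++ l z := by
  intro u
  induction u with
  | nil =>
    intro x h _
    refine ⟨x, ?_⟩
    simpa using h x (by simp)
  | cons y u ih =>
    intro x h hch
    rw [List.isChain_cons_cons] at hch
    obtain ⟨z, hz⟩ := ih y (fun w hw => h w (List.mem_cons_of_mem _ hw)) hch.2
    refine ⟨z, ?_⟩
    have h1 := h x (by simp)
    calc r' x ++ (x :: y :: u).flatMap φ = (r' x ++ φ x) ++ (y :: u).flatMap φ := by
          simp [List.flatMap_cons]
      _ = φ' x ++ (l x ++ (y :: u).flatMap φ) := by rw [h1]; simp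
      _ = φ' x ++ (r' y ++ (y :: u).flatMap φ) := by rw [hch.1]
      _ = (x :: y :: u).flatMap φ' ++ l z := by rw [hz]; simp [List.flatMap_cons]

end defs

/-- moving the boundary `c` to `c - 1` -/
theorem left_step {r : ℕ} (W : List (Fin r × Fin r)) (hW : Loc W) (u : List ℕ)
    (φ : ℕ → List (Fin r × Fin r)) (hne : ∀ x ∈ u, φ x ≠ []) (hin : u.flatMap φ <:+: W)
    (c : ℕ) (hc1 : 1 ≤ c) (hcr : c + 1 < r) (hNB : NB φ u (c + 1)) :
    ∃ (φ' l r' : ℕ → List (Fin r × Fin r)) (ε δ : ℕ → Bool),
      (∀ x ∈ u, r' x ++ φ x = φ' x ++ l x) ∧ u.IsChain (fun x y => l x = r' y) ∧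
      u.flatMap φ' <:+: W ∧ (∀ x ∈ u, φ' x = [] → ε x = true ∧ δ x = true) ∧
      u.IsChain (fun x y => ε y = !δ x) ∧ NB φ' u c ∧
      ∀ b, b ≠ c - 1 → NB φ u b → NB φ' u b := by
  have hc : c - 1 < r := by omega
  have hcr' : c < r := by omega
  have hmodc : (c + 1) % r = c + 1 := Nat.mod_eq_of_lt hcr
  -- rotation facts
  have hmod : ∀ k : ℕ, k < r → ((k + 1) % r = c ↔ k + 1 = c) := by
    intro k hk
    rcases Nat.lt_or_ge (k + 1) r with h | h
    · rw [Nat.mod_eq_of_lt h]
    · have : k + 1 = r := by omega
      rw [this, Nat.mod_self]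
      omega
  obtain ⟨X0, Y0, hW0⟩ := hin
  -- a word starting with column `c` has at least two letters
  have two : ∀ x ∈ u, ∀ a t, φ x = a :: t → a.2.val = c → ∃ b t', t = b :: t' := by
    intro x hx a t hxt ha
    cases t with
    | nil =>
      exfalso
      have := (hNB x hx a []).2 (by simpa using hxt)
      rw [ha, hmodc] at this
      exact this rfl
    | cons b t' => exact ⟨b, t', rfl⟩
  -- second letter column
  have fac : ∀ x ∈ u, ∃ X Y, W = X ++ φ x ++ Y := by
    intro x hx
    obtain ⟨P, Q, rfl⟩ := List.append_of_mem hx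
    refine ⟨X0 ++ P.flatMap φ, Q.flatMap φ ++ Y0, ?_⟩
    rw [← hW0]
    simp [List.flatMap_append, List.flatMap_cons]
  have trip : ∀ X g a b Y, W = X ++ g :: a :: b :: Y → a.2.val = c →
      g = (b.1, ⟨c - 1, hc⟩) := by
    intro X g a b Y hWX ha
    have h1 := hW.adj X g a (b :: Y) hWX
    have h2 := hW.adj (X ++ [g]) a b Y (by rw [hWX]; simp)
    have h3 : g.2.val + 1 = c := (hmod _ g.2.isLt).1 (by rw [← h1, ha])
    rw [ha, hmodc] at h2
    have h4 := hW.sym X g a b Y hWX (by omega)
    apply Prod.ext
    · exact h4.symm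
    · apply Fin.ext
      show g.2.val = c - 1
      omega
  have hchain : u.IsChain (fun x y => ll c (φ x) = rr c hc (φ y)) ∧
      u.IsChain (fun x y => ep c (φ y) = !dl c (φ x)) := by
    have key : ∀ x y P Q, u = P ++ x :: y :: Q →
        ll c (φ x) = rr c hc (φ y) ∧ ep c (φ y) = !dl c (φ x) := by
      intro x y P Q hu
      have hx : x ∈ u := by rw [hu]; simp
      have hy : y ∈ u := by rw [hu]; simp
      obtain ⟨s, g, hg⟩ := snoc_exists (φ x) (hne x hx)
      obtain ⟨a, t, hat⟩ : ∃ a t, φ y = a :: t := by
        cases h : φ y with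
        | nil => exact absurd h (hne y hy)
        | cons a t => exact ⟨a, t, rfl⟩
      have hWX : W = (X0 ++ P.flatMap φ ++ s) ++ g :: a :: (t ++ Q.flatMap φ ++ Y0) := by
        rw [← hW0, hu]
        simp [List.flatMap_append, List.flatMap_cons, hg, hat]
      have hadj := hW.adj _ _ _ _ hWX
      rw [hg, ll_snoc, dl_snoc, hat, ep_cons]
      by_cases hgc : g.2.val + 1 = c
      · have hac : a.2.val = c := by
          rw [hadj]; exact (hmod _ g.2.isLt).2 hgc
        obtain ⟨b, t', rfl⟩ := two y hy a t hat hac
        rw [rr_cons2, if_pos hgc, if_pos hac]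
        have := trip (X0 ++ P.flatMap φ ++ s) g a b (t' ++ Q.flatMap φ ++ Y0) (by rw [hWX]; simp) hac
        refine ⟨by rw [this], ?_⟩
        simp [hgc, hac]
      · have hac : a.2.val ≠ c := by
          intro h
          exact hgc ((hmod _ g.2.isLt).1 (by rw [← hadj, h]))
        rw [rr_ne c hc a t hac, if_neg hgc]
        refine ⟨rfl, ?_⟩
        simp [hgc, hac]
    constructor
    · rw [List.isChain_iff_forall_rel_of_append_cons_cons]
      intro x y P Q hu
      exact (key x y P Q hu).1
    · rw [List.isChain_iff_forall_rel_of_append_cons_cons]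
      intro x y P Q hu
      exact (key x y P Q hu).2
  have hrel : ∀ x ∈ u, rr c hc (φ x) ++ φ x = ph c hc (φ x) ++ ll c (φ x) := by
    intro x hx
    obtain ⟨s, g, hg⟩ := snoc_exists (φ x) (hne x hx)
    rw [hg, ph_snoc, ll_snoc]
    by_cases hgc : g.2.val + 1 = c
    · simp [hgc]
    · simp [hgc]
  refine ⟨fun x => ph c hc (φ x), fun x => ll c (φ x), fun x => rr c hc (φ x),
    fun x => ep c (φ x), fun x => dl c (φ x), hrel, hchain.1, ?_, ?_, hchain.2, ?_, ?_⟩
  · -- factor
    cases u with
    | nil => exact ⟨[], W, by simp⟩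
    | cons x0 u =>
      obtain ⟨z, hz⟩ := tele φ (fun x => ph c hc (φ x)) (fun x => ll c (φ x))
        (fun x => rr c hc (φ x)) u x0 hrel hchain.1
      obtain ⟨a, t, hat⟩ : ∃ a t, φ x0 = a :: t := by
        cases h : φ x0 with
        | nil => exact absurd h (hne x0 (by simp))
        | cons a t => exact ⟨a, t, rfl⟩
      have hpre : (rr c hc (φ x0) ++ (x0 :: u).flatMap φ) <:+: W := by
        by_cases hac : a.2.val = c
        · obtain ⟨b, t', rfl⟩ := two x0 (by simp) a t hat hac
          rw [hat, rr_cons2, if_pos hac]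
          have hWX : W = X0 ++ a :: b :: (t' ++ u.flatMap φ ++ Y0) := by
            rw [← hW0]
            simp [List.flatMap_cons, hat]
          have hX0 : X0 ≠ [] := by
            rintro rfl
            have := hW.fst a _ hWX
            omega
          obtain ⟨X', g, rfl⟩ := snoc_exists X0 hX0
          have hg := trip X' g a b (t' ++ u.flatMap φ ++ Y0) (by rw [hWX]; simp) hac
          refine ⟨X', Y0, ?_⟩
          rw [← hg, ← hW0]
          simp
        · rw [hat, rr_ne c hc a t hac]
          exact ⟨X0, Y0, by simpa using hW0⟩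
      rw [hz] at hpre
      exact (List.prefix_append _ _).isInfix.trans hpre
  · intro x hx hph
    obtain ⟨s, g, hg⟩ := snoc_exists (φ x) (hne x hx)
    have hph : ph c hc (φ x) = [] := hph
    show ep c (φ x) = true ∧ dl c (φ x) = true
    rw [hg, ph_snoc] at hph
    rw [hg, dl_snoc]
    by_cases hgc : g.2.val + 1 = c
    · rw [if_pos hgc] at hph
      obtain ⟨-, hs⟩ := List.append_eq_nil_iff.1 hph
      subst hs
      refine ⟨?_, by simp [hgc]⟩
      show ep c (g :: []) = true
      rw [ep_cons]
      have : g.2.val ≠ c := by omega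
      simp [this]
    · rw [if_neg hgc] at hph
      simp at hph
  · -- NB at c
    intro x hx a t
    obtain ⟨s, g, hg⟩ := snoc_exists (φ x) (hne x hx)
    show (ph c hc (φ x) = a :: t → a.2.val ≠ c) ∧ (ph c hc (φ x) = t ++ [a] → (a.2.val + 1) % r ≠ c)
    constructor
    · intro h
      obtain ⟨a1, t1, hat⟩ : ∃ a t, φ x = a :: t := by
        cases h : φ x with
        | nil => exact absurd h (hne x hx)
        | cons a t => exact ⟨a, t, rfl⟩
      by_cases hac : a1.2.val = c
      · obtain ⟨b, t', rfl⟩ := two x hx a1 t1 hat hac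
        unfold ph at h
        rw [hat, rr_cons2, if_pos hac] at h
        simp only [List.cons_append, List.cons.injEq] at h
        rw [← h.1]
        show c - 1 ≠ c
        omega
      · unfold ph at h
        rw [hat, rr_ne c hc a1 t1 hac, ← hat, List.nil_append] at h
        have : a = a1 := by
          by_cases hd : dl c (φ x) = true
          · rw [if_pos hd, hat] at h
            cases t1 with
            | nil => simp at h
            | cons b t1 => simp at h; exact h.1.symm
          · rw [if_neg hd, hat] at h
            simp at h; exact h.1.symm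
        rw [this]; exact hac
    · intro h hac
      have hac' : a.2.val + 1 = c := (hmod _ a.2.isLt).1 hac
      rw [hg, ph_snoc] at h
      by_cases hgc : g.2.val + 1 = c
      · rw [if_pos hgc] at h
        by_cases hs : s = []
        · subst hs
          rw [List.nil_append, rr_one] at h
          simp at h
        · obtain ⟨s', h', rfl⟩ := snoc_exists s hs
          rw [← List.append_assoc] at h
          have hl := (List.append_inj' h rfl).2
          have hl : h' = a := by simpa using hl
          subst hl
          obtain ⟨X, Y, hWX⟩ := fac x hx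
          have := hW.adj (X ++ s') h' g Y (by rw [hWX, hg]; simp)
          rw [hac] at this
          omega
      · rw [if_neg hgc, ← List.append_assoc] at h
        have hl := (List.append_inj' h rfl).2
        have hl : g = a := by simpa using hl
        subst hl
        exact hgc hac'
  · intro b hb hNBb x hx a t
    obtain ⟨s, g, hg⟩ := snoc_exists (φ x) (hne x hx)
    show (ph c hc (φ x) = a :: t → a.2.val ≠ b) ∧ (ph c hc (φ x) = t ++ [a] → (a.2.val + 1) % r ≠ b)
    constructor
    · intro h
      obtain ⟨a1, t1, hat⟩ : ∃ a t, φ x = a :: t := by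
        cases h : φ x with
        | nil => exact absurd h (hne x hx)
        | cons a t => exact ⟨a, t, rfl⟩
      by_cases hac : a1.2.val = c
      · obtain ⟨b', t', rfl⟩ := two x hx a1 t1 hat hac
        unfold ph at h
        rw [hat, rr_cons2, if_pos hac] at h
        simp only [List.cons_append, List.cons.injEq] at h
        rw [← h.1]
        show c - 1 ≠ b
        exact fun h' => hb h'.symm
      · unfold ph at h
        rw [hat, rr_ne c hc a1 t1 hac, ← hat, List.nil_append] at h
        have : a = a1 := by
          by_cases hd : dl c (φ x) = true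
          · rw [if_pos hd, hat] at h
            cases t1 with
            | nil => simp at h
            | cons b t1 => simp at h; exact h.1.symm
          · rw [if_neg hd, hat] at h
            simp at h; exact h.1.symm
        rw [this]; exact (hNBb x hx a1 t1).1 hat
    · intro h
      rw [hg, ph_snoc] at h
      by_cases hgc : g.2.val + 1 = c
      · rw [if_pos hgc] at h
        by_cases hs : s = []
        · subst hs
          rw [List.nil_append, rr_one] at h
          simp at h
        · obtain ⟨s', h', rfl⟩ := snoc_exists s hs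
          rw [← List.append_assoc] at h
          have hl := (List.append_inj' h rfl).2
          have hl : h' = a := by simpa using hl
          subst hl
          obtain ⟨X, Y, hWX⟩ := fac x hx
          have := hW.adj (X ++ s') h' g Y (by rw [hWX, hg]; simp)
          intro h2
          rw [h2] at this
          omega
      · rw [if_neg hgc, ← List.append_assoc] at h
        have hl := (List.append_inj' h rfl).2
        have hl : g = a := by simpa using hl
        subst hl
        exact (hNBb x hx g s).2 hg


end SB3
end Pool.Agent.INFB
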