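import Pool.Agent.INFB.Defs

/-!
Abstract part of the Bean-Ehrenfeucht-McNulty argument: equational theories for which Zimin words
are isoterms.
-/

set_option autoImplicit false

namespace Pool.Agent.INFB

/-- an equational theory of monoid identities for which the Zimin words are isoterms -/
structure Theory (E : List ℕ → List ℕ → Prop) : Prop where
  subst : ∀ (u v : List ℕ) (θ : ℕ → List ℕ), E u v → E (u.flatMap θ) (v.flatMap θ)
  ctx : ∀ u v x y : List ℕ, E u v → E (x ++ u ++ y) (x ++ v ++ y)
  iso : ∀ (n : ℕ) (W : List ℕ), E (Zw n) W → W = Zw n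

/-- factors of Zimin words -/
def ZFac (w : List ℕ) : Prop := ∃ n, w <:+: Zw n

theorem Theory.iso_fac {E : List ℕ → List ℕ → Prop} (T : Theory E) {u v : List ℕ} (h : E u v)
    (hu : ZFac u) : v = u := by
  obtain ⟨n, x, y, hxy⟩ := hu
  have h1 := T.ctx u v x y h
  rw [hxy] at h1
  have h2 := T.iso n _ h1
  rw [← hxy] at h2
  have h3 := List.append_cancel_right h2
  exact List.append_cancel_left h3

/-- shift a word and interleave it with `0` -/
def full (w : List ℕ) : List ℕ := 0 :: w.flatMap (fun a => [a + 1, 0])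

theorem full_nil : full [] = [0] := rfl

theorem full_append (a b : List ℕ) :
    full (a ++ b) = full a ++ b.flatMap (fun a => [a + 1, 0]) := by
  simp [full, List.flatMap_append]

theorem full_eq_append_zero (w : List ℕ) : ∃ s, full w = s ++ [0] := by
  rcases List.eq_nil_or_concat w with rfl | ⟨l, a, rfl⟩
  · exact ⟨[], rfl⟩
  · refine ⟨full l ++ [a + 1], ?_⟩
    simp [full]

theorem Zw_succ (n : ℕ) : Zw (n + 1) = full (Zw n) := by
  induction n with
  | zero => rfl
  | succ n ih =>
    have h1 : Zw (n + 1 + 1) = Zw (n + 1) ++ (n + 1) :: Zw (n + 1) := rfl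
    have h2 : full (Zw (n + 1)) = full (Zw n ++ n :: Zw n) := rfl
    rw [h1, h2, ih]
    simp [full]

theorem full_fac {w w' : List ℕ} (h : w <:+: w') : full w <:+: full w' := by
  obtain ⟨x, y, rfl⟩ := h
  rw [full_append, full_append]
  obtain ⟨s, hs⟩ := full_eq_append_zero x
  rw [hs]
  exact ⟨s, y.flatMap (fun a => [a + 1, 0]), by simp [full]⟩

theorem ZFac.full {w : List ℕ} (h : ZFac w) : ZFac (full w) := by
  obtain ⟨n, h⟩ := h
  exact ⟨n + 1, by rw [Zw_succ]; exact full_fac h⟩

theorem ZFac.of_fac {w w' : List ℕ} (h : ZFac w') (hw : w <:+: w') : ZFac w := by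
  obtain ⟨n, h⟩ := h
  exact ⟨n, hw.trans h⟩

theorem ZFac.nil : ZFac [] := ⟨0, by simp [Zw]⟩

/-- `[]` or `[0]` -/
def pre (b : Bool) : List ℕ := if b then [] else [0]

/-- `[0]` or `[]` -/
def pos (b : Bool) : List ℕ := if b then [0] else []

theorem full_flat {θ θ1 : ℕ → List ℕ} {ε δ : ℕ → Bool} :
    ∀ (u : List ℕ) (x : ℕ), (∀ y ∈ x :: u, pre (ε y) ++ θ y ++ pre (δ y) = full (θ1 y)) →
      (x :: u).IsChain (fun a b => ε b = !δ a) →
      ∃ z, z ∈ x :: u ∧
        pre (ε x) ++ (x :: u).flatMap θ ++ pre (δ z) = full ((x :: u).flatMap θ1) := by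
  intro u
  induction u with
  | nil =>
    intro x h _
    refine ⟨x, by simp, ?_⟩
    have := h x (by simp)
    simpa using this
  | cons y u ih =>
    intro x h hc
    obtain ⟨z, hz, h1⟩ := ih y (fun w hw => h w (List.mem_cons_of_mem _ hw)) hc.tail
    refine ⟨z, List.mem_cons_of_mem _ hz, ?_⟩
    have hx := h x (by simp)
    have hxy : ε y = !δ x := by
      rw [List.isChain_cons_cons] at hc
      exact hc.1
    have e1 : (x :: y :: u).flatMap θ = θ x ++ (y :: u).flatMap θ := by simp
    have e2 : (x :: y :: u).flatMap θ1 = θ1 x ++ (y :: u).flatMap θ1 := by simp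
    rw [e1, e2, full_append]
    have h1' : pre (ε y) ++ ((y :: u).flatMap θ ++ pre (δ z)) =
        0 :: ((y :: u).flatMap θ1).flatMap (fun a => [a + 1, 0]) := by
      rw [← List.append_assoc, h1]; rfl
    cases hd : δ x with
    | true =>
      have hε : ε y = false := by rw [hxy, hd]; rfl
      rw [hε] at h1'
      rw [hd] at hx
      have h2 : (y :: u).flatMap θ ++ pre (δ z) =
          ((y :: u).flatMap θ1).flatMap (fun a => [a + 1, 0]) := by
        simpa [pre] using h1'
      rw [← h2, ← hx]
      simp [pre]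
    | false =>
      have hε : ε y = true := by rw [hxy, hd]; rfl
      rw [hε] at h1'
      rw [hd] at hx
      have h2 : (y :: u).flatMap θ ++ pre (δ z) =
          0 :: ((y :: u).flatMap θ1).flatMap (fun a => [a + 1, 0]) := by
        simpa [pre] using h1'
      rw [← hx]
      have : pre (ε x) ++ (θ x ++ (y :: u).flatMap θ) ++ pre (δ z) =
          pre (ε x) ++ θ x ++ ((y :: u).flatMap θ ++ pre (δ z)) := by simp
      rw [this, h2]
      simp [pre]

theorem full_flat_fac {θ θ1 : ℕ → List ℕ} {ε δ : ℕ → Bool} (u : List ℕ)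
    (h : ∀ y ∈ u, pre (ε y) ++ θ y ++ pre (δ y) = full (θ1 y))
    (hc : u.IsChain (fun a b => ε b = !δ a)) :
    u.flatMap θ <:+: full (u.flatMap θ1) := by
  cases u with
  | nil => simp
  | cons x u =>
    obtain ⟨z, _, h1⟩ := full_flat u x h hc
    exact ⟨pre (ε x), pre (δ z), h1⟩

/-- the inner part of `full w` -/
def inner (w : List ℕ) : List ℕ := (full w).tail.dropLast

theorem full_eq_inner {w : List ℕ} (hw : w ≠ []) : full w = 0 :: (inner w ++ [0]) := by
  rcases List.eq_nil_or_concat w with rfl | ⟨l, a, rfl⟩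
  · exact absurd rfl hw
  · simp [full, inner, List.dropLast_append]

/-- the new value of a letter -/
def mkz (ε δ : Bool) (w : List ℕ) : List ℕ :=
  if w = [] then [0] else pos ε ++ inner w ++ pos δ

theorem mkz_spec {ε δ : Bool} {w : List ℕ} (h : w ≠ [] ∨ (ε = true ∧ δ = true)) :
    pre ε ++ mkz ε δ w ++ pre δ = full w := by
  by_cases hw : w = []
  · subst hw
    rcases h with h | ⟨rfl, rfl⟩
    · exact absurd rfl h
    · rfl
  · rw [full_eq_inner hw, mkz, if_neg hw]
    cases ε <;> cases δ <;> simp [pre, pos]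

theorem inner_ne_nil {w : List ℕ} (hw : w ≠ []) : inner w ≠ [] := by
  intro h
  have h1 := full_eq_inner hw
  rw [h] at h1
  have h2 : (full w).length = 2 := by rw [h1]; rfl
  have h3 : (full w).length = 2 * w.length + 1 := by
    simp [full, List.length_flatMap]
    omega
  omega

theorem mkz_ne_nil (ε δ : Bool) (w : List ℕ) : mkz ε δ w ≠ [] := by
  unfold mkz
  split_ifs with h
  · simp
  · have := inner_ne_nil h
    simp [this]

/-- the word embeds into a Zimin word by a nonerasing substitution -/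
def Emb (u : List ℕ) : Prop := ∃ θ : ℕ → List ℕ, (∀ x ∈ u, θ x ≠ []) ∧ ZFac (u.flatMap θ)

theorem flatMap_filter_ite {α : Type} (u : List ℕ) (p : ℕ → Prop) [DecidablePred p]
    (θ : ℕ → List α) :
    u.flatMap (fun x => if p x then θ x else []) = (u.filter (fun x => decide (p x))).flatMap θ := by
  induction u with
  | nil => simp
  | cons x u ih =>
    by_cases h : p x
    · simp [h, ih]
    · simp [h, ih]

/-- peeling off letters -/
theorem Emb.peel {u : List ℕ} {D : ℕ → Prop} [DecidablePred D] {ε δ : ℕ → Bool}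
    (hD : ∀ x, D x → ε x = true ∧ δ x = true)
    (hc : u.IsChain (fun a b => ε b = !δ a))
    (h : Emb (u.filter (fun x => decide (¬ D x)))) : Emb u := by
  obtain ⟨θ1, h1, h2⟩ := h
  let θ2 : ℕ → List ℕ := fun x => if ¬ D x then θ1 x else []
  refine ⟨fun x => mkz (ε x) (δ x) (θ2 x), fun x _ => mkz_ne_nil _ _ _, ?_⟩
  have h3 : u.flatMap θ2 = (u.filter (fun x => decide (¬ D x))).flatMap θ1 :=
    flatMap_filter_ite u (fun x => ¬ D x) θ1
  have h4 := full_flat_fac (θ := fun x => mkz (ε x) (δ x) (θ2 x)) (θ1 := θ2) (ε := ε) (δ := δ) u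
    (by
      intro y hy
      apply mkz_spec
      by_cases hDy : D y
      · exact Or.inr (hD y hDy)
      · left
        simp only [θ2, hDy, not_false_eq_true, if_true]
        exact h1 y (by simp [hy, hDy])) hc
  rw [h3] at h4
  exact (h2.full).of_fac h4

end Pool.Agent.INFB
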