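import Pool.Agent.INFB.Bem1

/-!
The junction lemma and the conjugation lemma.
-/

set_option autoImplicit false

namespace Pool.Agent.INFB

variable {E : List ℕ → List ℕ → Prop}

theorem chain_of_fac {α : Type} {R : α → α → Prop} {l l' : List α} (h : l'.IsChain R)
    (hl : l <:+: l') : l.IsChain R := by
  obtain ⟨x, y, rfl⟩ := hl
  rw [List.isChain_append, List.isChain_append] at h
  exact h.1.2.1

/-- two consecutive letters of `full w`: exactly one of them is `0` -/
theorem full_chain (w : List ℕ) : (full w).IsChain (fun a b => (a = 0) ↔ (b ≠ 0)) := by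
  induction w with
  | nil => simp [full]
  | cons a w ih =>
    have h : full (a :: w) = 0 :: (a + 1) :: full w := by simp [full]
    rw [h, List.isChain_cons_cons]
    refine ⟨by simp, ?_⟩
    have h2 : full w = 0 :: w.flatMap (fun a => [a + 1, 0]) := rfl
    rw [h2, List.isChain_cons_cons]
    refine ⟨by simp, ?_⟩
    rw [← h2]
    exact ih

theorem Theory.nil_left (T : Theory E) {v : List ℕ} (h : E [] v) : v = [] := by
  have := T.iso 0 v (by simpa [Zw] using h)
  simpa [Zw] using this

theorem Theory.content (T : Theory E) {u v : List ℕ} (huv : E u v) : ∀ x ∈ v, x ∈ u := by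
  intro x hx
  by_contra hxu
  have h1 := T.subst u v (fun y => if y = x then [0] else []) huv
  have h2 : u.flatMap (fun y => if y = x then [0] else []) = [] := by
    rw [List.flatMap_eq_nil_iff]
    intro y hy
    have : y ≠ x := fun h => hxu (h ▸ hy)
    simp [this]
  rw [h2] at h1
  have h3 := T.nil_left h1
  rw [List.flatMap_eq_nil_iff] at h3
  simpa using h3 x hx

theorem chain_flat_aux {θ : ℕ → List ℕ} {ε δ : ℕ → Bool} {v : List ℕ}
    (hθ : ∀ x ∈ v, θ x ≠ [])
    (h1 : ∀ x ∈ v, ∀ a t, θ x = a :: t → (a = 0 ↔ ε x = true))
    (h2 : ∀ x ∈ v, ∀ a t, θ x = t ++ [a] → (a = 0 ↔ δ x = true))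
    (hc : (v.flatMap θ).IsChain (fun a b => (a = 0) ↔ (b ≠ 0))) :
    v.IsChain (fun a b => ε b = !δ a) := by
  induction v with
  | nil => simp
  | cons x v ih =>
    cases v with
    | nil => simp
    | cons y v =>
      rw [List.isChain_cons_cons]
      constructor
      · obtain ⟨t, a, ht⟩ : ∃ t a, θ x = t ++ [a] := by
          rcases List.eq_nil_or_concat (θ x) with h | ⟨t, a, h⟩
          · exact absurd h (hθ x (by simp))
          · exact ⟨t, a, by simpa using h⟩
        obtain ⟨b, s, hs⟩ : ∃ b s, θ y = b :: s := List.exists_cons_of_ne_nil (hθ y (by simp))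
        have e1 : (x :: y :: v).flatMap θ = t ++ a :: b :: (s ++ v.flatMap θ) := by
          simp [ht, hs]
        rw [e1, List.isChain_append] at hc
        have h3 := hc.2.1
        rw [List.isChain_cons_cons] at h3
        have h4 := h3.1
        have h5 := h2 x (by simp) a t ht
        have h6 := h1 y (by simp) b s hs
        cases hd : δ x with
        | true =>
          have ha : a = 0 := h5.2 hd
          have hb : b ≠ 0 := h4.1 ha
          cases he : ε y with
          | true => exact absurd (h6.2 he) hb
          | false => rfl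
        | false =>
          have ha : a ≠ 0 := fun h => by simp [h5.1 h] at hd
          have hb : b = 0 := by
            by_contra hb
            exact ha (h4.2 hb)
          simpa using h6.1 hb
      · apply ih (fun z hz => hθ z (by simp [hz])) (fun z hz => h1 z (by simp [hz]))
          (fun z hz => h2 z (by simp [hz]))
        have e1 : (x :: y :: v).flatMap θ = θ x ++ (y :: v).flatMap θ := by simp
        rw [e1, List.isChain_append] at hc
        exact hc.2.1

theorem inner_head {w : List ℕ} (hw : w ≠ []) {a : ℕ} {t : List ℕ} (h : inner w = a :: t) :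
    a ≠ 0 := by
  have h1 := full_eq_inner hw
  have h2 := full_chain w
  rw [h1, h] at h2
  have h3 : (0 :: ((a :: t) ++ [0])) = 0 :: a :: (t ++ [0]) := rfl
  rw [h3, List.isChain_cons_cons] at h2
  exact h2.1.1 rfl

theorem inner_last {w : List ℕ} (hw : w ≠ []) {a : ℕ} {t : List ℕ} (h : inner w = t ++ [a]) :
    a ≠ 0 := by
  have h1 := full_eq_inner hw
  have h2 := full_chain w
  rw [h1, h] at h2
  have h3 : (0 :: ((t ++ [a]) ++ [0])) = (0 :: t) ++ a :: 0 :: [] := by simp
  rw [h3, List.isChain_append] at h2
  have h4 := h2.2.1
  rw [List.isChain_cons_cons] at h4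
  intro ha
  exact (h4.1.1 ha) rfl

theorem mkz_head {w : List ℕ} (hw : w ≠ []) (ε δ : Bool) {a : ℕ} {t : List ℕ}
    (h : mkz ε δ w = a :: t) : a = 0 ↔ ε = true := by
  rw [mkz, if_neg hw] at h
  cases ε with
  | true =>
    simp [pos] at h
    simp [h.1.symm]
  | false =>
    obtain ⟨b, s, hs⟩ := List.exists_cons_of_ne_nil (inner_ne_nil hw)
    simp [pos, hs] at h
    have := inner_head hw hs
    rw [← h.1]
    simp [this]

theorem mkz_last {w : List ℕ} (hw : w ≠ []) (ε δ : Bool) {a : ℕ} {t : List ℕ}
    (h : mkz ε δ w = t ++ [a]) : a = 0 ↔ δ = true := by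
  rw [mkz, if_neg hw] at h
  cases δ with
  | true =>
    simp only [pos, if_true] at h
    have := List.append_inj_right' h rfl
    simp at this
    simp [this.symm]
  | false =>
    rcases List.eq_nil_or_concat (inner w) with h1 | ⟨s, b, hs⟩
    · exact absurd h1 (inner_ne_nil hw)
    · have hs' : inner w = s ++ [b] := by simpa using hs
      have hb := inner_last hw hs'
      rw [hs'] at h
      simp only [pos, List.append_nil, Bool.false_eq_true, if_false] at h
      rw [← List.append_assoc] at h
      have := List.append_inj_right' h rfl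
      simp at this
      rw [← this]
      simp [hb]

/-- **Junction lemma.** -/
theorem Theory.junction (T : Theory E) {u v : List ℕ} (huv : E u v) (hemb : Emb u)
    {Λ : Type} (l r : ℕ → Λ) (hu : u.IsChain (fun x y => l x = r y)) :
    v.IsChain (fun x y => l x = r y) ∧ v.head?.map r = u.head?.map r ∧
      v.getLast?.map l = u.getLast?.map l := by
  classical
  have hcont := T.content huv
  obtain ⟨θ1, hθ1, hZ⟩ := hemb
  -- for every colouring
  have key : ∀ P : Λ → Bool,
      v.IsChain (fun a b => P (r b) = P (l a)) ∧
      (∀ x t y s, v = x :: t → u = y :: s → P (r x) = P (r y)) ∧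
      (∀ x t y s, v = t ++ [x] → u = s ++ [y] → P (l x) = P (l y)) := by
    intro P
    let ε : ℕ → Bool := fun x => P (r x)
    let δ : ℕ → Bool := fun x => !P (l x)
    let θ : ℕ → List ℕ := fun x => mkz (ε x) (δ x) (θ1 x)
    have hcu : u.IsChain (fun a b => ε b = !δ a) := by
      refine hu.imp ?_
      intro a b hab
      simp [ε, δ, hab]
    have h1 : u.flatMap θ <:+: full (u.flatMap θ1) :=
      full_flat_fac u (fun y hy => mkz_spec (Or.inl (hθ1 y hy))) hcu
    have h2 : ZFac (u.flatMap θ) := (hZ.full).of_fac h1
    have h3 : v.flatMap θ = u.flatMap θ := T.iso_fac (T.subst u v θ huv) h2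
    have h4 : (v.flatMap θ).IsChain (fun a b => (a = 0) ↔ (b ≠ 0)) := by
      rw [h3]
      exact chain_of_fac (full_chain _) h1
    have hθ1v : ∀ x ∈ v, θ1 x ≠ [] := fun x hx => hθ1 x (hcont x hx)
    have h5 : v.IsChain (fun a b => ε b = !δ a) :=
      chain_flat_aux (θ := θ) (fun x _ => mkz_ne_nil _ _ _)
        (fun x hx a t h => mkz_head (hθ1v x hx) _ _ h)
        (fun x hx a t h => mkz_last (hθ1v x hx) _ _ h) h4
    refine ⟨?_, ?_, ?_⟩
    · refine h5.imp ?_
      intro a b hab
      simpa [ε, δ] using hab
    · rintro x t y s rfl rfl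
      obtain ⟨a, a', ha⟩ := List.exists_cons_of_ne_nil (mkz_ne_nil (ε x) (δ x) (θ1 x))
      obtain ⟨b, b', hb⟩ := List.exists_cons_of_ne_nil (mkz_ne_nil (ε y) (δ y) (θ1 y))
      have e1 := mkz_head (hθ1v x (by simp)) _ _ ha
      have e2 := mkz_head (hθ1 y (by simp)) _ _ hb
      have e3 : θ x = a :: a' := ha
      have e4 : θ y = b :: b' := hb
      have h6 : a = b := by
        have := h3
        simp [e3, e4] at this
        exact this.1
      rw [h6] at e1
      have : (ε x = true) ↔ (ε y = true) := e1.symm.trans e2
      have h7 : ε x = ε y := by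
        cases h8 : ε x <;> cases h9 : ε y <;> simp_all
      exact h7
    · rintro x t y s rfl rfl
      obtain ⟨a', a, ha⟩ : ∃ t a, mkz (ε x) (δ x) (θ1 x) = t ++ [a] := by
        rcases List.eq_nil_or_concat (mkz (ε x) (δ x) (θ1 x)) with h | ⟨t, a, h⟩
        · exact absurd h (mkz_ne_nil _ _ _)
        · exact ⟨t, a, by simpa using h⟩
      obtain ⟨b', b, hb⟩ : ∃ t a, mkz (ε y) (δ y) (θ1 y) = t ++ [a] := by
        rcases List.eq_nil_or_concat (mkz (ε y) (δ y) (θ1 y)) with h | ⟨t, a, h⟩
        · exact absurd h (mkz_ne_nil _ _ _)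
        · exact ⟨t, a, by simpa using h⟩
      have e1 := mkz_last (hθ1v x (by simp)) _ _ ha
      have e2 := mkz_last (hθ1 y (by simp)) _ _ hb
      have e3 : θ x = a' ++ [a] := ha
      have e4 : θ y = b' ++ [b] := hb
      have h6 : a = b := by
        have h7 := h3
        simp only [List.flatMap_append, List.flatMap_cons, List.flatMap_nil, List.append_nil,
          e3, e4] at h7
        rw [← List.append_assoc, ← List.append_assoc] at h7
        have := List.append_inj_right' h7 rfl
        simpa using this
      rw [h6] at e1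
      have : (δ x = true) ↔ (δ y = true) := e1.symm.trans e2
      have h7 : δ x = δ y := by
        cases h8 : δ x <;> cases h9 : δ y <;> simp_all
      simpa [δ] using h7
  refine ⟨?_, ?_, ?_⟩
  · rw [List.isChain_iff_forall_rel_of_append_cons_cons]
    intro a b l₁ l₂ hv
    have h1 := (key (fun x => decide (x = l a))).1
    rw [List.isChain_iff_forall_rel_of_append_cons_cons] at h1
    have h2 := h1 hv
    have h3 : r b = l a := by simpa using h2
    exact h3.symm
  · cases v with
    | nil =>
      cases u with
      | nil => rfl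
      | cons y s =>
        exfalso
        have h1 := T.subst _ _ θ1 huv
        have h2 := T.iso_fac h1 hZ
        simp only [List.flatMap_nil, List.flatMap_cons] at h2
        exact hθ1 y (by simp) (List.append_eq_nil_iff.1 h2.symm).1
    | cons x t =>
      cases u with
      | nil => exact absurd (hcont x (by simp)) (by simp)
      | cons y s =>
        have h1 := (key (fun z => decide (z = r y))).2.1 x t y s rfl rfl
        simpa using h1
  · rcases List.eq_nil_or_concat v with rfl | ⟨t, x, rfl⟩
    · rcases List.eq_nil_or_concat u with rfl | ⟨s, y, rfl⟩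
      · rfl
      · exfalso
        have h1 := T.subst _ _ θ1 huv
        have h2 := T.iso_fac h1 hZ
        have h3 : (s.concat y).flatMap θ1 = [] := by rw [← h2]; rfl
        rw [List.flatMap_eq_nil_iff] at h3
        exact hθ1 y (by simp) (h3 y (by simp))
    · rcases List.eq_nil_or_concat u with rfl | ⟨s, y, rfl⟩
      · exact absurd (hcont x (by simp)) (by simp)
      · have h1 := (key (fun z => decide (z = l y))).2.2 x t y s (by simp) (by simp)
        simpa using h1

theorem telescope {A : Type} {φ φ' l r : ℕ → List A} :
    ∀ (v : List ℕ) (x : ℕ), (∀ y ∈ x :: v, r y ++ φ' y = φ y ++ l y) →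
      (x :: v).IsChain (fun x y => l x = r y) →
      ∀ z, (x :: v).getLast? = some z → r x ++ (x :: v).flatMap φ' = (x :: v).flatMap φ ++ l z := by
  intro v
  induction v with
  | nil =>
    intro x h _ z hz
    simp at hz
    subst hz
    simpa using h x (by simp)
  | cons y v ih =>
    intro x h hc z hz
    rw [List.isChain_cons_cons] at hc
    have h1 := ih y (fun w hw => h w (by simp [hw])) hc.2 z (by simpa using hz)
    have h2 := h x (by simp)
    have e1 : (x :: y :: v).flatMap φ' = φ' x ++ (y :: v).flatMap φ' := by simp
    have e2 : (x :: y :: v).flatMap φ = φ x ++ (y :: v).flatMap φ := by simp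
    rw [e1, e2, ← List.append_assoc, h2, List.append_assoc, hc.1, h1]
    simp

/-- **Conjugation lemma.** -/
theorem Theory.conj (T : Theory E) {u : List ℕ} (hemb : Emb u) {A : Type}
    {φ φ' l r : ℕ → List A} (hconj : ∀ x ∈ u, r x ++ φ' x = φ x ++ l x)
    (hu : u.IsChain (fun x y => l x = r y)) {v : List ℕ} (huv : E u v) :
    v.flatMap φ' = u.flatMap φ' ↔ v.flatMap φ = u.flatMap φ := by
  obtain ⟨h1, h2, h3⟩ := T.junction huv hemb l r hu
  have hcont := T.content huv
  cases u with
  | nil =>
    have := T.nil_left huv
    subst this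
    simp
  | cons x u =>
    cases v with
    | nil => simp at h2
    | cons y v =>
      obtain ⟨z, hz⟩ : ∃ z, (x :: u).getLast? = some z := by
        cases h : (x :: u).getLast? with
        | none => simp at h
        | some z => exact ⟨z, rfl⟩
      obtain ⟨w, hw⟩ : ∃ z, (y :: v).getLast? = some z := by
        cases h : (y :: v).getLast? with
        | none => simp at h
        | some z => exact ⟨z, rfl⟩
      have e1 := telescope u x hconj hu z hz
      have e2 := telescope v y (fun w hw => hconj w (hcont w hw)) h1 w hw
      have e3 : r y = r x := by simpa using h2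
      have e4 : l w = l z := by
        rw [hz, hw] at h3
        simpa using h3
      rw [e3, e4] at e2
      constructor
      · intro h
        rw [h, e1] at e2
        exact (List.append_cancel_right e2).symm
      · intro h
        rw [h, ← e1] at e2
        exact List.append_cancel_left e2

/-- the property proved by induction -/
def Good (E : List ℕ → List ℕ → Prop) {A : Type} (u : List ℕ) (φ : ℕ → List A) : Prop :=
  Emb (u.filter (fun x => decide (φ x ≠ []))) ∧ ∀ v, E u v → v.flatMap φ = u.flatMap φ

theorem flatMap_filter_ne {A : Type} [DecidableEq (List A)] (u : List ℕ) (φ : ℕ → List A) :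
    (u.filter (fun x => decide (φ x ≠ []))).flatMap φ = u.flatMap φ := by
  induction u with
  | nil => simp
  | cons x u ih =>
    by_cases h : φ x = []
    · rw [List.filter_cons_of_neg (by simp [h]), ih]
      simp [h]
    · rw [List.filter_cons_of_pos (by simp [h]), List.flatMap_cons, List.flatMap_cons, ih]

end Pool.Agent.INFB
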