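import Pool.Agent.INFB.Bem2
import Pool.Agent.INFB.B1
import Pool.Agent.INFB.B2
import Pool.Agent.INFB.B3

/-!
The main induction of the Bean-Ehrenfeucht-McNulty argument.
-/

set_option autoImplicit false

namespace Pool.Agent.INFB

open SB1 SB2 SB3

variable {E : List ℕ → List ℕ → Prop}

open scoped Classical in
theorem Good.of_filter (T : Theory E) {A : Type} {u : List ℕ} {φ : ℕ → List A}
    (h : Good E (u.filter (fun x => decide (φ x ≠ []))) φ) : Good E u φ := by
  refine ⟨?_, ?_⟩
  · have h1 := h.1
    rw [List.filter_filter] at h1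
    simpa using h1
  · intro v huv
    have h1 := T.subst u v (fun x => if φ x ≠ [] then [x] else []) huv
    have e : ∀ w : List ℕ, w.flatMap (fun x => if φ x ≠ [] then [x] else []) =
        w.filter (fun x => decide (φ x ≠ [])) := by
      intro w
      induction w with
      | nil => simp
      | cons a w ih =>
        rw [List.flatMap_cons, ih]
        by_cases ha : φ a = []
        · rw [List.filter_cons_of_neg (by simp [ha])]
          simp [ha]
        · rw [List.filter_cons_of_pos (by simp [ha])]
          simp [ha]
    rw [e, e] at h1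
    have h2 := h.2 _ h1
    rw [flatMap_filter_ne, flatMap_filter_ne] at h2
    exact h2

/-- a step from `φ` to `φ'` -/
theorem Good.step_right (T : Theory E) {A : Type} {u : List ℕ} {φ φ' l r' : ℕ → List A}
    {ε δ : ℕ → Bool} (hne : ∀ x ∈ u, φ x ≠ [])
    (hconj : (∀ x ∈ u, r' x ++ φ' x = φ x ++ l x) ∨ (∀ x ∈ u, r' x ++ φ x = φ' x ++ l x))
    (hch : u.IsChain (fun x y => l x = r' y))
    (hD : ∀ x ∈ u, φ' x = [] → ε x = true ∧ δ x = true)
    (hch2 : u.IsChain (fun x y => ε y = !δ x)) (h : Good E u φ') : Good E u φ := by
  classical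
  have hemb : Emb u := by
    let ε' : ℕ → Bool := fun x => if x ∈ u then ε x else true
    let δ' : ℕ → Bool := fun x => if x ∈ u then δ x else true
    refine Emb.peel (D := fun x => φ' x = []) (ε := ε') (δ := δ') ?_ ?_ ?_
    · intro x hx
      by_cases hxu : x ∈ u
      · simpa [ε', δ', hxu] using hD x hxu hx
      · simp [ε', δ', hxu]
    · rw [List.isChain_iff_forall_rel_of_append_cons_cons] at hch2 ⊢
      intro a b l₁ l₂ hu
      have h1 := hch2 hu
      have ha : a ∈ u := by rw [hu]; simp
      have hb : b ∈ u := by rw [hu]; simp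
      simpa [ε', δ', ha, hb] using h1
    · have h1 := h.1
      convert h1 using 2
  refine ⟨?_, ?_⟩
  · have : u.filter (fun x => decide (φ x ≠ [])) = u := by
      rw [List.filter_eq_self]
      intro a ha
      simpa using hne a ha
    rw [this]
    exact hemb
  · intro v huv
    have h1 := h.2 v huv
    rcases hconj with hconj | hconj
    · exact (T.conj hemb hconj hch huv).1 h1
    · exact (T.conj hemb hconj hch huv).2 h1

theorem NB.filter {r : ℕ} {φ : ℕ → List (Fin r × Fin r)} {u : List ℕ} {b : ℕ} (p : ℕ → Bool)
    (h : NB φ u b) : NB φ (u.filter p) b :=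
  fun x hx => h x (List.mem_of_mem_filter hx)

section level

variable {r : ℕ} {w : List (Fin r × Fin r)}

/-- final stage of a level: all the images are made of complete blocks -/
theorem Good.final (hr : 2 ≤ r)
    {u : List ℕ} {φ : ℕ → List (Fin r × Fin r)} (hne : ∀ x ∈ u, φ x ≠ [])
    (hin : u.flatMap φ <:+: w.flatMap (psi r))
    (hNB : ∀ b, 1 ≤ b → b < r → NB φ u b)
    (IH : ∀ (φ : ℕ → List (Fin r × Fin r)), u.flatMap φ <:+: w → Good E u φ)
    (T : Theory E) : Good E u φ := by
  classical
  have hW := loc_psi hr w
  -- columns of the first and last letters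
  have hfst : ∀ x ∈ u, ∀ a t, φ x = a :: t → a.2.val = 0 := by
    intro x hx a t hxt
    by_contra hne0
    exact ((hNB a.2.val (by omega) a.2.isLt) x hx a t).1 hxt rfl
  have hlst : ∀ x ∈ u, ∀ a t, φ x = t ++ [a] → a.2.val + 1 = r := by
    intro x hx a t hxt
    by_contra hne0
    have h1 : a.2.val + 1 < r := by
      have := a.2.isLt
      omega
    exact ((hNB (a.2.val + 1) (by omega) h1) x hx a t).2 hxt (Nat.mod_eq_of_lt h1)
  -- decode each image
  have hdec : ∀ x ∈ u, ∃ t : List (Fin r × Fin r), φ x = t.flatMap (psi r) := by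
    intro x hx
    have h1 : φ x <:+: w.flatMap (psi r) := by
      refine List.IsInfix.trans ?_ hin
      obtain ⟨s, t, rfl⟩ := List.append_of_mem hx
      exact ⟨s.flatMap φ, t.flatMap φ, by simp⟩
    obtain ⟨X, Y, hXY⟩ := h1
    obtain ⟨w1, _, h2⟩ := decode_psi hr w X Y (φ x) hXY.symm (hfst x hx) (hlst x hx)
    exact ⟨w1, h2⟩
  let φ' : ℕ → List (Fin r × Fin r) := fun x => if h : x ∈ u then (hdec x h).choose else []
  have hφ' : ∀ x ∈ u, φ x = (φ' x).flatMap (psi r) := by
    intro x hx
    simp only [φ', hx, dif_pos]
    exact (hdec x hx).choose_spec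
  have hflat : ∀ v : List ℕ, (∀ x ∈ v, x ∈ u) → v.flatMap φ = (v.flatMap φ').flatMap (psi r) := by
    intro v
    induction v with
    | nil => simp
    | cons a v ih =>
      intro h
      rw [List.flatMap_cons, List.flatMap_cons, List.flatMap_append,
        ih (fun x hx => h x (List.mem_cons_of_mem _ hx)), hφ' a (h a (by simp))]
  -- decode the whole word
  have hinw : u.flatMap φ' <:+: w := by
    obtain ⟨X, Y, hXY⟩ := hin
    have h0 : ∀ a s, u.flatMap φ = a :: s → a.2.val = 0 := by
      intro a s h
      cases hu : u with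
      | nil => rw [hu] at h; simp at h
      | cons x u' =>
        have hx : x ∈ u := by rw [hu]; simp
        obtain ⟨b, t, hb⟩ := List.exists_cons_of_ne_nil (hne x hx)
        rw [hu, List.flatMap_cons, hb, List.cons_append, List.cons.injEq] at h
        rw [← h.1]
        exact hfst x hx b t hb
    have h1 : ∀ a s, u.flatMap φ = s ++ [a] → a.2.val + 1 = r := by
      intro a s h
      rcases List.eq_nil_or_concat u with hu | ⟨u', x, hu⟩
      · rw [hu] at h; simp at h
      · have hx : x ∈ u := by rw [hu]; simp
        obtain ⟨t, b, hb⟩ : ∃ t b, φ x = t ++ [b] := by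
          rcases List.eq_nil_or_concat (φ x) with h | ⟨t, b, h⟩
          · exact absurd h (hne x hx)
          · exact ⟨t, b, by simpa using h⟩
        have hu' : u = u' ++ [x] := by simpa using hu
        have h2 : u.flatMap φ = (u'.flatMap φ ++ t) ++ [b] := by
          rw [hu']
          simp [hb]
        rw [h2] at h
        have h3 := List.append_inj_right' h rfl
        have h4 : b = a := by simpa using h3
        rw [← h4]
        exact hlst x hx b t hb
    obtain ⟨w1, hw1, h2⟩ := decode_psi hr w X Y (u.flatMap φ) hXY.symm h0 h1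
    rw [hflat u (fun _ h => h)] at h2
    have h3 := psi_flatMap_inj hr _ _ h2
    rw [h3]
    exact hw1
  have hG := IH φ' hinw
  have hnil : ∀ x ∈ u, (φ' x = [] ↔ φ x = []) := by
    intro x hx
    constructor
    · intro h
      rw [hφ' x hx, h]
      rfl
    · intro h
      exact absurd h (hne x hx)
  refine ⟨?_, ?_⟩
  · have h1 := hG.1
    convert h1 using 1
    apply List.filter_congr
    intro x hx
    have := hnil x hx
    simp [this]
  · intro v huv
    have h1 := hG.2 v huv
    rw [hflat u (fun _ h => h), hflat v (T.content huv), h1]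

/-- the left part -/
theorem Good.left (hr : 2 ≤ r) (T : Theory E)
    (n : ℕ)
    (IH : ∀ (u : List ℕ) (φ : ℕ → List (Fin r × Fin r)), u.toFinset.card ≤ n →
      u.flatMap φ <:+: w → Good E u φ) :
    ∀ (c : ℕ), c + 1 < r → ∀ (u : List ℕ) (φ : ℕ → List (Fin r × Fin r)), u.toFinset.card ≤ n →
      (∀ x ∈ u, φ x ≠ []) → u.flatMap φ <:+: w.flatMap (psi r) →
      (∀ b, c < b → b < r → NB φ u b) → Good E u φ := by
  classical
  intro c
  induction c with
  | zero =>
    intro _ u φ hcard hne hin hNB
    exact Good.final hr hne hin (fun b h1 h2 => hNB b h1 h2) (fun φ' h => IH u φ' hcard h) T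
  | succ c ih =>
    intro hcr u φ hcard hne hin hNB
    obtain ⟨φ', l, r', ε, δ, h1, h2, h3, h4, h5, h6, h7⟩ :=
      left_step (w.flatMap (psi r)) (loc_psi hr w) u φ hne hin (c + 1) (by omega) hcr
        (hNB (c + 1 + 1) (by omega) hcr)
    refine Good.step_right T hne (Or.inr h1) h2 h4 h5 ?_
    apply Good.of_filter T
    apply ih (by omega)
    · refine le_trans (Finset.card_le_card ?_) hcard
      intro x hx
      simp at hx ⊢
      exact hx.1
    · intro x hx
      simpa using (List.mem_filter.1 hx).2
    · rw [flatMap_filter_ne]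
      exact h3
    · intro b hb1 hb2
      apply NB.filter
      by_cases hb : b = c + 1
      · rw [hb]; exact h6
      · exact h7 b (by omega) (hNB b (by omega) hb2)

/-- the right part -/
theorem Good.right (hr : 2 ≤ r) (T : Theory E)
    (n : ℕ)
    (IH : ∀ (u : List ℕ) (φ : ℕ → List (Fin r × Fin r)), u.toFinset.card ≤ n →
      u.flatMap φ <:+: w → Good E u φ) (k : ℕ) (hk1 : 1 ≤ k) (hkr : k < r) :
    ∀ (j c : ℕ), c + j = r → k < c →
      ∀ (u : List ℕ) (φ : ℕ → List (Fin r × Fin r)), u.toFinset.card ≤ n →
      (∀ x ∈ u, φ x ≠ []) → u.flatMap φ <:+: w.flatMap (psi r) →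
      (∀ b, k ≤ b → b < c → NB φ u b) → Good E u φ := by
  classical
  intro j
  induction j with
  | zero =>
    intro c hc hkc u φ hcard hne hin hNB
    exact Good.left hr T n IH (k - 1) (by omega) u φ hcard hne hin
      (fun b h1 h2 => hNB b (by omega) (by omega))
  | succ j ih =>
    intro c hc hkc u φ hcard hne hin hNB
    obtain ⟨φ', l, r', ε, δ, h1, h2, h3, h4, h5, h6, h7⟩ :=
      right_step (w.flatMap (psi r)) (loc_psi hr w) u φ hne hin c (by omega) (by omega)
        (hNB (c - 1) (by omega) (by omega))
    refine Good.step_right T hne (Or.inl h1) h2 h4 h5 ?_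
    apply Good.of_filter T
    apply ih (c + 1) (by omega) (by omega)
    · refine le_trans (Finset.card_le_card ?_) hcard
      intro x hx
      simp at hx ⊢
      exact hx.1
    · intro x hx
      simpa using (List.mem_filter.1 hx).2
    · rw [flatMap_filter_ne]
      exact h3
    · intro b hb1 hb2
      apply NB.filter
      by_cases hb : b = c
      · rw [hb]; exact h6
      · refine h7 b ?_ (hNB b hb1 (by omega))
        intro hbc
        rcases Nat.lt_or_ge (c + 1) r with h | h
        · rw [Nat.mod_eq_of_lt h] at hbc
          omega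
        · have : c + 1 = r := by omega
          rw [this, Nat.mod_self] at hbc
          omega

/-- a boundary which is not used -/
theorem exists_NB (n : ℕ) (hrn : r = 2 * n + 2) (u : List ℕ) (φ : ℕ → List (Fin r × Fin r))
    (hcard : u.toFinset.card ≤ n) : ∃ k, 1 ≤ k ∧ k < r ∧ NB φ u k := by
  classical
  let f : ℕ → ℕ := fun x => ((φ x).head?.map (fun a => a.2.val)).getD 0
  let g : ℕ → ℕ := fun x => ((φ x).getLast?.map (fun a => (a.2.val + 1) % r)).getD 0
  let bad : Finset ℕ := u.toFinset.image f ∪ u.toFinset.image g
  have h1 : bad.card ≤ n + n :=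
    (Finset.card_union_le _ _).trans
      (add_le_add (Finset.card_image_le.trans hcard) (Finset.card_image_le.trans hcard))
  have h2 : ∃ k ∈ Finset.Ico 1 r, k ∉ bad := by
    by_contra hcon
    push Not at hcon
    have h3 : (Finset.Ico 1 r).card ≤ bad.card := Finset.card_le_card hcon
    rw [Nat.card_Ico] at h3
    omega
  obtain ⟨k, hk, hkb⟩ := h2
  rw [Finset.mem_Ico] at hk
  refine ⟨k, hk.1, hk.2, ?_⟩
  intro x hx a t
  simp only [bad, Finset.mem_union, Finset.mem_image, List.mem_toFinset, not_or, not_exists,
    not_and] at hkb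
  refine ⟨?_, ?_⟩
  · intro h h4
    apply hkb.1 x hx
    simp only [f, h, List.head?_cons, Option.map_some, Option.getD_some]
    exact h4
  · intro h h4
    apply hkb.2 x hx
    simp only [g, h, List.getLast?_append, List.getLast?_singleton, Option.some_or, Option.map_some,
      Option.getD_some]
    exact h4

theorem Good.level (T : Theory E) (n : ℕ) (hrn : r = 2 * n + 2)
    (IH : ∀ (u : List ℕ) (φ : ℕ → List (Fin r × Fin r)), u.toFinset.card ≤ n →
      u.flatMap φ <:+: w → Good E u φ) (u : List ℕ) (φ : ℕ → List (Fin r × Fin r))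
    (hcard : u.toFinset.card ≤ n) (hin : u.flatMap φ <:+: w.flatMap (psi r)) : Good E u φ := by
  classical
  apply Good.of_filter T
  have hc2 : (u.filter (fun x => decide (φ x ≠ []))).toFinset.card ≤ n := by
    refine le_trans (Finset.card_le_card ?_) hcard
    intro x hx
    simp at hx ⊢
    exact hx.1
  obtain ⟨k, hk1, hkr, hk⟩ := exists_NB n hrn (u.filter (fun x => decide (φ x ≠ []))) φ hc2
  apply Good.right (by omega) T n IH k hk1 hkr (r - (k + 1)) (k + 1) (by omega) (by omega) _ _ hc2
  · intro x hx
    simpa using (List.mem_filter.1 hx).2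
  · rw [flatMap_filter_ne]
    exact hin
  · intro b hb1 hb2
    have : b = k := by omega
    rw [this]
    exact hk

end level

/-- iterates of the substitution -/
def it (r : ℕ) (a : Fin r × Fin r) : ℕ → List (Fin r × Fin r)
  | 0 => [a]
  | m + 1 => (it r a m).flatMap (psi r)

theorem psi_length (r : ℕ) (a : Fin r × Fin r) : (psi r a).length = r := by simp [psi]

theorem it_length (r : ℕ) (a : Fin r × Fin r) (m : ℕ) : (it r a m).length = r ^ m := by
  induction m with
  | zero => rfl
  | succ m ih =>
    rw [it, List.length_flatMap]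
    simp only [psi_length]
    rw [List.map_const', List.sum_replicate, ih]
    simp [pow_succ]

theorem Good.it (T : Theory E) (n r : ℕ) (hrn : r = 2 * n + 2) (a : Fin r × Fin r) (m : ℕ) :
    ∀ (u : List ℕ) (φ : ℕ → List (Fin r × Fin r)), u.toFinset.card ≤ n →
      u.flatMap φ <:+: it r a m → Good E u φ := by
  classical
  induction m with
  | zero =>
    intro u φ hcard hin
    apply Good.of_filter T
    have h1 : (u.filter (fun x => decide (φ x ≠ []))).length ≤ 1 := by
      have h2 : (u.flatMap φ).length ≤ 1 := by simpa [Pool.Agent.INFB.it] using hin.length_le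
      rw [← flatMap_filter_ne, List.length_flatMap] at h2
      refine le_trans ?_ h2
      have h3 : ∀ l : List ℕ, (∀ x ∈ l, φ x ≠ []) →
          l.length ≤ (l.map (fun x => (φ x).length)).sum := by
        intro l
        induction l with
        | nil => simp
        | cons x l ih =>
          intro h
          have h4 := ih (fun y hy => h y (by simp [hy]))
          have h5 : 1 ≤ (φ x).length := List.length_pos_iff.2 (h x (by simp))
          simp only [List.length_cons, List.map_cons, List.sum_cons]
          omega
      apply h3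
      intro x hx
      simpa using (List.mem_filter.1 hx).2
    set u' := u.filter (fun x => decide (φ x ≠ [])) with hu'
    have hemb : Emb u' := by
      cases hu : u' with
      | nil => exact ⟨fun _ => [0], by simp, by simpa using ZFac.nil⟩
      | cons x t =>
        have ht : t = [] := by
          rw [hu] at h1
          simpa using h1
        rw [ht]
        exact ⟨fun _ => [0], by simp, 1, by simp [Zw]⟩
    refine ⟨?_, ?_⟩
    · have : u'.filter (fun x => decide (φ x ≠ [])) = u' := by
        rw [List.filter_eq_self]
        intro x hx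
        exact (List.mem_filter.1 hx).2
      rw [this]
      exact hemb
    · intro v huv
      -- `u'` is itself a Zimin word up to renaming
      have h2 := T.junction huv hemb (Λ := ℕ) (fun x => 2 * x) (fun x => 2 * x + 1)
      cases hu : u' with
      | nil =>
        rw [hu] at huv
        rw [T.nil_left huv]
      | cons x t =>
        have ht : t = [] := by
          rw [hu] at h1
          simpa using h1
        subst ht
        rw [hu] at huv
        have h3 := T.iso_fac (T.subst _ _ (fun _ => [0]) huv) ⟨1, by simp [Zw]⟩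
        have h4 : v.length = 1 := by
          have := congrArg List.length h3
          simpa [List.length_flatMap] using this
        obtain ⟨y, rfl⟩ := List.length_eq_one_iff.1 h4
        have h5 := T.content huv y (by simp)
        simp at h5
        rw [h5]
  | succ m ih =>
    intro u φ hcard hin
    exact Good.level T n hrn ih u φ hcard hin

/-- **Bean-Ehrenfeucht-McNulty, Sapir.** If Zimin words are isoterms for an equational theory, then
for any `n` there is a finite alphabet and a factor closed set of arbitrarily long words on which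
the identities in at most `n` letters act trivially. -/
theorem exists_fac (T : Theory E) (n : ℕ) :
    ∃ (A : Type) (_ : Finite A) (Fac : Set (List A)),
      (∀ x y z : List A, x ++ y ++ z ∈ Fac → y ∈ Fac) ∧
      (∀ L : ℕ, ∃ w ∈ Fac, L ≤ w.length) ∧
      ∀ u v : List ℕ, u.toFinset.card ≤ n → E u v →
        ∀ φ : ℕ → List A, u.flatMap φ ∈ Fac → v.flatMap φ = u.flatMap φ := by
  let r := 2 * n + 2
  let a : Fin r × Fin r := (⟨0, by omega⟩, ⟨0, by omega⟩)
  refine ⟨Fin r × Fin r, inferInstance, {w | ∃ m, w <:+: it r a m}, ?_, ?_, ?_⟩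
  · rintro x y z ⟨m, hm⟩
    exact ⟨m, List.IsInfix.trans ⟨x, z, rfl⟩ hm⟩
  · intro L
    refine ⟨it r a L, ⟨L, [], [], by simp⟩, ?_⟩
    rw [it_length]
    have : 2 ≤ r := by omega
    exact (Nat.lt_pow_self (by omega : 1 < r)).le
  · rintro u v hcard huv φ ⟨m, hm⟩
    exact (Good.it T n r rfl a m u φ hcard hm).2 v huv

end Pool.Agent.INFB
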