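import Mathlib

/-!
Inherently non-finitely based finite monoids: common definitions.
-/

set_option autoImplicit false

namespace Pool.Agent.INFB

/-- Zimin words over the letters `0, 1, 2, ...` -/
def Zw : ℕ → List ℕ
  | 0 => []
  | n + 1 => Zw n ++ n :: Zw n

/-- the monoid `M` satisfies the identity `u = v` -/
def Sat (M : Type) [Monoid M] (u v : List ℕ) : Prop :=
  ∀ f : ℕ → M, (u.map f).prod = (v.map f).prod

/-- `x` is a unit of the local monoid `e M e` -/
def Un {M : Type} [Monoid M] (e x : M) : Prop :=
  e * x = x ∧ x * e = x ∧ ∃ y, e * y = y ∧ y * e = y ∧ x * y = e ∧ y * x = e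

/-- the upper central series of the group of units of `e M e` -/
def Zt {M : Type} [Monoid M] (e : M) : ℕ → M → Prop
  | 0, x => x = e
  | k + 1, x => Un e x ∧ ∀ g, Un e g → ∃ z, Zt e k z ∧ x * g = z * g * x

/-- Sapir's condition -/
def PP (M : Type) [Monoid M] (d : ℕ) : Prop :=
  ∀ e s u t : M, e * e = e → e * s = s → t * e = t → s * u * t = e →
    ∃ k, Zt e k (s * u ^ (1 + d) * t)

/-- the iterated commutator law: with `N + 1` elements `x i`, for all pairs `i < j`, the conjugates of
`x i * (x j)⁻¹` are plugged one after the other in an iterated commutator -/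
def GLaw (G : Type) [Group G] (N : ℕ) : Prop :=
  ∀ (z : G) (x : Fin (N + 1) → G) (y : Fin (N + 1) × Fin (N + 1) → G),
    ((((List.finRange (N + 1)) ×ˢ (List.finRange (N + 1))).filter (fun p => decide (p.1 < p.2))).map
      (fun p => y p * (x p.1 * (x p.2)⁻¹) * (y p)⁻¹)).foldl (fun a b => a * b * a⁻¹ * b⁻¹) z = 1

end Pool.Agent.INFB
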