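import Mathlib

/-!
The uniform substitution `psi` and its local rules.
-/

set_option autoImplicit false

namespace Pool.Agent.INFB

/-- the substitution: a letter is a pair (symbol, column) and is replaced by a block of length `r`
whose symbols are the two components, alternating -/
def psi (r : ℕ) (a : Fin r × Fin r) : List (Fin r × Fin r) :=
  List.ofFn (fun j : Fin r => (if j.val % 2 = 0 then a.1 else a.2, j))

/-- local rules satisfied by the words `w.flatMap (psi r)` -/
structure Loc {r : ℕ} (W : List (Fin r × Fin r)) : Prop where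
  adj : ∀ X a b Y, W = X ++ a :: b :: Y → b.2.val = (a.2.val + 1) % r
  sym : ∀ X a b c Y, W = X ++ a :: b :: c :: Y → 2 ≤ c.2.val → c.1 = a.1
  fst : ∀ a Y, W = a :: Y → a.2.val = 0
  lst : ∀ X a, W = X ++ [a] → a.2.val + 1 = r

/-- no image of a letter of `u` starts or ends at the boundary `b` (between the columns `b-1` and `b`) -/
def NB {r : ℕ} (φ : ℕ → List (Fin r × Fin r)) (u : List ℕ) (b : ℕ) : Prop :=
  ∀ x ∈ u, ∀ (a : Fin r × Fin r) (t : List (Fin r × Fin r)),
    (φ x = a :: t → a.2.val ≠ b) ∧ (φ x = t ++ [a] → (a.2.val + 1) % r ≠ b)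

end Pool.Agent.INFB
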