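import Mathlib

/-!
Multiplication tables: arithmetical version of the definitions.
-/

set_option autoImplicit false

namespace Pool.Agent.INFB

/-- product in the table `c` -/
def tmul (c : ℕ × List ℕ) (a b : ℕ) : ℕ := c.2.getD (a * c.1 + b) 0

/-- `tpow c a k` is the power `a ^ (k + 1)` -/
def tpow (c : ℕ × List ℕ) (a : ℕ) : ℕ → ℕ
  | 0 => a
  | k + 1 => tmul c (tpow c a k) a

/-- unit of the local monoid -/
def tUn (c : ℕ × List ℕ) (e x : ℕ) : Prop :=
  tmul c e x = x ∧ tmul c x e = x ∧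
    ∃ y < c.1, tmul c e y = y ∧ tmul c y e = y ∧ tmul c x y = e ∧ tmul c y x = e

/-- upper central series -/
def tZt (c : ℕ × List ℕ) (e : ℕ) : ℕ → ℕ → Prop
  | 0, x => x = e
  | k + 1, x => tUn c e x ∧
      ∀ g < c.1, tUn c e g → ∃ z < c.1, tZt c e k z ∧ tmul c x g = tmul c (tmul c z g) x

/-- Sapir's condition for a table -/
def tPP (c : ℕ × List ℕ) : Prop :=
  ∀ e < c.1, ∀ s < c.1, ∀ u < c.1, ∀ t < c.1,
    tmul c e e = e → tmul c e s = s → tmul c t e = t → tmul c (tmul c s u) t = e →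
      tZt c e c.1 (tmul c (tmul c s (tpow c u (c.1.factorial))) t)

/-- `c` is the multiplication table of a monoid -/
def tValid (c : ℕ × List ℕ) : Prop :=
  c.2.length = c.1 * c.1 ∧ c.1 ≠ 0 ∧ (∀ x ∈ c.2, x < c.1) ∧
    (∀ a < c.1, ∀ b < c.1, ∀ d < c.1, tmul c (tmul c a b) d = tmul c a (tmul c b d)) ∧
    ∃ e < c.1, ∀ a < c.1, tmul c e a = a ∧ tmul c a e = a

end Pool.Agent.INFB
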