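import Pool.Agent.INFB.Defs

set_option autoImplicit false

namespace Pool.Agent.INFB
namespace SJ1




theorem Zw_lt (n : ℕ) : ∀ i ∈ Zw n, i < n := by
  induction n with
  | zero => intro i hi; simp [Zw] at hi
  | succ n ih =>
    intro i hi
    simp only [Zw, List.mem_append, List.mem_cons] at hi
    rcases hi with h | h | h
    · exact (ih i h).trans (Nat.lt_succ_self n)
    · rw [h]; exact Nat.lt_succ_self n
    · exact (ih i h).trans (Nat.lt_succ_self n)

/-- Zimin words are unavoidable -/
theorem zimin_unavoidable (n : ℕ) (α : Type) [Finite α] :
    ∃ L : ℕ, ∀ w : List α, L ≤ w.length →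
      ∃ (A B : List α) (φ : ℕ → List α), (∀ i, φ i ≠ []) ∧ w = A ++ (Zw n).flatMap φ ++ B := by
  induction n with
  | zero =>
    refine ⟨1, fun w hw => ⟨[], w, fun _ => w, fun _ => ?_, ?_⟩⟩
    · intro h
      have h' : w = [] := h
      rw [h'] at hw
      simp at hw
    · simp [Zw]
  | succ n ih =>
    obtain ⟨l, hl⟩ := ih
    have hfin := List.finite_length_eq α l
    set q := hfin.toFinset.card with hq
    refine ⟨(q + 1) * (l + 1), fun w hw => ?_⟩
    have hlen : ∀ i, i < q + 1 → i * (l + 1) + l + 1 ≤ w.length := by
      intro i hi
      have : (i + 1) * (l + 1) ≤ (q + 1) * (l + 1) := Nat.mul_le_mul_right _ hi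
      have e : (i + 1) * (l + 1) = i * (l + 1) + l + 1 := by ring
      omega
    have hblen : ∀ i, i < q + 1 → ((w.drop (i * (l + 1))).take l).length = l := by
      intro i hi
      have := hlen i hi
      rw [List.length_take, List.length_drop]
      omega
    obtain ⟨i, hi, j, hj, hij, hEq⟩ := Finset.exists_ne_map_eq_of_card_lt_of_maps_to
      (s := Finset.range (q + 1)) (t := hfin.toFinset)
      (f := fun i => (w.drop (i * (l + 1))).take l)
      (by rw [Finset.card_range]; exact Nat.lt_succ_self _)
      (by
        intro i hi
        have hi' : i < q + 1 := Finset.mem_range.1 (by simpa using hi)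
        have := hblen i hi'
        simpa using this)
    -- WLOG i < j
    have key : ∀ i j, i < q + 1 → j < q + 1 → i < j →
        (w.drop (i * (l + 1))).take l = (w.drop (j * (l + 1))).take l →
        ∃ (A B : List α) (φ : ℕ → List α), (∀ i, φ i ≠ []) ∧
          w = A ++ (Zw (n + 1)).flatMap φ ++ B := by
      intro i j hi hj hij hE
      have hpr : i * (l + 1) + l + 1 ≤ j * (l + 1) := by
        have : (i + 1) * (l + 1) ≤ j * (l + 1) := Nat.mul_le_mul_right _ hij
        have e : (i + 1) * (l + 1) = i * (l + 1) + l + 1 := by ring
        omega
      have hjl := hlen j hj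
      have hbl := hblen j hj
      generalize i * (l + 1) = p at hpr hE
      generalize j * (l + 1) = r at hpr hE hjl hbl
      set b := (w.drop r).take l with hb
      set C := (w.drop (p + l)).take (r - (p + l)) with hC
      have hw1 : w = w.take p ++ (b ++ (C ++ (b ++ w.drop (r + l)))) := by
        have h1 : w.drop r = b ++ w.drop (r + l) := by
          conv_lhs => rw [← List.take_append_drop l (w.drop r)]
          rw [List.drop_drop]
        have h2 : w.drop (p + l) = C ++ w.drop r := by
          conv_lhs => rw [← List.take_append_drop (r - (p + l)) (w.drop (p + l))]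
          rw [List.drop_drop, show p + l + (r - (p + l)) = r by omega]
        have h3 : w.drop p = b ++ w.drop (p + l) := by
          conv_lhs => rw [← List.take_append_drop l (w.drop p)]
          rw [List.drop_drop, hE]
        rw [← h1, ← h2, ← h3, List.take_append_drop]
      have hCne : C ≠ [] := by
        intro h
        have h2 := congrArg List.length h
        rw [hC, List.length_take, List.length_drop, List.length_nil] at h2
        omega
      obtain ⟨A', B', φ, hφ, hbe⟩ := hl b hbl.ge
      refine ⟨w.take p ++ A', B' ++ w.drop (r + l), Function.update φ n (B' ++ C ++ A'), ?_, ?_⟩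
      · intro k
        by_cases hk : k = n
        · subst hk
          rw [Function.update_self]
          simp [hCne]
        · rw [Function.update_of_ne hk]
          exact hφ k
      · have hZ : (Zw n).flatMap (Function.update φ n (B' ++ C ++ A')) = (Zw n).flatMap φ := by
          apply List.flatMap_congr
          intro k hk
          rw [Function.update_of_ne (Zw_lt n k hk).ne]
        have hZ1 : (Zw (n + 1)).flatMap (Function.update φ n (B' ++ C ++ A')) =
            (Zw n).flatMap φ ++ ((B' ++ C ++ A') ++ (Zw n).flatMap φ) := by
          rw [Zw, List.flatMap_append, List.flatMap_cons, hZ, Function.update_self]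
        rw [hZ1]
        conv_lhs => rw [hw1, hbe]
        simp only [List.append_assoc]
    have hi' : i < q + 1 := Finset.mem_range.1 hi
    have hj' : j < q + 1 := Finset.mem_range.1 hj
    rcases lt_or_gt_of_ne hij with h | h
    · exact key i j hi' hj' h hEq
    · exact key j i hj' hi' h hEq.symm

end SJ1
end Pool.Agent.INFB
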