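import Pool.Agent.INFB.DefsTab

set_option autoImplicit false

namespace Pool.Agent.INFB
namespace SJ10




/-! ### auxiliary lemmas -/

section aux

attribute [local fun_prop] Primrec

variable {α β γ : Type*} [Primcodable α] [Primcodable β] [Primcodable γ]

@[local fun_prop] theorem pid : Primrec (fun x : α => x) := Primrec.id
@[local fun_prop] theorem pconst (b : β) : Primrec (fun _ : α => b) := Primrec.const b
@[local fun_prop] theorem pcomp {f : β → γ} {g : α → β} (hf : Primrec f) (hg : Primrec g) :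
    Primrec (fun x => f (g x)) := hf.comp hg
@[local fun_prop] theorem pfst {f : α → β × γ} (hf : Primrec f) :
    Primrec (fun x => (f x).1) := Primrec.fst.comp hf
@[local fun_prop] theorem psnd {f : α → β × γ} (hf : Primrec f) :
    Primrec (fun x => (f x).2) := Primrec.snd.comp hf
@[local fun_prop] theorem ppair {f : α → β} {g : α → γ} (hf : Primrec f) (hg : Primrec g) :
    Primrec (fun x => (f x, g x)) := hf.pair hg
@[local fun_prop] theorem padd {f g : α → ℕ} (hf : Primrec f) (hg : Primrec g) :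
    Primrec (fun x => f x + g x) := Primrec.nat_add.comp hf hg
@[local fun_prop] theorem psub {f g : α → ℕ} (hf : Primrec f) (hg : Primrec g) :
    Primrec (fun x => f x - g x) := Primrec.nat_sub.comp hf hg
@[local fun_prop] theorem pmul {f g : α → ℕ} (hf : Primrec f) (hg : Primrec g) :
    Primrec (fun x => f x * g x) := Primrec.nat_mul.comp hf hg
@[local fun_prop] theorem plength {f : α → List β} (hf : Primrec f) :
    Primrec (fun x => (f x).length) := Primrec.list_length.comp hf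
@[local fun_prop] theorem ptmul {c : α → ℕ × List ℕ} {a b : α → ℕ} (hc : Primrec c)
    (ha : Primrec a) (hb : Primrec b) : Primrec (fun x => tmul (c x) (a x) (b x)) := by
  unfold tmul
  exact (Primrec.list_getD 0).comp (psnd hc) (padd (pmul ha (pfst hc)) hb)

theorem pp_all {p : α → ℕ → Prop} (hp : PrimrecPred fun x : α × ℕ => p x.1 x.2) {f : α → ℕ}
    (hf : Primrec f) : PrimrecPred fun a => ∀ i < f a, p a i := by
  have h1 : PrimrecRel (fun (i : ℕ) (a : α) => p a i) :=
    PrimrecPred.comp hp (f := fun x : ℕ × α => (x.2, x.1)) (by fun_prop)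
  have h2 := PrimrecRel.comp h1.forall_mem_list (Primrec.list_range.comp hf) Primrec.id
  refine h2.of_eq fun a => ?_
  simp

theorem pp_ex {p : α → ℕ → Prop} (hp : PrimrecPred fun x : α × ℕ => p x.1 x.2) {f : α → ℕ}
    (hf : Primrec f) : PrimrecPred fun a => ∃ i < f a, p a i := by
  have h1 : PrimrecRel (fun (i : ℕ) (a : α) => p a i) :=
    PrimrecPred.comp hp (f := fun x : ℕ × α => (x.2, x.1)) (by fun_prop)
  have h2 := PrimrecRel.comp h1.exists_mem_list (Primrec.list_range.comp hf) Primrec.id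
  refine h2.of_eq fun a => ?_
  simp

theorem pp_imp {p q : α → Prop} (hp : PrimrecPred p) (hq : PrimrecPred q) :
    PrimrecPred fun a => p a → q a := by
  refine (hp.not.or hq).of_eq fun a => ?_
  tauto

theorem pp_eq {f g : α → ℕ} (hf : Primrec f) (hg : Primrec g) : PrimrecPred fun a => f a = g a :=
  Primrec.eq.comp hf hg

theorem pp_lt {f g : α → ℕ} (hf : Primrec f) (hg : Primrec g) : PrimrecPred fun a => f a < g a :=
  Primrec.nat_lt.comp hf hg

theorem pp_mem {f : α → ℕ} {l : α → List ℕ} (hf : Primrec f) (hl : Primrec l) :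
    PrimrecPred fun a => f a ∈ l a := by
  have h1 : PrimrecRel (fun (i j : ℕ) => i = j) := Primrec.eq
  have h2 := PrimrecRel.comp h1.exists_mem_list hl hf
  refine h2.of_eq fun a => ?_
  simp

theorem pp_all_mem {p : α → ℕ → Prop} (hp : PrimrecPred fun x : α × ℕ => p x.1 x.2)
    {l : α → List ℕ} (hl : Primrec l) : PrimrecPred fun a => ∀ i ∈ l a, p a i := by
  have h1 : PrimrecRel (fun (i : ℕ) (a : α) => p a i) :=
    PrimrecPred.comp hp (f := fun x : ℕ × α => (x.2, x.1)) (by fun_prop)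
  exact PrimrecRel.comp h1.forall_mem_list hl Primrec.id

theorem pp_tUn {c : α → ℕ × List ℕ} {e x : α → ℕ} (hc : Primrec c) (he : Primrec e)
    (hx : Primrec x) : PrimrecPred (fun a => tUn (c a) (e a) (x a)) := by
  unfold tUn
  refine (pp_eq (by fun_prop) hx).and ((pp_eq (by fun_prop) hx).and ?_)
  refine pp_ex (p := fun a y => tmul (c a) (e a) y = y ∧ tmul (c a) y (e a) = y ∧
    tmul (c a) (x a) y = e a ∧ tmul (c a) y (x a) = e a) ?_ (pfst hc)
  have hc' : Primrec (fun w : α × ℕ => c w.1) := hc.comp Primrec.fst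
  have he' : Primrec (fun w : α × ℕ => e w.1) := he.comp Primrec.fst
  have hx' : Primrec (fun w : α × ℕ => x w.1) := hx.comp Primrec.fst
  refine PrimrecPred.and (pp_eq ?_ ?_) (PrimrecPred.and (pp_eq ?_ ?_)
    (PrimrecPred.and (pp_eq ?_ ?_) (pp_eq ?_ ?_)))
  all_goals fun_prop

/-- one step of the upper central series -/
def stp (c : ℕ × List ℕ) (e : ℕ) (l : List ℕ) (x : ℕ) : Prop :=
  tUn c e x ∧ ∀ g < c.1, tUn c e g → ∃ z < c.1, z ∈ l ∧ tmul c x g = tmul c (tmul c z g) x

theorem pp_stp {c : α → ℕ × List ℕ} {e x : α → ℕ} {l : α → List ℕ} (hc : Primrec c)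
    (he : Primrec e) (hl : Primrec l) (hx : Primrec x) :
    PrimrecPred (fun a => stp (c a) (e a) (l a) (x a)) := by
  unfold stp
  refine (pp_tUn hc he hx).and ?_
  refine pp_all (p := fun a g => tUn (c a) (e a) g → ∃ z < (c a).1, z ∈ l a ∧
    tmul (c a) (x a) g = tmul (c a) (tmul (c a) z g) (x a)) ?_ (pfst hc)
  have hc' : Primrec (fun w : α × ℕ => c w.1) := hc.comp Primrec.fst
  have he' : Primrec (fun w : α × ℕ => e w.1) := he.comp Primrec.fst
  refine pp_imp (pp_tUn hc' he' Primrec.snd) ?_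
  refine pp_ex (p := fun (a : α × ℕ) z => z ∈ l a.1 ∧
    tmul (c a.1) (x a.1) a.2 = tmul (c a.1) (tmul (c a.1) z a.2) (x a.1)) ?_ (by fun_prop)
  have hc2 : Primrec (fun w : (α × ℕ) × ℕ => c w.1.1) := hc.comp (Primrec.fst.comp Primrec.fst)
  have hx2 : Primrec (fun w : (α × ℕ) × ℕ => x w.1.1) := hx.comp (Primrec.fst.comp Primrec.fst)
  have hl2 : Primrec (fun w : (α × ℕ) × ℕ => l w.1.1) := hl.comp (Primrec.fst.comp Primrec.fst)
  refine PrimrecPred.and (pp_mem Primrec.snd hl2) (pp_eq ?_ ?_)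
  all_goals fun_prop

/-- the upper central series as lists -/
noncomputable def zl (c : ℕ × List ℕ) (e : ℕ) : ℕ → List ℕ
  | 0 => [e]
  | k + 1 => (List.range c.1).filter (fun x => @decide (stp c e (zl c e k) x) (Classical.dec _))

theorem mem_zl_succ (c : ℕ × List ℕ) (e k x : ℕ) :
    x ∈ zl c e (k + 1) ↔ x < c.1 ∧ stp c e (zl c e k) x := by
  simp [zl]

theorem mem_zl (c : ℕ × List ℕ) (e : ℕ) (k : ℕ) : ∀ z < c.1, (z ∈ zl c e k ↔ tZt c e k z) := by
  induction k with
  | zero =>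
    intro z _
    simp [zl, tZt]
  | succ k ih =>
    intro z hz
    rw [mem_zl_succ]
    simp only [stp, tZt, hz, true_and]
    refine and_congr Iff.rfl ?_
    refine forall_congr' fun g => forall_congr' fun hg => forall_congr' fun _ => ?_
    refine exists_congr fun w => ?_
    constructor
    · rintro ⟨h1, h2, h3⟩
      exact ⟨h1, (ih w h1).1 h2, h3⟩
    · rintro ⟨h1, h2, h3⟩
      exact ⟨h1, (ih w h1).2 h2, h3⟩

theorem tZt_succ (c : ℕ × List ℕ) (e k x : ℕ) : tZt c e (k + 1) x ↔ stp c e (zl c e k) x := by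
  simp only [stp, tZt]
  refine and_congr Iff.rfl ?_
  refine forall_congr' fun g => forall_congr' fun hg => forall_congr' fun _ => ?_
  refine exists_congr fun w => ?_
  constructor
  · rintro ⟨h1, h2, h3⟩
    exact ⟨h1, (mem_zl c e k w h1).2 h2, h3⟩
  · rintro ⟨h1, h2, h3⟩
    exact ⟨h1, (mem_zl c e k w h1).1 h2, h3⟩

theorem pzl {c : α → ℕ × List ℕ} {e k : α → ℕ} (hc : Primrec c) (he : Primrec e)
    (hk : Primrec k) : Primrec (fun a => zl (c a) (e a) (k a)) := by
  classical
  have hR : PrimrecRel (fun (x : ℕ) (w : ((ℕ × List ℕ) × ℕ) × List ℕ) =>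
      stp w.1.1 w.1.2 w.2 x) := by
    apply pp_stp (α := ℕ × (((ℕ × List ℕ) × ℕ) × List ℕ))
    all_goals fun_prop
  have hf := hR.listFilter
  have h1 : Primrec (fun a => Nat.rec (motive := fun _ => List ℕ) [e a]
      (fun _ IH => (List.range (c a).1).filter (fun x => decide (stp (c a) (e a) IH x))) (k a)) := by
    refine Primrec.nat_rec' (f := k) (g := fun a => [e a])
      (h := fun a w => (List.range (c a).1).filter (fun x => decide (stp (c a) (e a) w.2 x)))
      hk ?_ ?_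
    · exact Primrec.list_cons.comp he (Primrec.const [])
    · have hl : Primrec (fun w : α × (ℕ × List ℕ) => List.range (c w.1).1) :=
        Primrec.list_range.comp (Primrec.fst.comp (hc.comp Primrec.fst))
      have hp : Primrec (fun w : α × (ℕ × List ℕ) => ((c w.1, e w.1), w.2.2)) :=
        ((hc.comp Primrec.fst).pair (he.comp Primrec.fst)).pair (Primrec.snd.comp Primrec.snd)
      have := hf.comp hl hp
      exact this
  refine h1.of_eq fun a => ?_
  generalize k a = n
  induction n with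
  | zero => rfl
  | succ n ih =>
    simp only [zl]
    rw [← ih]

theorem pp_tZt {c : α → ℕ × List ℕ} {e k x : α → ℕ} (hc : Primrec c) (he : Primrec e)
    (hk : Primrec k) (hx : Primrec x) : PrimrecPred (fun a => tZt (c a) (e a) (k a) (x a)) := by
  have h1 : PrimrecPred (fun a => (k a = 0 ∧ x a = e a) ∨
      (k a ≠ 0 ∧ stp (c a) (e a) (zl (c a) (e a) (k a - 1)) (x a))) := by
    refine PrimrecPred.or (PrimrecPred.and (pp_eq hk (Primrec.const 0)) (pp_eq hx he))
      (PrimrecPred.and (pp_eq hk (Primrec.const 0)).not ?_)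
    exact pp_stp hc he (pzl hc he (psub hk (Primrec.const 1))) hx
  refine h1.of_eq fun a => ?_
  rcases Nat.eq_zero_or_pos (k a) with h | h
  · rw [h]
    simp [tZt]
  · obtain ⟨n, hn⟩ : ∃ n, k a = n + 1 := ⟨k a - 1, by omega⟩
    rw [hn, tZt_succ]
    simp

@[local fun_prop] theorem pfact {f : α → ℕ} (hf : Primrec f) :
    Primrec (fun a => (f a).factorial) := by
  have h1 : Primrec (fun a => Nat.rec (motive := fun _ => ℕ) 1
      (fun n IH => (n + 1) * IH) (f a)) := by
    refine Primrec.nat_rec' (f := f) (g := fun _ => 1) (h := fun _ w => (w.1 + 1) * w.2) hf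
      (Primrec.const 1) ?_
    have : Primrec (fun w : α × (ℕ × ℕ) => (w.2.1 + 1) * w.2.2) := by fun_prop
    exact this
  refine h1.of_eq fun a => ?_
  generalize f a = n
  induction n with
  | zero => rfl
  | succ n ih => rw [Nat.factorial_succ, ← ih]

@[local fun_prop] theorem ptpow {c : α → ℕ × List ℕ} {b k : α → ℕ} (hc : Primrec c)
    (hb : Primrec b) (hk : Primrec k) : Primrec (fun a => tpow (c a) (b a) (k a)) := by
  have h1 : Primrec (fun a => Nat.rec (motive := fun _ => ℕ) (b a)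
      (fun _ IH => tmul (c a) IH (b a)) (k a)) := by
    refine Primrec.nat_rec' (f := k) (g := b) (h := fun a w => tmul (c a) w.2 (b a)) hk hb ?_
    have hc' : Primrec (fun w : α × (ℕ × ℕ) => c w.1) := hc.comp Primrec.fst
    have hb' : Primrec (fun w : α × (ℕ × ℕ) => b w.1) := hb.comp Primrec.fst
    have : Primrec (fun w : α × (ℕ × ℕ) => tmul (c w.1) w.2.2 (b w.1)) := by fun_prop
    exact this
  refine h1.of_eq fun a => ?_
  generalize k a = n
  induction n with
  | zero => rfl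
  | succ n ih => simp only [tpow, ← ih]

theorem pp_tPP : PrimrecPred tPP := by
  unfold tPP
  refine pp_all (p := fun (c : ℕ × List ℕ) e => ∀ s < c.1, ∀ u < c.1, ∀ t < c.1,
    tmul c e e = e → tmul c e s = s → tmul c t e = t → tmul c (tmul c s u) t = e →
      tZt c e c.1 (tmul c (tmul c s (tpow c u (c.1.factorial))) t)) ?_ (by fun_prop)
  refine pp_all (p := fun (w : (ℕ × List ℕ) × ℕ) s => ∀ u < w.1.1, ∀ t < w.1.1,
    tmul w.1 w.2 w.2 = w.2 → tmul w.1 w.2 s = s → tmul w.1 t w.2 = t →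
      tmul w.1 (tmul w.1 s u) t = w.2 →
      tZt w.1 w.2 w.1.1 (tmul w.1 (tmul w.1 s (tpow w.1 u (w.1.1.factorial))) t)) ?_ (by fun_prop)
  refine pp_all (p := fun (w : ((ℕ × List ℕ) × ℕ) × ℕ) u => ∀ t < w.1.1.1,
    tmul w.1.1 w.1.2 w.1.2 = w.1.2 → tmul w.1.1 w.1.2 w.2 = w.2 → tmul w.1.1 t w.1.2 = t →
      tmul w.1.1 (tmul w.1.1 w.2 u) t = w.1.2 →
      tZt w.1.1 w.1.2 w.1.1.1 (tmul w.1.1 (tmul w.1.1 w.2 (tpow w.1.1 u
        (w.1.1.1.factorial))) t)) ?_ (by fun_prop)
  refine pp_all (p := fun (w : (((ℕ × List ℕ) × ℕ) × ℕ) × ℕ) t =>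
    tmul w.1.1.1 w.1.1.2 w.1.1.2 = w.1.1.2 → tmul w.1.1.1 w.1.1.2 w.1.2 = w.1.2 →
      tmul w.1.1.1 t w.1.1.2 = t → tmul w.1.1.1 (tmul w.1.1.1 w.1.2 w.2) t = w.1.1.2 →
      tZt w.1.1.1 w.1.1.2 w.1.1.1.1 (tmul w.1.1.1 (tmul w.1.1.1 w.1.2 (tpow w.1.1.1 w.2
        (w.1.1.1.1.factorial))) t)) ?_ (by fun_prop)
  refine pp_imp (pp_eq ?_ ?_) (pp_imp (pp_eq ?_ ?_) (pp_imp (pp_eq ?_ ?_)
    (pp_imp (pp_eq ?_ ?_) (pp_tZt ?_ ?_ ?_ ?_))))
  all_goals fun_prop

theorem pp_tValid : PrimrecPred tValid := by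
  unfold tValid
  refine PrimrecPred.and (pp_eq (by fun_prop) (by fun_prop)) (PrimrecPred.and
    (pp_eq (by fun_prop) (by fun_prop)).not (PrimrecPred.and ?_ (PrimrecPred.and ?_ ?_)))
  · refine pp_all_mem (p := fun (c : ℕ × List ℕ) x => x < c.1) ?_ (by fun_prop)
    exact pp_lt (by fun_prop) (by fun_prop)
  · refine pp_all (p := fun (c : ℕ × List ℕ) a => ∀ b < c.1, ∀ d < c.1,
      tmul c (tmul c a b) d = tmul c a (tmul c b d)) ?_ (by fun_prop)
    refine pp_all (p := fun (w : (ℕ × List ℕ) × ℕ) b => ∀ d < w.1.1,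
      tmul w.1 (tmul w.1 w.2 b) d = tmul w.1 w.2 (tmul w.1 b d)) ?_ (by fun_prop)
    refine pp_all (p := fun (w : ((ℕ × List ℕ) × ℕ) × ℕ) d =>
      tmul w.1.1 (tmul w.1.1 w.1.2 w.2) d = tmul w.1.1 w.1.2 (tmul w.1.1 w.2 d)) ?_ (by fun_prop)
    exact pp_eq (by fun_prop) (by fun_prop)
  · refine pp_ex (p := fun (c : ℕ × List ℕ) e => ∀ a < c.1, tmul c e a = a ∧ tmul c a e = a) ?_
      (by fun_prop)
    refine pp_all (p := fun (w : (ℕ × List ℕ) × ℕ) a => tmul w.1 w.2 a = a ∧
      tmul w.1 a w.2 = a) ?_ (by fun_prop)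
    exact PrimrecPred.and (pp_eq (by fun_prop) (by fun_prop)) (pp_eq (by fun_prop) (by fun_prop))

end aux

/-- the condition on tables is computable -/
theorem computable_tab : ComputablePred (fun c : ℕ × List ℕ => tValid c ∧ ¬ tPP c) :=
  (PrimrecPred.and pp_tValid pp_tPP.not).computablePred

end SJ10
end Pool.Agent.INFB
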