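import Pool.Agent.INFB.Defs

set_option autoImplicit false

namespace Pool.Agent.INFB
namespace SJ12




theorem Un_self {M : Type} [Monoid M] {e : M} (he : e * e = e) : Un e e :=
  ⟨he, he, e, he, he, he, he⟩

theorem Zt_mono_succ {M : Type} [Monoid M] {e : M} (he : e * e = e) (k : ℕ) :
    ∀ x : M, Zt e k x → Zt e (k + 1) x := by
  induction k with
  | zero =>
    intro x hx
    have hx' : x = e := hx
    subst hx'
    refine ⟨Un_self he, fun g hg => ⟨x, rfl, ?_⟩⟩
    rw [hg.1, hg.2.1]
  | succ k ih =>
    intro x hx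
    refine ⟨hx.1, fun g hg => ?_⟩
    obtain ⟨z, hz, hz2⟩ := hx.2 g hg
    exact ⟨z, ih z hz, hz2⟩

/-- the upper central series of a finite group stabilizes -/
theorem Zt_stab (M : Type) [Monoid M] [Finite M] (e x : M) (he : e * e = e) :
    (∃ k, Zt e k x) ↔ Zt e (Nat.card M) x := by
  constructor
  · rintro ⟨k, hk⟩
    have hmono : Monotone (fun k => {x : M | Zt e k x}) :=
      monotone_nat_of_le_succ fun k x hx => Zt_mono_succ he k x hx
    have hfin : ∀ k, ({x : M | Zt e k x}).Finite := fun k => Set.toFinite _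
    have hcardmono : Monotone (fun k => ({x : M | Zt e k x}).ncard) := by
      intro a b hab
      exact Set.ncard_le_ncard (hmono hab) (hfin b)
    have hb : ∀ m, (fun k => ({x : M | Zt e k x}).ncard) m ≤ Nat.card M := by
      intro m
      exact Set.ncard_le_card _
    have hstab : ∀ m, (fun k => ({x : M | Zt e k x}).ncard) m = (fun k => ({x : M | Zt e k x}).ncard) (m + 1) →
        (fun k => ({x : M | Zt e k x}).ncard) (m + 1) = (fun k => ({x : M | Zt e k x}).ncard) (m + 2) := by
      intro m hm
      have h1 : {x : M | Zt e m x} = {x : M | Zt e (m + 1) x} :=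
        Set.eq_of_subset_of_ncard_le (hmono (Nat.le_succ m)) (le_of_eq hm.symm) (hfin _)
      have h2 : {x : M | Zt e (m + 1) x} = {x : M | Zt e (m + 2) x} := by
        apply Set.Subset.antisymm (hmono (Nat.le_succ _))
        intro y hy
        refine ⟨hy.1, fun g hg => ?_⟩
        obtain ⟨z, hz, hz2⟩ := hy.2 g hg
        refine ⟨z, ?_, hz2⟩
        have hz3 : z ∈ {x : M | Zt e (m + 1) x} := hz
        rw [← h1] at hz3
        exact hz3
      simp only [h2]
    by_cases hkN : k ≤ Nat.card M
    · exact hmono hkN hk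
    · have hst := Nat.stabilises_of_monotone hcardmono hb hstab (le_of_not_ge hkN)
      have h1 : {x : M | Zt e (Nat.card M) x} = {x : M | Zt e k x} :=
        Set.eq_of_subset_of_ncard_le (hmono (le_of_not_ge hkN)) (le_of_eq hst) (hfin _)
      have hk' : x ∈ {x : M | Zt e k x} := hk
      rw [← h1] at hk'
      exact hk'
  · exact fun h => ⟨_, h⟩

/-- a power of exponent `(Nat.card M)!` is idempotent -/
theorem pow_factorial_idem (M : Type) [Monoid M] [Finite M] (x : M) :
    x ^ (Nat.card M).factorial = x ^ (2 * (Nat.card M).factorial) := by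
  classical
  have := Fintype.ofFinite M
  obtain ⟨i, j, hne, hij⟩ := Fintype.exists_ne_map_eq_of_card_lt (fun i : Fin (Nat.card M + 1) => x ^ (i : ℕ))
    (by rw [Fintype.card_fin, Nat.card_eq_fintype_card]; exact Nat.lt_succ_self _)
  have hmain : ∀ a b : ℕ, a < b → b ≤ Nat.card M → x ^ a = x ^ b →
      x ^ (Nat.card M).factorial = x ^ (2 * (Nat.card M).factorial) := by
    intro a b hab hb h
    obtain ⟨p, rfl⟩ := Nat.exists_eq_add_of_lt hab
    have hp : p + 1 ≤ Nat.card M := by omega
    obtain ⟨k, hk⟩ := Nat.dvd_factorial (Nat.succ_pos p) hp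
    have hper : ∀ k m : ℕ, a ≤ m → x ^ (m + (p + 1) * k) = x ^ m := by
      intro k
      induction k with
      | zero =>
        intro m _
        simp
      | succ k ih =>
        intro m hm
        obtain ⟨c, rfl⟩ := Nat.exists_eq_add_of_le hm
        have h1 : a + c + (p + 1) * (k + 1) = (a + c + (p + 1) * k) + (p + 1) := by ring
        have h2 : x ^ (a + c + (p + 1)) = x ^ (a + c) := by
          have h3 : a + c + (p + 1) = (a + p + 1) + c := by ring
          rw [h3, pow_add, ← h, ← pow_add]
        rw [h1, pow_add, ih (a + c) hm, ← pow_add, h2]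
    have hle : a ≤ (Nat.card M).factorial := by
      have := Nat.self_le_factorial (Nat.card M)
      omega
    have h1 := hper k _ hle
    have h2 : 2 * (Nat.card M).factorial = (Nat.card M).factorial + (p + 1) * k := by
      rw [two_mul]
      congr 1
    rw [h2, h1]
  have hne' : (i : ℕ) ≠ j := fun h => hne (Fin.ext h)
  rcases Nat.lt_or_gt_of_ne hne' with h | h
  · exact hmain i j h (Nat.lt_succ_iff.mp j.2) hij
  · exact hmain j i h (Nat.lt_succ_iff.mp i.2) hij.symm

end SJ12
end Pool.Agent.INFB
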