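import Pool.Agent.INFB.Defs

set_option autoImplicit false

namespace Pool.Agent.INFB
namespace SJ2




/-- the iterated commutator law for a list -/
def LawL {G : Type} [Group G] {ι : Type} (a : ι → G) (L : List ι) (z : G) : Prop :=
  ∀ y : ι → G, (L.map (fun p => y p * a p * (y p)⁻¹)).foldl (fun a b => a * b * a⁻¹ * b⁻¹) z = 1

theorem ib_mk {G : Type} [Group G] (C : Subgroup G) [C.Normal] (z m : G) :
    z * m * z⁻¹ * m⁻¹ ∈ C ↔
      QuotientGroup.mk' C z * QuotientGroup.mk' C m = QuotientGroup.mk' C m * QuotientGroup.mk' C z := by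
  rw [← QuotientGroup.eq_one_iff]
  show (QuotientGroup.mk' C z * QuotientGroup.mk' C m * (QuotientGroup.mk' C z)⁻¹ * (QuotientGroup.mk' C m)⁻¹ = 1) ↔ _
  rw [mul_inv_eq_one, mul_inv_eq_iff_eq_mul]

open Subgroup in
theorem ib_cls {G : Type} [Group G] (C : Subgroup G) [C.Normal] (z a : G)
    (h : ∀ y : G, z * (y * a * y⁻¹) * z⁻¹ * (y * a * y⁻¹)⁻¹ ∈ C) (n : G) (hn : n ∈ normalClosure {a}) :
    z * n * z⁻¹ * n⁻¹ ∈ C := by
  have hle : normalClosure {a} ≤ (centralizer {(QuotientGroup.mk' C z)}).comap (QuotientGroup.mk' C) := by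
    rw [normalClosure, closure_le]
    intro m hm
    rw [Group.mem_conjugatesOfSet_iff] at hm
    obtain ⟨b, hb, hbm⟩ := hm
    rw [Set.mem_singleton_iff] at hb
    subst hb
    obtain ⟨y, hy⟩ := isConj_iff.1 hbm
    have h1 := h y
    rw [hy, ib_mk] at h1
    show m ∈ (centralizer {(QuotientGroup.mk' C z)}).comap (QuotientGroup.mk' C)
    rw [mem_comap, mem_centralizer_singleton_iff]
    exact h1.symm
  have h2 := hle hn
  rw [mem_comap, mem_centralizer_singleton_iff] at h2
  rw [ib_mk]
  exact h2.symm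

theorem ib_cons {G : Type} [Group G] {ι : Type} [DecidableEq ι] (a : ι → G) (p : ι) (L : List ι)
    (hp : p ∉ L) (z : G) :
    LawL a (p :: L) z ↔ ∀ g : G, LawL a L (z * (g * a p * g⁻¹) * z⁻¹ * (g * a p * g⁻¹)⁻¹) := by
  constructor
  · intro h g y
    have h1 := h (Function.update y p g)
    rw [List.map_cons, List.foldl_cons, Function.update_self] at h1
    have h2 : L.map (fun q => Function.update y p g q * a q * (Function.update y p g q)⁻¹) =
        L.map (fun q => y q * a q * (y q)⁻¹) := by
      apply List.map_congr_left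
      intro q hq
      have hne : q ≠ p := fun h => hp (h ▸ hq)
      rw [Function.update_of_ne hne]
    rw [h2] at h1
    exact h1
  · intro h y
    rw [List.map_cons, List.foldl_cons]
    exact h (y p) y

open Subgroup in
theorem ib_E {G : Type} [Group G] {ι : Type} [DecidableEq ι] (a : ι → G) : ∀ L : List ι, L.Nodup →
    ∃ C : Subgroup G, C.Normal ∧ ∀ z, z ∈ C ↔ LawL a L z := by
  intro L
  induction L with
  | nil =>
    intro _
    refine ⟨⊥, inferInstance, fun z => ?_⟩
    rw [mem_bot]
    constructor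
    · intro h y; simpa using h
    · intro h; simpa using h (fun _ => 1)
  | cons p L ih =>
    intro hL
    rw [List.nodup_cons] at hL
    obtain ⟨C, hC, hCL⟩ := ih hL.2
    have hmapn : (map (QuotientGroup.mk' C) (normalClosure {a p})).Normal :=
      Normal.map inferInstance _ (QuotientGroup.mk'_surjective C)
    refine ⟨(centralizer (map (QuotientGroup.mk' C) (normalClosure {a p}) : Set (G ⧸ C))).comap (QuotientGroup.mk' C),
      inferInstance, fun z => ?_⟩
    rw [ib_cons a p L hL.1]
    constructor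
    · intro hz g
      rw [← hCL, ib_mk]
      rw [mem_comap, mem_centralizer_iff] at hz
      have h1 : g * a p * g⁻¹ ∈ normalClosure {a p} :=
        normalClosure_normal.conj_mem _ (subset_normalClosure (Set.mem_singleton _)) g
      exact (hz (QuotientGroup.mk' C (g * a p * g⁻¹)) (mem_map_of_mem _ h1)).symm
    · intro h
      rw [mem_comap, mem_centralizer_iff]
      rintro _ ⟨n, hn, rfl⟩
      have h1 := ib_cls C z (a p) (fun y => (hCL _).2 (h y)) n hn
      rw [ib_mk] at h1
      exact h1.symm

open Subgroup in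
theorem ib_A {G : Type} [Group G] [Group.FG G] (d : ℕ) (hd : 1 ≤ d) (hexp : ∀ g : G, g ^ d = 1)
    (H : Subgroup G) (hH : H.FiniteIndex) : (⁅H, H⁆ : Subgroup G).FiniteIndex := by
  have h1 : Group.FG H := inferInstance
  have h2 : Group.FG (Abelianization H) := QuotientGroup.fg _
  have h3 : Finite (Abelianization H) := by
    apply CommGroup.finite_of_fg_isMulTorsion
    intro x
    rw [isOfFinOrder_iff_pow_eq_one]
    refine ⟨d, hd, ?_⟩
    obtain ⟨g, rfl⟩ := QuotientGroup.mk'_surjective (_root_.commutator H) x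
    have : g ^ d = 1 := Subtype.ext (by simpa using hexp g)
    have h4 : (QuotientGroup.mk' (_root_.commutator H)) (g ^ d) = 1 := by rw [this, map_one]
    rw [map_pow] at h4
    exact h4
  have h4 : (_root_.commutator H).FiniteIndex := by
    have : Finite (H ⧸ _root_.commutator H) := h3
    exact finiteIndex_of_finite_quotient
  have h5 : (⁅H, H⁆ : Subgroup G) = (_root_.commutator H).map H.subtype := by
    rw [_root_.commutator_def, map_commutator, ← MonoidHom.range_eq_map, range_subtype]
  constructor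
  rw [h5, index_map_subtype]
  exact mul_ne_zero h4.index_ne_zero hH.index_ne_zero

open Subgroup in
theorem ib_H {G : Type} [Group G] [Group.FG G] (d : ℕ) (hd : 1 ≤ d) (hexp : ∀ g : G, g ^ d = 1)
    {ι : Type} [DecidableEq ι] (a : ι → G) : ∀ L : List ι, L.Nodup → ∀ H : Subgroup G, H.FiniteIndex →
    (∀ p ∈ L, H ≤ normalClosure {a p}) → (∀ z ∈ H, LawL a L z) → Finite G := by
  intro L
  induction L with
  | nil =>
    intro _ H hH _ hz
    have h1 : H = ⊥ := by
      rw [eq_bot_iff]
      intro z hzH
      have := hz z hzH (fun _ => 1)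
      simpa using this
    have h2 := hH.index_ne_zero
    rw [h1, index_bot] at h2
    exact Nat.finite_of_card_ne_zero h2
  | cons p L ih =>
    intro hL H hH hN hz
    have hL' := List.nodup_cons.1 hL
    have hA := ib_A d hd hexp H hH
    have hle : (⁅H, H⁆ : Subgroup G) ≤ H := by
      rw [commutator_le]
      intro g1 h1 g2 h2
      exact H.mul_mem (H.mul_mem (H.mul_mem h1 h2) (H.inv_mem h1)) (H.inv_mem h2)
    refine ih hL'.2 ⁅H, H⁆ hA (fun q hq => hle.trans (hN q (List.mem_cons_of_mem _ hq))) ?_
    obtain ⟨C, hC, hCL⟩ := ib_E a L hL'.2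
    have hc : (⁅H, H⁆ : Subgroup G) ≤ C := by
      rw [commutator_le]
      intro g1 h1 g2 h2
      have h3 := (ib_cons a p L hL'.1 g1).1 (hz g1 h1)
      exact ib_cls C g1 (a p) (fun y => (hCL _).2 (h3 y)) g2 (hN p List.mem_cons_self h2)
    intro z hzH
    exact (hCL z).1 (hc hzH)

open Subgroup in
theorem ib_zorn {G : Type} [Group G] [Group.FG G] (hinf : Infinite G) :
    ∃ N : Subgroup G, N.Normal ∧ ¬ N.FiniteIndex ∧
      ∀ M : Subgroup G, M.Normal → N ≤ M → M ≠ N → M.FiniteIndex := by
  classical
  have key1 : ∀ c ⊆ {N : Subgroup G | N.Normal ∧ ¬ N.FiniteIndex}, IsChain (· ≤ ·) c → ∀ y ∈ c,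
      ∃ ub ∈ {N : Subgroup G | N.Normal ∧ ¬ N.FiniteIndex}, ∀ z ∈ c, z ≤ ub := by
    intro c hc hchain y hy
    have hne : c.Nonempty := ⟨y, hy⟩
    have hdir : DirectedOn (· ≤ ·) c := hchain.directedOn
    refine ⟨sSup c, ⟨?_, ?_⟩, fun z hz => le_sSup hz⟩
    · constructor
      intro n hn g
      rw [mem_sSup_of_directedOn hne hdir] at hn ⊢
      obtain ⟨s, hs, hns⟩ := hn
      exact ⟨s, hs, (hc hs).1.conj_mem n hns g⟩
    · intro hfi
      have hfg : (sSup c).FG := (Group.fg_iff_subgroup_fg _).1 inferInstance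
      obtain ⟨T, hT⟩ := hfg
      have hfin : ∀ T : Finset G, (∀ t ∈ T, t ∈ sSup c) → ∃ s ∈ c, ∀ t ∈ T, t ∈ s := by
        intro T
        induction T using Finset.induction_on with
        | empty => intro _; exact ⟨y, hy, by simp⟩
        | insert t T _ ih =>
          intro hT
          obtain ⟨s, hs, hsT⟩ := ih fun t' ht' => hT t' (Finset.mem_insert_of_mem ht')
          obtain ⟨s', hs', hts'⟩ := (mem_sSup_of_directedOn hne hdir).1 (hT t (Finset.mem_insert_self _ _))
          obtain ⟨u, hu, hsu, hs'u⟩ := hdir s hs s' hs'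
          refine ⟨u, hu, fun t' ht' => ?_⟩
          rcases Finset.mem_insert.1 ht' with rfl | h
          · exact hs'u hts'
          · exact hsu (hsT t' h)
      obtain ⟨s, hs, hsT⟩ := hfin T fun t ht => by
        rw [← hT]; exact subset_closure ht
      have hle : sSup c ≤ s := by
        rw [← hT, closure_le]; exact fun t ht => hsT t ht
      have heq : sSup c = s := le_antisymm hle (le_sSup hs)
      rw [heq] at hfi
      exact (hc hs).2 hfi
  have key2 : (⊥ : Subgroup G) ∈ {N : Subgroup G | N.Normal ∧ ¬ N.FiniteIndex} := by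
    refine ⟨inferInstance, fun h => ?_⟩
    have h2 := h.index_ne_zero
    rw [index_bot] at h2
    exact h2 (Nat.card_eq_zero_of_infinite)
  obtain ⟨N, _, hN⟩ := zorn_le_nonempty₀ _ key1 ⊥ key2
  refine ⟨N, hN.1.1, hN.1.2, fun M hM hle hne => ?_⟩
  by_contra hcon
  exact hne (le_antisymm (hN.2 ⟨hM, hcon⟩ hle) hle)

theorem ib_foldl {G G' : Type} [Group G] [Group G'] (φ : G →* G') (l : List G) : ∀ z : G,
    φ (l.foldl (fun a b => a * b * a⁻¹ * b⁻¹) z) = (l.map φ).foldl (fun a b => a * b * a⁻¹ * b⁻¹) (φ z) := by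
  induction l with
  | nil => intro z; rfl
  | cons b l ih =>
    intro z
    rw [List.foldl_cons, List.map_cons, List.foldl_cons, ih]
    simp only [map_mul, map_inv]

theorem ib_quot {G : Type} [Group G] (N : ℕ) (C : Subgroup G) [C.Normal] (h : GLaw G N) :
    GLaw (G ⧸ C) N := by
  intro z x y
  obtain ⟨z', rfl⟩ := QuotientGroup.mk'_surjective C z
  have hx : ∀ i, ∃ g, QuotientGroup.mk' C g = x i := fun i => QuotientGroup.mk'_surjective C (x i)
  have hy : ∀ i, ∃ g, QuotientGroup.mk' C g = y i := fun i => QuotientGroup.mk'_surjective C (y i)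
  choose x' hx' using hx
  choose y' hy' using hy
  have h1 := congrArg (QuotientGroup.mk' C) (h z' x' y')
  rw [ib_foldl, map_one, List.map_map] at h1
  rw [← h1]
  congr 1
  refine List.map_congr_left fun p _ => ?_
  simp only [Function.comp, map_mul, map_inv, hx', hy']

/-- a finitely generated group of finite exponent satisfying the iterated commutator law is finite -/
theorem group_finite (G : Type) [Group G] (hfg : Group.FG G) (N d : ℕ) (hd : 1 ≤ d)
    (hexp : ∀ g : G, g ^ d = 1) (hlaw : GLaw G N) : Finite G := by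
  by_contra hfin
  rw [not_finite_iff_infinite] at hfin
  obtain ⟨N0, hN0, hN0i, hmax⟩ := ib_zorn hfin
  have hQi : Infinite (G ⧸ N0) := by
    rw [← not_finite_iff_infinite]
    intro h
    exact hN0i Subgroup.finiteIndex_of_finite_quotient
  have hQfg : Group.FG (G ⧸ N0) := QuotientGroup.fg _
  have hQexp : ∀ g : G ⧸ N0, g ^ d = 1 := by
    intro g
    induction g using QuotientGroup.induction_on with
    | H g =>
      show ((g ^ d : G) : G ⧸ N0) = 1
      rw [hexp]; rfl
  have hQlaw := ib_quot N N0 hlaw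
  let x : Fin (N + 1) → G ⧸ N0 := fun i => Infinite.natEmbedding (G ⧸ N0) i
  have hx : ∀ i j : Fin (N + 1), i < j → x i ≠ x j := by
    intro i j hij h
    have := (Infinite.natEmbedding (G ⧸ N0)).injective h
    have := Fin.ext this
    exact absurd this hij.ne
  let a : Fin (N + 1) × Fin (N + 1) → G ⧸ N0 := fun p => x p.1 * (x p.2)⁻¹
  let L : List (Fin (N + 1) × Fin (N + 1)) :=
    (((List.finRange (N + 1)) ×ˢ (List.finRange (N + 1))).filter (fun p => decide (p.1 < p.2)))
  have hLn : L.Nodup := ((List.nodup_finRange _).product (List.nodup_finRange _)).filter _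
  have hfi : ∀ p ∈ L, (Subgroup.normalClosure {a p}).FiniteIndex := by
    intro p hp
    have hp2 : p.1 < p.2 := by
      have := (List.mem_filter.1 hp).2
      simpa using this
    have ha : a p ≠ 1 := fun h => hx p.1 p.2 hp2 (mul_inv_eq_one.1 h)
    have hM := hmax ((Subgroup.normalClosure {a p}).comap (QuotientGroup.mk' N0)) inferInstance
      (fun g hg => by
        rw [Subgroup.mem_comap]
        have : QuotientGroup.mk' N0 g = 1 := (QuotientGroup.eq_one_iff g).2 hg
        rw [this]; exact Subgroup.one_mem _)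
      (fun h => ha (by
        obtain ⟨g, hg⟩ := QuotientGroup.mk'_surjective N0 (a p)
        have h1 : g ∈ (Subgroup.normalClosure {a p}).comap (QuotientGroup.mk' N0) := by
          rw [Subgroup.mem_comap, hg]; exact Subgroup.subset_normalClosure rfl
        rw [h] at h1
        rw [← hg]
        exact (QuotientGroup.eq_one_iff g).2 h1))
    constructor
    have h2 := hM.index_ne_zero
    rwa [Subgroup.index_comap_of_surjective _ (QuotientGroup.mk'_surjective N0)] at h2
  have hK : (⨅ p ∈ L.toFinset, Subgroup.normalClosure {a p}).FiniteIndex :=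
    Subgroup.finiteIndex_iInf' _ (fun p hp => hfi p (List.mem_toFinset.1 hp))
  have hQf : Finite (G ⧸ N0) := ib_H d hd hQexp a L hLn _ hK
    (fun p hp => iInf₂_le p (List.mem_toFinset.2 hp)) (fun z _ y => hQlaw z x y)
  exact not_finite (G ⧸ N0)

end SJ2
end Pool.Agent.INFB
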