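import Pool.Agent.INFB.Defs

set_option autoImplicit false

namespace Pool.Agent.INFB
namespace SJ3




section J3

lemma J3_zim {N : Type} [Monoid N] {e s u t : N} (he : e * e = e) (hs : s * u * t = e)
    (f : ℕ → N) (h0 : f 0 = u) (hf : ∀ i, f (i + 1) = t * s) (k : ℕ) :
    s * ((Zw (k + 1)).map f).prod * t = e := by
  induction k with
  | zero => simp [Zw, h0, hs]
  | succ k ih =>
    have h1 : ((Zw (k + 1 + 1)).map f).prod =
        ((Zw (k + 1)).map f).prod * (f (k + 1) * ((Zw (k + 1)).map f).prod) := by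
      rw [show Zw (k + 1 + 1) = Zw (k + 1) ++ (k + 1) :: Zw (k + 1) from rfl]
      simp
    rw [h1, hf]
    calc s * (((Zw (k + 1)).map f).prod * (t * s * ((Zw (k + 1)).map f).prod)) * t
        = (s * ((Zw (k + 1)).map f).prod * t) * (s * ((Zw (k + 1)).map f).prod * t) := by
          simp only [mul_assoc]
      _ = e := by rw [ih, he]

variable {d n : ℕ} {A B : List ℕ}

lemma J3_J1 {N : Type} [Monoid N] (hn : 1 ≤ n)
    (h2 : Sat N (Zw n) (A ++ List.replicate (1 + d) 0 ++ B)) {e s u t : N} (he : e * e = e)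
    (hs : s * u * t = e) : ∃ a b, e = a * u ^ (1 + d) * b := by
  obtain ⟨k, rfl⟩ : ∃ k, n = k + 1 := ⟨n - 1, by omega⟩
  let f : ℕ → N := fun i => match i with
    | 0 => u
    | _ + 1 => t * s
  have h := J3_zim he hs f rfl (fun i => rfl) k
  rw [h2 f] at h
  simp only [List.map_append, List.prod_append, List.map_replicate, List.prod_replicate] at h
  have hf0 : f 0 = u := rfl
  rw [hf0] at h
  exact ⟨s * (A.map f).prod, (B.map f).prod * t, by rw [← h]; simp only [mul_assoc]⟩

lemma J3_J2 {N : Type} [Monoid N] (hd : 1 ≤ d) (hn : 1 ≤ n)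
    (h2 : Sat N (Zw n) (A ++ List.replicate (1 + d) 0 ++ B)) {e s u t s' u' t' : N}
    (he : e * e = e) (h : s * u * t = e) (h' : s' * u' * t' = e) :
    ∃ a b, e = a * (u' * u) * b := by
  have hx : s * (u * t * s' * u') * t' = e := by
    calc _ = (s * u * t) * (s' * u' * t') := by simp only [mul_assoc]
      _ = e := by rw [h, h', he]
  obtain ⟨a, b, hab⟩ := J3_J1 hn h2 he hx
  obtain ⟨c, rfl⟩ : ∃ c, d = c + 1 := ⟨d - 1, by omega⟩
  refine ⟨a * u * t * s', t * s' * u' * (u * t * s' * u') ^ c * b, ?_⟩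
  rw [show 1 + (c + 1) = c + 1 + 1 by omega, pow_succ', pow_succ'] at hab
  calc e = _ := hab
    _ = _ := by simp only [mul_assoc]

/-- the minimal ideal -/
def J3K (N : Type) [Monoid N] : Set N := {z | ∀ u, ∃ a b, z = a * u * b}

lemma J3_left {N : Type} [Monoid N] {z : N} (h : z ∈ J3K N) (c : N) : c * z ∈ J3K N := by
  intro u
  obtain ⟨a, b, hab⟩ := h u
  exact ⟨c * a, b, by rw [hab]; simp only [mul_assoc]⟩

lemma J3_right {N : Type} [Monoid N] {z : N} (h : z ∈ J3K N) (c : N) : z * c ∈ J3K N := by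
  intro u
  obtain ⟨a, b, hab⟩ := h u
  exact ⟨a, b * c, by rw [hab]; simp only [mul_assoc]⟩

lemma J3_ker_of {N : Type} [Monoid N] (hd : 1 ≤ d) (hn : 1 ≤ n)
    (h2 : Sat N (Zw n) (A ++ List.replicate (1 + d) 0 ++ B)) {e : N} (he : e * e = e) (X : Set N)
    (hX : Submonoid.closure X = ⊤) (h : ∀ x ∈ X, ∃ a b, e = a * x * b) : e ∈ J3K N := by
  intro u
  have hu : u ∈ Submonoid.closure X := by rw [hX]; trivial
  induction hu using Submonoid.closure_induction with
  | mem x hx => exact h x hx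
  | one => exact ⟨e, 1, by simp⟩
  | mul x y _ _ ihx ihy =>
    obtain ⟨a, b, h1⟩ := ihx
    obtain ⟨a', b', h3⟩ := ihy
    exact J3_J2 hd hn h2 he h3.symm h1.symm

/-- the value of a word -/
def J3v {N : Type} [Monoid N] {X : Set N} (w : List X) : N := (w.map Subtype.val).prod

lemma J3v_append {N : Type} [Monoid N] {X : Set N} (a b : List X) :
    J3v (a ++ b) = J3v a * J3v b := by simp [J3v]

lemma J3v_cons {N : Type} [Monoid N] {X : Set N} (x : X) (b : List X) :
    J3v (x :: b) = (x : N) * J3v b := by simp [J3v]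

lemma J3v_nil {N : Type} [Monoid N] {X : Set N} : J3v ([] : List X) = 1 := by simp [J3v]

lemma J3v_surj {N : Type} [Monoid N] {X : Set N} {u : N} (hu : u ∈ Submonoid.closure X) :
    ∃ w : List X, J3v w = u := by
  induction hu using Submonoid.closure_induction with
  | mem x hx => exact ⟨[⟨x, hx⟩], by simp [J3v]⟩
  | one => exact ⟨[], J3v_nil⟩
  | mul x y _ _ ihx ihy =>
    obtain ⟨a, ha⟩ := ihx
    obtain ⟨b, hb⟩ := ihy
    exact ⟨a ++ b, by rw [J3v_append, ha, hb]⟩

lemma J3_full {N : Type} [Monoid N] (hd : 1 ≤ d) (hn : 1 ≤ n) (hper : ∀ x : N, x ^ d = x ^ (2 * d))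
    (h2 : Sat N (Zw n) (A ++ List.replicate (1 + d) 0 ++ B)) (X : Set N)
    (hX : Submonoid.closure X = ⊤) (w : List X) (hw : ∀ x : X, x ∈ w) :
    (J3v w) ^ (1 + d) ∈ J3K N := by
  have h1 : (J3v w) ^ d ∈ J3K N := by
    apply J3_ker_of hd hn h2 _ X hX
    · intro x hx
      obtain ⟨a, b, hab⟩ := List.append_of_mem (hw ⟨x, hx⟩)
      obtain ⟨c, rfl⟩ : ∃ c, d = c + 1 := ⟨d - 1, by omega⟩
      refine ⟨J3v a, J3v b * (J3v w) ^ c, ?_⟩
      rw [pow_succ']
      have h3 : J3v w = J3v a * (x * J3v b) := by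
        conv_lhs => rw [hab]
        rw [J3v_append, J3v_cons]
      calc J3v w * J3v w ^ c = (J3v a * (x * J3v b)) * J3v w ^ c := by rw [← h3]
        _ = _ := by simp only [mul_assoc]
    · rw [← pow_add, ← two_mul]
      exact (hper _).symm
  rw [pow_add]
  exact J3_left h1 _

lemma J3_zker {N : Type} [Monoid N] {v : N} (hv : v ^ (1 + d) ∈ J3K N)
    (h2 : Sat N (Zw n) (A ++ List.replicate (1 + d) 0 ++ B)) (φ : ℕ → N) (h0 : φ 0 = v) :
    ((Zw n).map φ).prod ∈ J3K N := by
  rw [h2 φ]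
  simp only [List.map_append, List.prod_append, List.map_replicate, List.prod_replicate]
  rw [h0]
  exact J3_right (J3_left hv _) _

/-- geodesic words -/
def J3G {N : Type} [Monoid N] {X : Set N} (w : List X) : Prop :=
  ∀ w' : List X, J3v w' = J3v w → w.length ≤ w'.length

lemma J3G_exists {N : Type} [Monoid N] {X : Set N} (w : List X) :
    ∃ w' : List X, J3v w' = J3v w ∧ J3G w' := by
  classical
  have hex : ∃ k, ∃ w' : List X, J3v w' = J3v w ∧ w'.length = k := ⟨_, w, rfl, rfl⟩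
  obtain ⟨w', h1, h2⟩ := Nat.find_spec hex
  refine ⟨w', h1, ?_⟩
  intro w'' hw''
  rw [h2]
  exact Nat.find_min' hex ⟨w'', by rw [hw'', h1], rfl⟩

lemma J3G_infix {N : Type} [Monoid N] {X : Set N} {a b c : List X} (h : J3G (a ++ b ++ c)) :
    J3G b := by
  intro b' hb'
  have h1 := h (a ++ b' ++ c) (by simp only [J3v_append, hb'])
  simp only [List.length_append] at h1
  omega

lemma J3_content {N : Type} [Monoid N] {X : Set N} {C0 : ℕ}
    (hC0 : ∀ x ∈ X, ∀ s ∈ Submonoid.closure (X \ {x}), ∃ w : List X, J3v w = s ∧ w.length ≤ C0)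
    {w : List X} (hG : J3G w) (hw : C0 < w.length) (x : X) : x ∈ w := by
  by_contra hx
  have h1 : J3v w ∈ Submonoid.closure (X \ {(x : N)}) := by
    apply Submonoid.list_prod_mem
    intro y hy
    obtain ⟨z, hz, rfl⟩ := List.mem_map.1 hy
    apply Submonoid.subset_closure
    refine ⟨z.2, ?_⟩
    intro hzx
    have : z = x := Subtype.ext hzx
    rw [this] at hz
    exact hx hz
  obtain ⟨w', h2, h3⟩ := hC0 x x.2 _ h1
  have := hG w' h2
  omega

lemma J3_blocks {α : Type} (C : ℕ) : ∀ (L : ℕ) (w : List α), w.length = C * L →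
    ∃ W : List (List.Vector α C), W.length = L ∧ W.flatMap List.Vector.toList = w := by
  intro L
  induction L with
  | zero =>
    intro w hw
    have : w = [] := List.eq_nil_of_length_eq_zero (by simpa using hw)
    exact ⟨[], rfl, by simp [this]⟩
  | succ L ih =>
    intro w hw
    have h1 : (w.take C).length = C := by
      rw [List.length_take, hw, Nat.mul_succ]
      omega
    have h2 : (w.drop C).length = C * L := by
      rw [List.length_drop, hw, Nat.mul_succ]
      omega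
    obtain ⟨W, hW1, hW2⟩ := ih (w.drop C) h2
    let v : List.Vector α C := ⟨w.take C, h1⟩
    have hv : v.toList = w.take C := rfl
    refine ⟨v :: W, by simp [hW1], ?_⟩
    rw [List.flatMap_cons, hW2, hv]
    exact List.take_append_drop C w

lemma J3_zero_mem {n : ℕ} (hn : 1 ≤ n) : 0 ∈ Zw n := by
  induction n with
  | zero => omega
  | succ n ih =>
    rcases Nat.eq_zero_or_pos n with rfl | h
    · simp [Zw]
    · rw [Zw]
      exact List.mem_append_left _ (ih h)

lemma J3v_flatMap {N : Type} [Monoid N] {X : Set N} {α : Type} (g : α → List X) (l : List α) :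
    J3v (l.flatMap g) = (l.map (fun a => J3v (g a))).prod := by
  induction l with
  | nil => simp [J3v]
  | cons a l ih => rw [List.flatMap_cons, J3v_append, ih, List.map_cons, List.prod_cons]

/-- the complement of the minimal ideal is finite -/
lemma J3_compl {N : Type} [Monoid N] (hd : 1 ≤ d) (hn : 1 ≤ n)
    (hper : ∀ x : N, x ^ d = x ^ (2 * d))
    (h2 : Sat N (Zw n) (A ++ List.replicate (1 + d) 0 ++ B)) (X : Set N) (hXf : X.Finite)
    (hX : Submonoid.closure X = ⊤)
    (hsub : ∀ x ∈ X, ((Submonoid.closure (X \ {x}) : Submonoid N) : Set N).Finite)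
    (hU : ∀ (m : ℕ) (α : Type) [Finite α],
      ∃ L : ℕ, ∀ w : List α, L ≤ w.length →
        ∃ (A B : List α) (φ : ℕ → List α), (∀ i, φ i ≠ []) ∧ w = A ++ (Zw m).flatMap φ ++ B) :
    ((J3K N)ᶜ).Finite := by
  classical
  have : Finite X := hXf
  have hsurj : ∀ u : N, ∃ w : List X, J3v w = u := fun u =>
    J3v_surj (by rw [hX]; trivial)
  choose wd hwd using hsurj
  have hT : (⋃ x ∈ X, ((Submonoid.closure (X \ {x}) : Submonoid N) : Set N)).Finite :=
    hXf.biUnion hsub
  obtain ⟨C0, hC0⟩ := (hT.image (fun u => (wd u).length)).bddAbove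
  have hC0' : ∀ x ∈ X, ∀ s ∈ Submonoid.closure (X \ {x}),
      ∃ w : List X, J3v w = s ∧ w.length ≤ C0 := by
    intro x hx s hs
    refine ⟨wd s, hwd s, hC0 ⟨s, Set.mem_biUnion hx hs, rfl⟩⟩
  obtain ⟨L, hL⟩ := hU n (List.Vector X (C0 + 1))
  have hlen : ∀ s ∉ J3K N, ∃ w : List X, J3v w = s ∧ w.length < (C0 + 1) * L := by
    intro s hs
    obtain ⟨w, hw1, hw2⟩ := J3G_exists (wd s)
    rw [hwd s] at hw1
    refine ⟨w, hw1, ?_⟩
    by_contra hlt
    push Not at hlt
    apply hs
    obtain ⟨W, hW1, hW2⟩ := J3_blocks (C0 + 1) L (w.take ((C0 + 1) * L)) (by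
      rw [List.length_take]; omega)
    obtain ⟨A', B', φ, hφ, hWeq⟩ := hL W hW1.ge
    have hword : w = W.flatMap List.Vector.toList ++ w.drop ((C0 + 1) * L) := by
      rw [hW2, List.take_append_drop]
    have hmemW : ∀ v ∈ W, ∀ x : X, x ∈ v.toList := by
      intro v hv
      obtain ⟨W1, W2, hW12⟩ := List.append_of_mem hv
      have h3 : w = W1.flatMap List.Vector.toList ++ v.toList ++
          (W2.flatMap List.Vector.toList ++ w.drop ((C0 + 1) * L)) := by
        conv_lhs => rw [hword, hW12]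
        rw [List.flatMap_append, List.flatMap_cons]
        simp only [List.append_assoc]
      rw [h3] at hw2
      exact J3_content hC0' (J3G_infix hw2) (by rw [List.Vector.toList_length]; omega)
    have hfull : ∀ x : X, x ∈ (φ 0).flatMap List.Vector.toList := by
      intro x
      obtain ⟨v, rest, hv⟩ := List.exists_cons_of_ne_nil (hφ 0)
      have hvW : v ∈ W := by
        rw [hWeq]
        apply List.mem_append_left
        apply List.mem_append_right
        rw [List.mem_flatMap]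
        exact ⟨0, J3_zero_mem hn, by rw [hv]; exact List.mem_cons_self⟩
      rw [List.mem_flatMap]
      exact ⟨v, by rw [hv]; exact List.mem_cons_self, hmemW v hvW x⟩
    have hk : ((Zw n).map (fun i => J3v ((φ i).flatMap List.Vector.toList))).prod ∈ J3K N :=
      J3_zker (J3_full hd hn hper h2 X hX _ hfull) h2 _ rfl
    have hval : s = J3v (A'.flatMap List.Vector.toList) *
        ((Zw n).map (fun i => J3v ((φ i).flatMap List.Vector.toList))).prod *
        J3v (B'.flatMap List.Vector.toList) * J3v (w.drop ((C0 + 1) * L)) := by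
      rw [← hw1]
      conv_lhs => rw [hword]
      rw [J3v_append]
      congr 1
      rw [hWeq, List.flatMap_append, List.flatMap_append, J3v_append, J3v_append,
        List.flatMap_assoc, J3v_flatMap (fun x => List.flatMap List.Vector.toList (φ x)) (Zw n)]
    rw [hval]
    exact J3_right (J3_right (J3_left hk _) _) _
  have hfin : {w : List X | w.length < (C0 + 1) * L}.Finite := List.finite_length_lt X _
  refine (hfin.image J3v).subset ?_
  intro s hs
  obtain ⟨w, h1, h3⟩ := hlen s hs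
  exact ⟨w, h3, h1⟩


/-! ### the kernel is finite -/

lemma J3_reg {N : Type} [Monoid N] (hd : 1 ≤ d) (hper : ∀ x : N, x ^ d = x ^ (2 * d)) {p : N}
    (hp : p ∈ J3K N) : p * p ^ d = p ∧ p ^ d * p = p := by
  obtain ⟨a, b, hab⟩ := hp (p * p)
  have h1 : ∀ k, p = a ^ k * p * (p * b) ^ k := by
    intro k
    induction k with
    | zero => simp
    | succ k ih =>
      have h2 : a * p * (p * b) = p := by
        calc a * p * (p * b) = a * (p * p) * b := by simp only [mul_assoc]
          _ = p := hab.symm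
      calc p = a ^ k * p * (p * b) ^ k := ih
        _ = a ^ k * (a * p * (p * b)) * (p * b) ^ k := by rw [h2]
        _ = a ^ (k + 1) * p * (p * b) ^ (k + 1) := by
          rw [pow_succ, pow_succ']
          simp only [mul_assoc]
  have h2 := h1 d
  have h3 : a ^ d * p = p := by
    calc a ^ d * p = a ^ d * (a ^ d * p * (p * b) ^ d) := by rw [← h2]
      _ = a ^ (2 * d) * p * (p * b) ^ d := by rw [two_mul, pow_add]; simp only [mul_assoc]
      _ = p := by rw [← hper a, ← h2]
  have h4 : p = p * (p * b) ^ d := by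
    calc p = a ^ d * p * (p * b) ^ d := h2
      _ = p * (p * b) ^ d := by rw [h3]
  obtain ⟨c, rfl⟩ : ∃ c, d = c + 1 := ⟨d - 1, by omega⟩
  set w := b * (p * b) ^ c with hw
  have h5 : p = p * p * w := by
    calc p = p * (p * b) ^ (c + 1) := h4
      _ = p * p * w := by rw [pow_succ', hw]; simp only [mul_assoc]
  have h6 : ∀ k, p = p ^ (k + 1) * w ^ k := by
    intro k
    induction k with
    | zero => simp
    | succ k ih =>
      calc p = p ^ (k + 1) * w ^ k := ih
        _ = p ^ k * p * w ^ k := by rw [pow_succ]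
        _ = p ^ k * (p * p * w) * w ^ k := by rw [← h5]
        _ = p ^ (k + 1 + 1) * w ^ (k + 1) := by
          rw [pow_succ p (k + 1), pow_succ p k, pow_succ' w k]
          simp only [mul_assoc]
  have h7 := h6 (c + 1)
  have h8 : p ^ (c + 1) * p = p := by
    calc p ^ (c + 1) * p = p ^ (c + 1) * (p ^ (c + 1 + 1) * w ^ (c + 1)) := by rw [← h7]
      _ = p ^ (c + 1) * (p ^ (c + 1) * p * w ^ (c + 1)) := by rw [← pow_succ]
      _ = (p ^ (c + 1) * p ^ (c + 1)) * p * w ^ (c + 1) := by simp only [mul_assoc]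
      _ = p ^ (c + 1) * p * w ^ (c + 1) := by rw [← pow_add, ← two_mul, ← hper]
      _ = p := by rw [← pow_succ, ← h7]
  refine ⟨?_, h8⟩
  rw [← pow_succ', pow_succ]
  exact h8

lemma J3_pow_mem {N : Type} [Monoid N] (hd : 1 ≤ d) {p : N} (hp : p ∈ J3K N) : p ^ d ∈ J3K N := by
  obtain ⟨c, rfl⟩ : ∃ c, d = c + 1 := ⟨d - 1, by omega⟩
  rw [pow_succ]
  exact J3_left hp _

/-- right identities -/
lemma J3_right_id {N : Type} [Monoid N] (hd : 1 ≤ d) (hper : ∀ x : N, x ^ d = x ^ (2 * d))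
    (X : Set N) (hXf : X.Finite) (hX : Submonoid.closure X = ⊤) (hK : ((J3K N)ᶜ).Finite) :
    ∃ E : Set N, E.Finite ∧ (∀ q ∈ E, q ∈ J3K N ∧ q * q = q) ∧
      ∀ z ∈ J3K N, ∃ q ∈ E, z * q = z := by
  refine ⟨{q | q ∈ J3K N ∧ q * q = q ∧ (q = 1 ∨ ∃ x ∈ X, ∃ y ∉ J3K N, q = (x * y) ^ d)}, ?_,
    fun q hq => ⟨hq.1, hq.2.1⟩, ?_⟩
  · refine ((Set.finite_singleton (1 : N)).union
      (Set.Finite.image2 (fun x y => (x * y) ^ d) hXf hK)).subset ?_
    rintro q ⟨_, _, h | ⟨x, hx, y, hy, h⟩⟩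
    · exact Or.inl h
    · exact Or.inr ⟨x, hx, y, hy, h.symm⟩
  · have key : ∀ w : List X, J3v w ∈ J3K N → ∃ q ∈ {q | q ∈ J3K N ∧ q * q = q ∧
        (q = 1 ∨ ∃ x ∈ X, ∃ y ∉ J3K N, q = (x * y) ^ d)}, J3v w * q = J3v w := by
      intro w
      induction w with
      | nil =>
        intro h
        rw [J3v_nil] at h ⊢
        exact ⟨1, ⟨h, one_mul 1, Or.inl rfl⟩, mul_one 1⟩
      | cons x w ih =>
        intro h
        by_cases hw : J3v w ∈ J3K N
        · obtain ⟨q, hq, hq'⟩ := ih hw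
          exact ⟨q, hq, by rw [J3v_cons, mul_assoc, hq']⟩
        · refine ⟨(J3v (x :: w)) ^ d, ⟨J3_pow_mem hd h, ?_, Or.inr ⟨x, x.2, J3v w, hw, ?_⟩⟩,
            (J3_reg hd hper h).1⟩
          · rw [← pow_add, ← two_mul]
            exact (hper _).symm
          · rw [J3v_cons]
    intro z hz
    obtain ⟨w, rfl⟩ := J3v_surj (X := X) (u := z) (by rw [hX]; trivial)
    exact key w hz

/-- left identities -/
lemma J3_left_id {N : Type} [Monoid N] (hd : 1 ≤ d) (hper : ∀ x : N, x ^ d = x ^ (2 * d))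
    (X : Set N) (hXf : X.Finite) (hX : Submonoid.closure X = ⊤) (hK : ((J3K N)ᶜ).Finite) :
    ∃ E : Set N, E.Finite ∧ (∀ q ∈ E, q ∈ J3K N ∧ q * q = q) ∧
      ∀ z ∈ J3K N, ∃ q ∈ E, q * z = z := by
  refine ⟨{q | q ∈ J3K N ∧ q * q = q ∧ (q = 1 ∨ ∃ x ∈ X, ∃ y ∉ J3K N, q = (y * x) ^ d)}, ?_,
    fun q hq => ⟨hq.1, hq.2.1⟩, ?_⟩
  · refine ((Set.finite_singleton (1 : N)).union
      (Set.Finite.image2 (fun x y => (y * x) ^ d) hXf hK)).subset ?_
    rintro q ⟨_, _, h | ⟨x, hx, y, hy, h⟩⟩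
    · exact Or.inl h
    · exact Or.inr ⟨x, hx, y, hy, h.symm⟩
  · have key : ∀ w : List X, J3v w ∈ J3K N → ∃ q ∈ {q | q ∈ J3K N ∧ q * q = q ∧
        (q = 1 ∨ ∃ x ∈ X, ∃ y ∉ J3K N, q = (y * x) ^ d)}, q * J3v w = J3v w := by
      intro w
      induction w using List.reverseRecOn with
      | nil =>
        intro h
        rw [J3v_nil] at h ⊢
        exact ⟨1, ⟨h, one_mul 1, Or.inl rfl⟩, mul_one 1⟩
      | append_singleton w x ih =>
        intro h
        by_cases hw : J3v w ∈ J3K N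
        · obtain ⟨q, hq, hq'⟩ := ih hw
          exact ⟨q, hq, by rw [J3v_append, ← mul_assoc, hq']⟩
        · refine ⟨(J3v (w ++ [x])) ^ d, ⟨J3_pow_mem hd h, ?_, Or.inr ⟨x, x.2, J3v w, hw, ?_⟩⟩,
            (J3_reg hd hper h).2⟩
          · rw [← pow_add, ← two_mul]
            exact (hper _).symm
          · rw [J3v_append]
            simp [J3v]
    intro z hz
    obtain ⟨w, rfl⟩ := J3v_surj (X := X) (u := z) (by rw [hX]; trivial)
    exact key w hz

/-- the local monoid -/
def J3C {N : Type} [Monoid N] (e : N) : Type := {x : N // e * x = x ∧ x * e = x}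

/-- its structure -/
@[reducible] def J3CM {N : Type} [Monoid N] (e : N) (he : e * e = e) : Monoid (J3C e) where
  mul x y := ⟨x.1 * y.1, by rw [← mul_assoc, x.2.1], by rw [mul_assoc, y.2.2]⟩
  mul_assoc x y z := Subtype.ext (mul_assoc _ _ _)
  one := ⟨e, he, he⟩
  one_mul x := Subtype.ext x.2.1
  mul_one x := Subtype.ext x.2.2

lemma J3_onesided {M : Type} [Monoid M] (hper : ∀ x : M, x ^ d = x ^ (2 * d)) {x y : M}
    (h : x * y = 1) : x ^ d = 1 ∧ y ^ d = 1 := by
  have h1 : x ^ d * y ^ d = 1 := pow_mul_pow_eq_one d h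
  constructor
  · calc x ^ d = x ^ d * (x ^ d * y ^ d) := by rw [h1, mul_one]
      _ = x ^ (2 * d) * y ^ d := by rw [two_mul, pow_add, mul_assoc]
      _ = 1 := by rw [← hper, h1]
  · calc y ^ d = (x ^ d * y ^ d) * y ^ d := by rw [h1, one_mul]
      _ = x ^ d * y ^ (2 * d) := by rw [two_mul, pow_add, mul_assoc]
      _ = 1 := by rw [← hper, h1]

lemma J3_unit {M : Type} [Monoid M] (hd : 1 ≤ d) (hper : ∀ x : M, x ^ d = x ^ (2 * d))
    {p z q : M} (h : p * z * q = 1) : z ^ d = 1 := by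
  have h1 : p ^ d = 1 := (J3_onesided hper (x := p) (y := z * q) (by rw [← mul_assoc, h])).1
  have h2 : z * (q * p) = 1 := by
    obtain ⟨c, rfl⟩ : ∃ c, d = c + 1 := ⟨d - 1, by omega⟩
    calc z * (q * p) = p ^ (c + 1) * (z * (q * p)) := by rw [h1, one_mul]
      _ = p ^ c * (p * z * q) * p := by rw [pow_succ]; simp only [mul_assoc]
      _ = 1 := by rw [h, mul_one, ← pow_succ, h1]
  exact (J3_onesided hper h2).1

section
variable (F : Set (List ℕ × List ℕ))

lemma J3_sub_sat {N : Type} [Monoid N] (hF : ∀ p ∈ F, Sat N p.1 p.2) (S : Submonoid N) :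
    ∀ p ∈ F, Sat S p.1 p.2 := by
  intro p hp f
  apply Subtype.ext
  have h := hF p hp (fun i => (f i : N))
  rw [Submonoid.coe_list_prod, Submonoid.coe_list_prod, List.map_map, List.map_map]
  exact h

lemma J3_corner_sat {N : Type} [Monoid N] (hF : ∀ p ∈ F, Sat N p.1 p.2) (e : N)
    (he : e * e = e) : ∀ p ∈ F, @Sat (J3C e) (J3CM e he) p.1 p.2 := by
  letI := J3CM e he
  intro p hp f
  have h0 : ∀ l : List ℕ, (l.map f).prod.1 = e * (l.map (fun i => (f i).1)).prod := by
    intro l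
    induction l with
    | nil =>
      simp only [List.map_nil, List.prod_nil, mul_one]
      rfl
    | cons a l ih =>
      rw [List.map_cons, List.prod_cons, List.map_cons, List.prod_cons]
      have h1 : (f a * (l.map f).prod).1 = (f a).1 * (l.map f).prod.1 := rfl
      rw [h1, ih, ← mul_assoc, (f a).2.2, ← mul_assoc, (f a).2.1]
  apply Subtype.ext
  rw [h0, h0, hF p hp]

end

/-- finiteness of `e N` -/
lemma J3_eN (F : Set (List ℕ × List ℕ)) (hd : 1 ≤ d)
    (h1 : ∀ (N : Type) [Monoid N], (∀ p ∈ F, Sat N p.1 p.2) → ∀ x : N, x ^ d = x ^ (2 * d))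
    (hG : ∀ (G : Type) [Group G], (∀ p ∈ F, Sat G p.1 p.2) → Group.FG G → Finite G)
    {N : Type} [Monoid N] (hF : ∀ p ∈ F, Sat N p.1 p.2)
    (X : Set N) (hXf : X.Finite) (hX : Submonoid.closure X = ⊤) (e : N) (heK : e ∈ J3K N)
    (he : e * e = e) (E : Set N) (hE : E.Finite) (hE1 : ∀ q ∈ E, q ∈ J3K N ∧ q * q = q)
    (hE2 : ∀ z ∈ J3K N, ∃ q ∈ E, z * q = z) : {y : N | ∃ u, y = e * u}.Finite := by
  classical
  letI : Monoid (J3C e) := J3CM e he
  have hcs : ∀ p ∈ F, Sat (J3C e) p.1 p.2 := J3_corner_sat F hF e he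
  have hcper : ∀ x : J3C e, x ^ d = x ^ (2 * d) := h1 _ hcs
  have hone : ((1 : J3C e)).1 = e := rfl
  have hmul : ∀ x y : J3C e, (x * y).1 = x.1 * y.1 := fun _ _ => rfl
  have hcd : ∀ z : J3C e, z ^ d = 1 := by
    intro z
    obtain ⟨a, b, hab⟩ := heK z.1
    let p : J3C e := ⟨e * a * e, by simp only [← mul_assoc, he], by simp only [mul_assoc, he]⟩
    let q : J3C e := ⟨e * b * e, by simp only [← mul_assoc, he], by simp only [mul_assoc, he]⟩
    refine J3_unit hd hcper (p := p) (z := z) (q := q) ?_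
    apply Subtype.ext
    rw [hmul, hmul, hone]
    have h3 : e * a * e * z.1 * (e * b * e) = e * (a * (e * z.1 * e) * b) * e := by
      simp only [mul_assoc]
    have h4 : e * z.1 * e = z.1 := by rw [z.2.1, z.2.2]
    calc p.1 * z.1 * q.1 = e * a * e * z.1 * (e * b * e) := rfl
      _ = e * (a * (e * z.1 * e) * b) * e := h3
      _ = e * e * e := by rw [h4, ← hab]
      _ = e := by rw [he, he]
  -- the connecting elements
  have hst : ∀ q ∈ E, ∃ σ τ : N, σ * e = σ ∧ q * σ = σ ∧ e * τ = τ ∧ τ * q = τ ∧ σ * τ = q := by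
    intro q hq
    obtain ⟨hqK, hqq⟩ := hE1 q hq
    obtain ⟨a, b, hab⟩ := hqK e
    refine ⟨q * a * e, e * b * q, ?_, ?_, ?_, ?_, ?_⟩
    · rw [mul_assoc, he]
    · rw [← mul_assoc, ← mul_assoc, hqq]
    · rw [← mul_assoc, ← mul_assoc, he]
    · rw [mul_assoc, hqq]
    · calc q * a * e * (e * b * q) = q * (a * (e * e) * b) * q := by simp only [mul_assoc]
        _ = q := by rw [he, ← hab, hqq, hqq]
  choose! σ τ hs1 hs2 ht1 ht2 hst using hst
  let S : Set (J3C e) := {c | (∃ q ∈ E, ∃ x ∈ X, ∃ r ∈ E, c.1 = τ q * x * σ r) ∨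
    ∃ q ∈ E, c.1 = e * σ q}
  have hSf : S.Finite := by
    have h3 : (Set.image2 (fun (y : N × N) (r : N) => τ y.1 * y.2 * σ r) (E ×ˢ X) E ∪
        (fun q => e * σ q) '' E).Finite :=
      (Set.Finite.image2 _ (hE.prod hXf) hE).union (hE.image _)
    refine (h3.preimage (f := fun c : J3C e => c.1) (Subtype.val_injective.injOn)).subset ?_
    rintro c (⟨q, hq, x, hx, r, hr, h⟩ | ⟨q, hq, h⟩)
    · exact Or.inl ⟨(q, x), ⟨hq, hx⟩, r, hr, h.symm⟩
    · exact Or.inr ⟨q, hq, h.symm⟩
  let H : Submonoid (J3C e) := Submonoid.closure S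
  have hHs : ∀ p ∈ F, Sat H p.1 p.2 := J3_sub_sat F hcs H
  have hHfin : Finite H := by
    letI : Group H :=
      { (inferInstance : Monoid H) with
        inv := fun x => x ^ (d - 1)
        inv_mul_cancel := fun x => by
          have h4 : x ^ (d - 1) * x = x ^ d := by
            rw [← pow_succ]
            congr 1
            omega
          have h5 : x ^ d = 1 := by
            apply Subtype.ext
            rw [SubmonoidClass.coe_pow]
            exact hcd _
          exact h4.trans h5 }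
    refine hG H hHs ?_
    rw [Group.fg_iff_monoid_fg, Monoid.fg_iff_submonoid_fg, Submonoid.fg_iff]
    exact ⟨S, rfl, hSf⟩
  have key : ∀ w : List X, ∃ h ∈ H, ∃ q ∈ E, e * J3v w = h.1 * τ q := by
    intro w
    induction w using List.reverseRecOn with
    | nil =>
      obtain ⟨q, hq, hq'⟩ := hE2 e heK
      refine ⟨⟨e * σ q, by rw [← mul_assoc, he], by rw [mul_assoc, hs1 q hq]⟩,
        Submonoid.subset_closure (Or.inr ⟨q, hq, rfl⟩), q, hq, ?_⟩
      rw [J3v_nil, mul_one, mul_assoc, hst q hq, hq']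
    | append_singleton w x ih =>
      obtain ⟨h, hh, q, hq, hhq⟩ := ih
      have h5 : e * J3v (w ++ [x]) = h.1 * τ q * x := by
        rw [J3v_append, ← mul_assoc, hhq]
        simp [J3v]
      have h6 : h.1 * τ q * x ∈ J3K N := by
        rw [← h5]
        exact J3_right heK _
      obtain ⟨r, hr, hr'⟩ := hE2 _ h6
      let g : J3C e := ⟨τ q * x * σ r, by rw [← mul_assoc, ← mul_assoc, ht1 q hq],
        by rw [mul_assoc, hs1 r hr]⟩
      refine ⟨h * g, H.mul_mem hh (Submonoid.subset_closure (Or.inl ⟨q, hq, x, x.2, r, hr, rfl⟩)),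
        r, hr, ?_⟩
      rw [h5, hmul, ← hr']
      calc h.1 * τ q * x * r = h.1 * τ q * x * (σ r * τ r) := by rw [hst r hr]
        _ = h.1 * (τ q * x * σ r) * τ r := by simp only [mul_assoc]
  have hHf : (H : Set (J3C e)).Finite := hHfin
  refine (Set.Finite.image2 (fun (h : J3C e) (q : N) => h.1 * τ q) hHf hE).subset ?_
  rintro y ⟨u, rfl⟩
  obtain ⟨w, rfl⟩ := J3v_surj (X := X) (u := u) (by rw [hX]; trivial)
  obtain ⟨h, hh, q, hq, hhq⟩ := key w
  exact ⟨h, hh, q, hq, hhq.symm⟩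

/-- the inductive step -/
lemma J3_step (F : Set (List ℕ × List ℕ)) (hd : 1 ≤ d) (hn : 1 ≤ n)
    (h1 : ∀ (N : Type) [Monoid N], (∀ p ∈ F, Sat N p.1 p.2) → ∀ x : N, x ^ d = x ^ (2 * d))
    (h2 : ∀ (N : Type) [Monoid N], (∀ p ∈ F, Sat N p.1 p.2) →
      Sat N (Zw n) (A ++ List.replicate (1 + d) 0 ++ B))
    (hG : ∀ (G : Type) [Group G], (∀ p ∈ F, Sat G p.1 p.2) → Group.FG G → Finite G)
    (hU : ∀ (m : ℕ) (α : Type) [Finite α],
      ∃ L : ℕ, ∀ w : List α, L ≤ w.length →
        ∃ (A B : List α) (φ : ℕ → List α), (∀ i, φ i ≠ []) ∧ w = A ++ (Zw m).flatMap φ ++ B)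
    {N : Type} [Monoid N] (hF : ∀ p ∈ F, Sat N p.1 p.2)
    (X : Set N) (hXf : X.Finite) (hX : Submonoid.closure X = ⊤)
    (hsub : ∀ x ∈ X, ((Submonoid.closure (X \ {x}) : Submonoid N) : Set N).Finite) :
    Finite N := by
  have hper := h1 N hF
  have hc := J3_compl hd hn hper (h2 N hF) X hXf hX hsub hU
  obtain ⟨E, hE, hE1, hE2⟩ := J3_right_id hd hper X hXf hX hc
  obtain ⟨D, hD, hD1, hD2⟩ := J3_left_id hd hper X hXf hX hc
  have hK : (J3K N).Finite := by
    have h3 : (⋃ e ∈ D, {y : N | ∃ u, y = e * u}).Finite :=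
      hD.biUnion fun e he => J3_eN F hd h1 hG hF X hXf hX e (hD1 e he).1 (hD1 e he).2 E hE hE1 hE2
    refine h3.subset ?_
    intro z hz
    obtain ⟨q, hq, hq'⟩ := hD2 z hz
    exact Set.mem_biUnion hq ⟨z, hq'.symm⟩
  have hall : (Set.univ : Set N).Finite := by
    rw [← Set.union_compl_self (J3K N)]
    exact hK.union hc
  exact Set.finite_univ_iff.1 hall

end J3

/-- local finiteness of the variety -/
theorem locally_finite (F : Set (List ℕ × List ℕ)) (d n : ℕ) (hd : 1 ≤ d) (hn : 1 ≤ n)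
    (A B : List ℕ)
    (h1 : ∀ (N : Type) [Monoid N], (∀ p ∈ F, Sat N p.1 p.2) → ∀ x : N, x ^ d = x ^ (2 * d))
    (h2 : ∀ (N : Type) [Monoid N], (∀ p ∈ F, Sat N p.1 p.2) →
      Sat N (Zw n) (A ++ List.replicate (1 + d) 0 ++ B))
    (hG : ∀ (G : Type) [Group G], (∀ p ∈ F, Sat G p.1 p.2) → Group.FG G → Finite G)
    (hU : ∀ (m : ℕ) (α : Type) [Finite α],
      ∃ L : ℕ, ∀ w : List α, L ≤ w.length →
        ∃ (A B : List α) (φ : ℕ → List α), (∀ i, φ i ≠ []) ∧ w = A ++ (Zw m).flatMap φ ++ B) :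
    ∀ (N : Type) [Monoid N], (∀ p ∈ F, Sat N p.1 p.2) → Monoid.FG N → Finite N := by
  have main : ∀ k : ℕ, ∀ (N : Type) [Monoid N], (∀ p ∈ F, Sat N p.1 p.2) → ∀ X : Set N,
      X.Finite → X.ncard ≤ k → Submonoid.closure X = ⊤ → Finite N := by
    intro k
    induction k with
    | zero =>
      intro N _ hF X hXf hXc hX
      refine J3_step F hd hn h1 h2 hG hU hF X hXf hX ?_
      intro x hx
      have : X = ∅ := (Set.ncard_eq_zero hXf).1 (Nat.le_zero.1 hXc)
      rw [this] at hx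
      exact absurd hx (Set.notMem_empty x)
    | succ k ih =>
      intro N _ hF X hXf hXc hX
      refine J3_step F hd hn h1 h2 hG hU hF X hXf hX ?_
      intro x hx
      have hY : (X \ {x}).Finite := hXf.subset Set.sdiff_subset
      have h3 : (X \ {x}).ncard ≤ k := by
        have := Set.ncard_sdiff_singleton_lt_of_mem hx hXf
        omega
      have h4 : Finite (Submonoid.closure (X \ {x}) : Submonoid N) := by
        refine ih _ (J3_sub_sat F hF _) ((fun y : (Submonoid.closure (X \ {x}) : Submonoid N) =>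
          (y : N)) ⁻¹' (X \ {x})) (hY.preimage Subtype.val_injective.injOn) ?_
          Submonoid.closure_closure_coe_preimage
        refine le_trans ?_ h3
        exact Set.ncard_le_ncard_of_injOn (fun y => (y : N)) (fun y hy => hy)
          Subtype.val_injective.injOn hY
      exact h4
  intro N _ hF hfg
  obtain ⟨X, hX, hXf⟩ := (Submonoid.fg_iff _).1 (Monoid.fg_def.1 hfg)
  exact main X.ncard N hF X hXf le_rfl hX

end SJ3
end Pool.Agent.INFB
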