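import Pool.Agent.INFB.Defs

set_option autoImplicit false

namespace Pool.Agent.INFB
namespace SJ4




/-! ### auxiliary lemmas -/

/-- the local monoid `e M e` -/
@[ext] structure Loc {M : Type} [Monoid M] (e : M) (he : e * e = e) where
  val : M
  l : e * val = val
  r : val * e = val

section loc

variable {M : Type} [Monoid M] {e : M} {he : e * e = e}

instance : Monoid (Loc e he) where
  mul x y := ⟨x.val * y.val, by rw [← mul_assoc, x.l], by rw [mul_assoc, y.r]⟩
  one := ⟨e, he, he⟩
  mul_assoc x y z := Loc.ext (mul_assoc _ _ _)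
  one_mul x := Loc.ext x.l
  mul_one x := Loc.ext x.r

theorem Loc.mul_val (x y : Loc e he) : (x * y).val = x.val * y.val := rfl
theorem Loc.one_val : (1 : Loc e he).val = e := rfl

instance [Finite M] : Finite (Loc e he) :=
  Finite.of_injective (fun x : Loc e he => x.val) (fun _ _ h => Loc.ext h)

theorem un_iff (x : M) : Un e x ↔ ∃ v : (Loc e he)ˣ, (v : Loc e he).val = x := by
  constructor
  · rintro ⟨h1, h2, y, h3, h4, h5, h6⟩
    exact ⟨⟨⟨x, h1, h2⟩, ⟨y, h3, h4⟩, Loc.ext h5, Loc.ext h6⟩, rfl⟩
  · rintro ⟨v, rfl⟩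
    exact ⟨v.val.l, v.val.r, v.inv.val, v.inv.l, v.inv.r, congrArg Loc.val v.val_inv,
      congrArg Loc.val v.inv_val⟩

theorem zt_of_mem : ∀ (k : ℕ) (v : (Loc e he)ˣ), v ∈ Subgroup.upperCentralSeries (Loc e he)ˣ k →
    Zt e k (v : Loc e he).val := by
  intro k
  induction k with
  | zero =>
    intro v hv
    rw [Subgroup.upperCentralSeries_zero, Subgroup.mem_bot] at hv
    rw [hv]
    rfl
  | succ k ih =>
    intro v hv
    refine ⟨(un_iff (he := he) _).2 ⟨v, rfl⟩, ?_⟩
    intro g hg
    obtain ⟨w, rfl⟩ := (un_iff (he := he) g).1 hg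
    have h1 := Subgroup.mem_upperCentralSeries_succ_iff.1 hv w
    refine ⟨_, ih _ h1, ?_⟩
    have h2 : v * w = (v * w * v⁻¹ * w⁻¹) * w * v := by group
    rw [← commutatorElement_def] at h2
    exact congrArg (fun z : (Loc e he)ˣ => (z : Loc e he).val) h2

end loc

/-- values of Zimin words with constants in between -/
def Ev {N : Type} [Monoid N] (h g : ℕ → N) : ℕ → ℕ → N
  | 0, o => h o
  | m + 1, o => Ev h g m o * g m * Ev h g m (o + 2 ^ m)

theorem Ev_congr {N : Type} [Monoid N] {h g h' g' : ℕ → N} : ∀ (m o : ℕ),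
    (∀ i < m, g i = g' i) → (∀ i, o ≤ i → i < o + 2 ^ m → h i = h' i) →
    Ev h g m o = Ev h' g' m o := by
  intro m
  induction m with
  | zero =>
    intro o _ h2
    exact h2 o le_rfl (by norm_num)
  | succ m ih =>
    intro o h1 h2
    have hp : 2 ^ (m + 1) = 2 ^ m + 2 ^ m := by rw [pow_succ]; ring
    simp only [Ev]
    rw [ih o (fun i hi => h1 i (by omega)) (fun i hi hi' => h2 i hi (by omega)),
      ih (o + 2 ^ m) (fun i hi => h1 i (by omega)) (fun i hi hi' => h2 i (by omega) (by omega)),
      h1 m (by omega)]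

theorem Ev_one {N : Type} [Monoid N] {g : ℕ → N} : ∀ (m o : ℕ),
    Ev (fun _ => 1) g m o = Ev (fun _ => 1) g m 0 := by
  intro m
  induction m with
  | zero => intro o; rfl
  | succ m ih =>
    intro o
    simp only [Ev]
    rw [ih o, ih (o + 2 ^ m), ih (0 + 2 ^ m)]

theorem Ev_units {N : Type} [Monoid N] (h g : ℕ → Nˣ) : ∀ (m o : ℕ),
    ((Ev h g m o : Nˣ) : N) = Ev (fun i => (h i : N)) (fun i => (g i : N)) m o := by
  intro m
  induction m with
  | zero => intro o; rfl
  | succ m ih =>
    intro o
    simp only [Ev, Units.val_mul]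
    rw [ih o, ih (o + 2 ^ m)]

theorem isUnit_factors {N : Type} [Monoid N] [IsDedekindFiniteMonoid N] {x y : N}
    (h : IsUnit (x * y)) : IsUnit x ∧ IsUnit y := by
  obtain ⟨w, hw⟩ := h
  have h1 : x * (y * (w⁻¹ : Nˣ)) = 1 := by
    rw [← mul_assoc, ← hw, Units.mul_inv]
  have h2 : ((w⁻¹ : Nˣ) : N) * x * y = 1 := by
    rw [mul_assoc, ← hw, Units.inv_mul]
  exact ⟨IsUnit.of_mul_eq_one _ h1, IsUnit.of_mul_eq_one_right _ h2⟩

theorem Ev_isUnit {N : Type} [Monoid N] [IsDedekindFiniteMonoid N] (h g : ℕ → N) : ∀ (m o : ℕ),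
    IsUnit (Ev h g m o) → ∀ i, o ≤ i → i < o + 2 ^ m → IsUnit (h i) := by
  intro m
  induction m with
  | zero =>
    intro o hu i hi hi'
    have : i = o := by
      rw [pow_zero] at hi'; omega
    rw [this]; exact hu
  | succ m ih =>
    intro o hu i hi hi'
    have hp : 2 ^ (m + 1) = 2 ^ m + 2 ^ m := by rw [pow_succ]; ring
    simp only [Ev] at hu
    obtain ⟨h1, h2⟩ := isUnit_factors hu
    obtain ⟨h3, _⟩ := isUnit_factors h1
    by_cases hc : i < o + 2 ^ m
    · exact ih o h3 i hi hc
    · exact ih (o + 2 ^ m) h2 i (by omega) (by omega)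

/-- the key lemma in groups -/
theorem lemmaH {G : Type} [Group G] (c : ℕ → G) : ∀ (m k o : ℕ),
    (∀ g : ℕ → G, (Ev (fun _ => 1) g m 0)⁻¹ * Ev c g m o ∈ Subgroup.upperCentralSeries G k) →
    ∀ i, o ≤ i → i < o + 2 ^ m → c i ∈ Subgroup.upperCentralSeries G (k + m) := by
  intro m
  induction m with
  | zero =>
    intro k o h i hi hi'
    have : i = o := by
      rw [pow_zero] at hi'; omega
    have h1 := h (fun _ => 1)
    simp only [Ev, inv_one, one_mul] at h1
    rw [this]; exact h1
  | succ m ih =>
    intro k o h i hi hi'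
    have hp : 2 ^ (m + 1) = 2 ^ m + 2 ^ m := by rw [pow_succ]; ring
    have key : ∀ g : ℕ → G,
        ((Ev (fun _ => 1) g m 0)⁻¹ * Ev c g m o ∈ Subgroup.upperCentralSeries G (k + 1)) ∧
        ((Ev (fun _ => 1) g m 0)⁻¹ * Ev c g m (o + 2 ^ m) ∈
          Subgroup.upperCentralSeries G (k + 1)) := by
      intro g
      obtain ⟨A, hA⟩ : ∃ A, A = Ev (fun _ => (1 : G)) g m 0 := ⟨_, rfl⟩
      obtain ⟨B, hB⟩ : ∃ B, B = Ev c g m o := ⟨_, rfl⟩
      obtain ⟨C, hC⟩ : ∃ C, C = Ev c g m (o + 2 ^ m) := ⟨_, rfl⟩
      rw [← hA, ← hB, ← hC]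
      have hz : ∀ z : G, (A * z * A)⁻¹ * (B * z * C) ∈ Subgroup.upperCentralSeries G k := by
        intro z
        have h1 := h (Function.update g m z)
        have e1 : Ev (fun _ => (1 : G)) (Function.update g m z) m 0 = A := by
          rw [hA]
          exact Ev_congr m 0 (fun i hi => Function.update_of_ne (by omega) _ _)
            (fun _ _ _ => rfl)
        have e2 : Ev c (Function.update g m z) m o = B := by
          rw [hB]
          exact Ev_congr m o (fun i hi => Function.update_of_ne (by omega) _ _)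
            (fun _ _ _ => rfl)
        have e3 : Ev c (Function.update g m z) m (o + 2 ^ m) = C := by
          rw [hC]
          exact Ev_congr m _ (fun i hi => Function.update_of_ne (by omega) _ _)
            (fun _ _ _ => rfl)
        simp only [Ev] at h1
        rw [Ev_one m (0 + 2 ^ m), e1, e2, e3, Function.update_self] at h1
        exact h1
      -- work in the quotient
      obtain ⟨Z, hZ⟩ : ∃ Z : Subgroup G, Z = Subgroup.upperCentralSeries G k := ⟨_, rfl⟩
      have hZn : Z.Normal := by rw [hZ]; infer_instance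
      have hq : ∀ z : G, (A : G ⧸ Z) * z * A = (B : G ⧸ Z) * z * C := by
        intro z
        have h1 := hz z
        rw [← hZ] at h1
        have h2 := (QuotientGroup.eq (s := Z)).2 h1
        simpa only [QuotientGroup.mk_mul] using h2
      have hq1 : (A : G ⧸ Z) * A = (B : G ⧸ Z) * C := by
        have := hq 1
        simpa only [QuotientGroup.mk_one, mul_one] using this
      obtain ⟨κ, hκ⟩ : ∃ κ : G ⧸ Z, κ = (B : G ⧸ Z)⁻¹ * A := ⟨_, rfl⟩
      have hκ2 : κ = (C : G ⧸ Z) * (A : G ⧸ Z)⁻¹ := by
        rw [hκ, inv_mul_eq_iff_eq_mul, ← mul_assoc, ← hq1, mul_assoc, mul_inv_cancel, mul_one]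
      have hcomm : ∀ z : G, κ * z = z * κ := by
        intro z
        have h1 := hq z
        have h2 : (B : G ⧸ Z)⁻¹ * ((A : G ⧸ Z) * z * A) * (A : G ⧸ Z)⁻¹ = κ * z := by
          rw [hκ]; group
        have h3 : (B : G ⧸ Z)⁻¹ * ((B : G ⧸ Z) * z * C) * (A : G ⧸ Z)⁻¹ = z * κ := by
          rw [hκ2]; group
        rw [← h2, h1, h3]
      have hmem : ∀ w : G, ((w : G ⧸ Z) = κ ∨ (w : G ⧸ Z) = κ⁻¹ ∨
          ∃ q : G, (w : G ⧸ Z) = (q : G ⧸ Z)⁻¹ * κ * (q : G ⧸ Z)) → w ∈ Subgroup.upperCentralSeries G (k + 1) := by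
        intro w hw
        rw [Subgroup.mem_upperCentralSeries_succ_iff]
        intro y
        rw [← hZ, ← QuotientGroup.eq_one_iff (N := Z), commutatorElement_def]
        simp only [QuotientGroup.mk_mul, QuotientGroup.mk_inv]
        have hwy : (w : G ⧸ Z) * y = y * w := by
          rcases hw with hw | hw | ⟨q, hw⟩
          · rw [hw]; exact hcomm y
          · rw [hw]
            have h1 := hcomm y
            rw [inv_mul_eq_iff_eq_mul, ← mul_assoc, h1, mul_assoc, mul_inv_cancel, mul_one]
          · have h1 : (w : G ⧸ Z) = κ := by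
              rw [hw, mul_assoc, hcomm q, ← mul_assoc, inv_mul_cancel, one_mul]
            rw [h1]; exact hcomm y
        rw [hwy]
        group
      constructor
      · refine hmem _ (Or.inr (Or.inl ?_))
        rw [QuotientGroup.mk_mul, QuotientGroup.mk_inv, hκ, mul_inv_rev, inv_inv]
      · refine hmem _ (Or.inr (Or.inr ⟨A, ?_⟩))
        rw [QuotientGroup.mk_mul, QuotientGroup.mk_inv, hκ2]
        group
    have hk : k + 1 + m = k + (m + 1) := by omega
    by_cases hc : i < o + 2 ^ m
    · have := ih (k + 1) o (fun g => (key g).1) i hi hc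
      rwa [hk] at this
    · have := ih (k + 1) (o + 2 ^ m) (fun g => (key g).2) i (by omega) (by omega)
      rwa [hk] at this

/-- remove the letter `0` and shift -/
def sh : List ℕ → List ℕ
  | [] => []
  | 0 :: W => sh W
  | (y + 1) :: W => y :: sh W

theorem sh_append : ∀ A B : List ℕ, sh (A ++ B) = sh A ++ sh B
  | [], B => rfl
  | 0 :: A, B => by
    rw [List.cons_append]; simp only [sh]; exact sh_append A B
  | (y + 1) :: A, B => by
    rw [List.cons_append]; simp only [sh]; rw [sh_append A B]; rfl

theorem sh_Zw : ∀ m : ℕ, sh (Zw (m + 1)) = Zw m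
  | 0 => rfl
  | m + 1 => by
    have e : Zw (m + 1 + 1) = Zw (m + 1) ++ (m + 1) :: Zw (m + 1) := rfl
    rw [e, sh_append]
    simp only [sh]
    rw [sh_Zw m]
    rfl

theorem sh_prod {M : Type} [Monoid M] (f f' : ℕ → M) (h0 : f' 0 = 1) (h1 : ∀ i, f' (i + 1) = f i) :
    ∀ W : List ℕ, (W.map f').prod = ((sh W).map f).prod
  | [] => rfl
  | 0 :: W => by
    rw [List.map_cons, List.prod_cons, h0, one_mul]; exact sh_prod f f' h0 h1 W
  | (y + 1) :: W => by
    simp only [sh]
    rw [List.map_cons, List.prod_cons, h1, List.map_cons, List.prod_cons, sh_prod f f' h0 h1 W]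

/-- words with prescribed blocks of zeros -/
def build (a : ℕ → ℕ) : List ℕ → ℕ → List ℕ
  | [], o => List.replicate (a o) 0
  | y :: ys, o => List.replicate (a o) 0 ++ (y + 1) :: build a ys (o + 1)

theorem build_congr {a a' : ℕ → ℕ} : ∀ (ys : List ℕ) (o : ℕ), (∀ i, o ≤ i → a i = a' i) →
    build a ys o = build a' ys o
  | [], o, h => by simp only [build]; rw [h o le_rfl]
  | y :: ys, o, h => by
    simp only [build]
    rw [h o le_rfl, build_congr ys (o + 1) (fun i hi => h i (by omega))]

theorem exists_build : ∀ (W : List ℕ) (o : ℕ), ∃ a : ℕ → ℕ, W = build a (sh W) o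
  | [], o => ⟨fun _ => 0, by simp [sh, build]⟩
  | 0 :: W, o => by
    obtain ⟨a, ha⟩ := exists_build W o
    refine ⟨Function.update a o (a o + 1), ?_⟩
    simp only [sh]
    have h1 : ∀ ys : List ℕ, build (Function.update a o (a o + 1)) ys o = 0 :: build a ys o := by
      intro ys
      cases ys with
      | nil =>
        simp only [build, Function.update_self]
        rw [List.replicate_succ]
      | cons y ys =>
        simp only [build, Function.update_self]
        rw [List.replicate_succ, List.cons_append,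
          build_congr ys (o + 1) (a' := a) (fun i hi => Function.update_of_ne (by omega) _ _)]
    rw [h1, ← ha]
  | (y + 1) :: W, o => by
    obtain ⟨a, ha⟩ := exists_build W (o + 1)
    refine ⟨Function.update a o 0, ?_⟩
    simp only [sh, build, Function.update_self, List.replicate_zero, List.nil_append]
    rw [build_congr (sh W) (o + 1) (a' := a) (fun i hi => Function.update_of_ne (by omega) _ _),
      ← ha]

theorem build_append (a : ℕ → ℕ) (y : ℕ) (ys2 : List ℕ) : ∀ (ys1 : List ℕ) (o : ℕ),
    build a (ys1 ++ y :: ys2) o = build a ys1 o ++ (y + 1) :: build a ys2 (o + ys1.length + 1)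
  | [], o => by simp [build]
  | z :: ys1, o => by
    rw [List.cons_append]
    simp only [build]
    rw [build_append a y ys2 ys1 (o + 1), List.append_assoc, List.cons_append, List.length_cons]
    have : o + 1 + ys1.length + 1 = o + (ys1.length + 1) + 1 := by omega
    rw [this]

theorem Zw_length : ∀ m : ℕ, (Zw m).length + 1 = 2 ^ m
  | 0 => rfl
  | m + 1 => by
    have e : Zw (m + 1) = Zw m ++ m :: Zw m := rfl
    rw [e, List.length_append, List.length_cons, pow_succ, ← Zw_length m]
    ring

theorem build_Zw (a : ℕ → ℕ) (m o : ℕ) :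
    build a (Zw (m + 1)) o = build a (Zw m) o ++ (m + 1) :: build a (Zw m) (o + 2 ^ m) := by
  have e : Zw (m + 1) = Zw m ++ m :: Zw m := rfl
  rw [e, build_append, add_assoc o, Zw_length]

theorem build_Zw_one (a : ℕ → ℕ) : ∀ m o : ℕ, (∀ i, o ≤ i → i < o + 2 ^ m → a i = 1) →
    build a (Zw m) o = Zw (m + 1)
  | 0, o, h => by
    have h0 := h o le_rfl (by norm_num)
    simp [Zw, build, h0]
  | m + 1, o, h => by
    have hp : 2 ^ (m + 1) = 2 ^ m + 2 ^ m := by rw [pow_succ]; ring
    rw [build_Zw, build_Zw_one a m o (fun i hi hi' => h i hi (by omega)),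
      build_Zw_one a m (o + 2 ^ m) (fun i hi hi' => h i (by omega) (by omega))]
    rfl

/-- values of built words -/
theorem build_val {M : Type} [Monoid M] {e s u t : M} (he : e * e = e) (hs : e * s = s)
    (ht : t * e = t) (g : ℕ → Loc e he) (f : ℕ → M) (hf0 : f 0 = u)
    (hf : ∀ i, f (i + 1) = t * (g i).val * s) (a : ℕ → ℕ) (h : ℕ → Loc e he)
    (hh : ∀ i, (h i).val = s * u ^ (a i) * t) : ∀ m o : ℕ,
    s * ((build a (Zw m) o).map f).prod * t = (Ev h g m o).val
  | 0, o => by
    simp only [Zw, build, Ev]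
    rw [List.map_replicate, List.prod_replicate, hf0, hh]
  | m + 1, o => by
    have h1 := build_val he hs ht g f hf0 hf a h hh m o
    have h2 := build_val he hs ht g f hf0 hf a h hh m (o + 2 ^ m)
    rw [build_Zw, List.map_append, List.prod_append, List.map_cons, List.prod_cons, hf]
    simp only [Ev, Loc.mul_val]
    rw [← h1, ← h2]
    simp only [mul_assoc]

/-- a finite monoid satisfying a nontrivial identity `Zw n = W` satisfies Sapir's condition -/
theorem PP_of_zimin (M : Type) [Monoid M] [Finite M] (d : ℕ) (hd1 : 1 ≤ d)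
    (hd : ∀ x : M, x ^ d = x ^ (2 * d)) (n : ℕ) (W : List ℕ)
    (h : Sat M (Zw n) W) (hne : W ≠ Zw n) : PP M d := by
  have hidem : ∀ (x : M) (j : ℕ), 1 ≤ j → (x ^ d) ^ j = x ^ d := by
    intro x j hj
    induction j with
    | zero => omega
    | succ j ih =>
      rcases Nat.eq_zero_or_pos j with h0 | h0
      · rw [h0, zero_add, pow_one]
      · rw [pow_succ, ih h0, ← pow_add, ← two_mul, ← hd]
  induction n generalizing W with
  | zero =>
    have hlen : 1 ≤ W.length := by
      by_contra hc
      apply hne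
      have : W = [] := List.length_eq_zero_iff.1 (by omega)
      rw [this]; rfl
    have hk : ∀ x : M, x ^ W.length = 1 := by
      intro x
      have h1 := h (fun _ => x)
      simp only [Zw, List.map_nil, List.prod_nil, List.map_const', List.prod_replicate] at h1
      exact h1.symm
    intro e s u t he hs ht hsut
    refine ⟨0, ?_⟩
    have h1 : u ^ d = 1 := by
      rw [← hidem u W.length hlen, hk]
    change s * u ^ (1 + d) * t = e
    rw [pow_add, pow_one, h1, mul_one, hsut]
  | succ m ih =>
    by_cases hW : sh W = Zw m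
    swap
    · refine ih (sh W) ?_ hW
      intro f
      obtain ⟨f', hf0, hf1⟩ : ∃ f' : ℕ → M, f' 0 = 1 ∧ ∀ i, f' (i + 1) = f i :=
        ⟨fun i => Nat.casesOn i 1 (fun j => f j), rfl, fun i => rfl⟩
      have h1 := h f'
      rw [sh_prod f f' hf0 hf1, sh_prod f f' hf0 hf1, sh_Zw] at h1
      exact h1
    · obtain ⟨a, ha⟩ := exists_build W 0
      rw [hW] at ha
      obtain ⟨i0, hi0, hai⟩ : ∃ i < 2 ^ m, a i ≠ 1 := by
        by_contra hc
        push Not at hc
        apply hne
        rw [ha]
        exact build_Zw_one a m 0 (fun i _ hi => hc i (by omega))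
      -- the statement Q
      have hQ : ∀ (e : M) (he : e * e = e) (s u t : M), e * s = s → t * e = t → s * u * t = e →
          ∃ v : (Loc e he)ˣ, (v : Loc e he).val = s * u ^ (a i0) * t ∧
            v ∈ Subgroup.upperCentralSeries (Loc e he)ˣ m := by
        intro e he s u t hs ht hsut
        obtain ⟨hh, hhv⟩ : ∃ hh : ℕ → Loc e he, ∀ i, (hh i).val = s * u ^ (a i) * t :=
          ⟨fun i => ⟨s * u ^ (a i) * t, by rw [← mul_assoc, ← mul_assoc, hs],
            by rw [mul_assoc, ht]⟩, fun i => rfl⟩
        have hmain : ∀ g : ℕ → (Loc e he)ˣ, Ev hh (fun i => (g i : Loc e he)) m 0 =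
            Ev (fun _ => 1) (fun i => (g i : Loc e he)) m 0 := by
          intro g
          apply Loc.ext
          obtain ⟨f, hf0, hf⟩ : ∃ f : ℕ → M, f 0 = u ∧ ∀ i, f (i + 1) =
              t * ((g i : Loc e he)).val * s :=
            ⟨fun i => Nat.casesOn i u (fun j => t * ((g j : Loc e he)).val * s), rfl,
              fun i => rfl⟩
          have h1 := build_val he hs ht (fun i => (g i : Loc e he)) f hf0 hf a hh hhv m 0
          have h2 := build_val he hs ht (fun i => (g i : Loc e he)) f hf0 hf (fun _ => 1)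
            (fun _ => 1) (fun i => by rw [pow_one, hsut]; rfl) m 0
          rw [build_Zw_one (fun _ => 1) m 0 (fun _ _ _ => rfl)] at h2
          rw [← h1, ← h2, ← ha, h f]
        have hunit : ∀ i < 2 ^ m, IsUnit (hh i) := by
          intro i hi
          have h1 := hmain (fun _ => 1)
          have h2 : IsUnit (Ev hh (fun _ => ((1 : (Loc e he)ˣ) : Loc e he)) m 0) := by
            rw [h1]
            have h3 := Ev_units (N := Loc e he) (fun _ => 1) (fun _ => 1) m 0
            simp only [Units.val_one] at h3 ⊢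
            rw [← h3]
            exact Units.isUnit _
          exact Ev_isUnit hh _ m 0 h2 i (by omega) (by omega)
        classical
        obtain ⟨c, hc⟩ : ∃ c : ℕ → (Loc e he)ˣ, ∀ i < 2 ^ m, (c i : Loc e he) = hh i := by
          refine ⟨fun i => if hi : IsUnit (hh i) then hi.unit else 1, fun i hi => ?_⟩
          simp only [dif_pos (hunit i hi)]
          exact IsUnit.unit_spec _
        have hH := lemmaH c m 0 0 (fun g => by
          have h1 : Ev c g m 0 = Ev (fun _ => 1) g m 0 := by
            apply Units.ext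
            rw [Ev_units, Ev_units]
            have h2 := hmain g
            have h3 : Ev (fun i => (c i : Loc e he)) (fun i => (g i : Loc e he)) m 0 =
                Ev hh (fun i => (g i : Loc e he)) m 0 :=
              Ev_congr m 0 (fun _ _ => rfl) (fun i _ hi => hc i (by omega))
            rw [h3, h2]
            rfl
          rw [h1, inv_mul_cancel]
          exact Subgroup.one_mem _) i0 (by omega) (by omega)
        rw [zero_add] at hH
        exact ⟨c i0, by rw [hc i0 hi0, hhv], hH⟩
      -- reduce to an exponent at least two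
      obtain ⟨b, hb1, hQ2⟩ : ∃ b : ℕ, 1 ≤ b ∧ ∀ (e : M) (he : e * e = e) (s u t : M), e * s = s →
          t * e = t → s * u * t = e →
          ∃ v : (Loc e he)ˣ, (v : Loc e he).val = s * u ^ (1 + b) * t ∧
            v ∈ Subgroup.upperCentralSeries (Loc e he)ˣ m := by
        rcases Nat.eq_zero_or_pos (a i0) with h0 | h0
        · refine ⟨1, le_rfl, ?_⟩
          intro e he s u t hs ht hsut
          have h1 := hQ e he (s * u) (t * s) (u * t) (by rw [← mul_assoc, hs])
            (by rw [mul_assoc, ht]) (by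
              have : s * u * (t * s) * (u * t) = (s * u * t) * (s * u * t) := by
                simp only [mul_assoc]
              rw [this, hsut, he])
          rw [h0, pow_zero, mul_one] at h1
          obtain ⟨v, hv, hv2⟩ := h1
          refine ⟨v, ?_, hv2⟩
          rw [hv]
          simp only [pow_succ, pow_zero, one_mul, mul_assoc]
        · refine ⟨a i0 - 1, by omega, ?_⟩
          have : 1 + (a i0 - 1) = a i0 := by omega
          rw [this]
          exact hQ
      intro e s u t he hs ht hsut
      have hR : ∀ k : ℕ, ∃ v : (Loc e he)ˣ, (v : Loc e he).val = s * u ^ (1 + k * b) * t ∧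
            v ∈ Subgroup.upperCentralSeries (Loc e he)ˣ m := by
        intro k
        induction k with
        | zero =>
          refine ⟨1, ?_, Subgroup.one_mem _⟩
          rw [zero_mul, add_zero, pow_one, hsut]
          rfl
        | succ k ihk =>
          obtain ⟨γ, hγ, hγm⟩ := ihk
          obtain ⟨c, hc⟩ : ∃ c : M, c = ((γ⁻¹ : (Loc e he)ˣ) : Loc e he).val := ⟨_, rfl⟩
          have hec : e * c = c := by rw [hc]; exact Loc.l _
          have hcγ : c * (s * u ^ (1 + k * b) * t) = e := by
            rw [hc, ← hγ]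
            exact congrArg Loc.val (Units.inv_mul γ)
          have hγc : (s * u ^ (1 + k * b) * t) * c = e := by
            rw [hc, ← hγ]
            exact congrArg Loc.val (Units.mul_inv γ)
          obtain ⟨v, hv, hvm⟩ := hQ2 e he (c * s * u ^ (k * b)) u t
            (by rw [← mul_assoc, ← mul_assoc, hec]) ht (by
              rw [← hcγ, add_comm 1, pow_succ]
              simp only [mul_assoc])
          refine ⟨γ * v, ?_, Subgroup.mul_mem _ hγm hvm⟩
          rw [Units.val_mul, Loc.mul_val, hγ, hv]
          have e1 : s * u ^ (1 + k * b) * t * (c * s * u ^ (k * b) * u ^ (1 + b) * t) =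
              ((s * u ^ (1 + k * b) * t) * c) * s * (u ^ (k * b) * u ^ (1 + b)) * t := by
            simp only [mul_assoc]
          rw [e1, hγc, hs, ← pow_add]
          congr 3
          ring
      obtain ⟨v, hv, hvm⟩ := hR d
      refine ⟨m, ?_⟩
      have h1 := zt_of_mem m v hvm
      rw [hv] at h1
      have h2 : u ^ (1 + d * b) = u ^ (1 + d) := by
        rw [pow_add, pow_mul, hidem u b hb1, ← pow_add]
      rw [h2] at h1
      exact h1

end SJ4
end Pool.Agent.INFB
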