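import Pool.Agent.INFB.Defs

set_option autoImplicit false

namespace Pool.Agent.INFB
namespace SJ5



namespace J5

section basics
variable {M : Type} [Monoid M]

theorem un_self {e : M} (he : e * e = e) : Un e e := ⟨he, he, e, he, he, he, he⟩

theorem un_mul {e x x' : M} (h : Un e x) (h' : Un e x') : Un e (x * x') := by
  obtain ⟨h1, h2, y, h3, h4, h5, h6⟩ := h
  obtain ⟨h1', h2', y', h3', h4', h5', h6'⟩ := h'
  refine ⟨by rw [← mul_assoc, h1], by rw [mul_assoc, h2'], y' * y, by rw [← mul_assoc, h3'],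
    by rw [mul_assoc, h4], ?_, ?_⟩
  · calc x * x' * (y' * y) = x * (x' * y') * y := by simp only [mul_assoc]
      _ = x * y := by rw [h5', h2]
      _ = e := h5
  · calc y' * y * (x * x') = y' * (y * x) * x' := by simp only [mul_assoc]
      _ = y' * x' := by rw [h6, h4']
      _ = e := h6'

theorem zt_un {e : M} (he : e * e = e) : ∀ {k : ℕ} {x : M}, Zt e k x → Un e x
  | 0, x, h => by rw [show x = e from h]; exact un_self he
  | _+1, _, h => h.1

theorem zt_succ {e : M} (he : e * e = e) : ∀ {k : ℕ} {x : M}, Zt e k x → Zt e (k+1) x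
  | 0, x, h => by
    have hx : x = e := h
    rw [hx]
    exact ⟨un_self he, fun g hg => ⟨e, rfl, by rw [mul_assoc, hg.2.1]⟩⟩
  | k+1, x, h => ⟨h.1, fun g hg => by
      obtain ⟨z, hz, h2⟩ := h.2 g hg
      exact ⟨z, zt_succ he hz, h2⟩⟩

theorem zt_mono {e : M} (he : e * e = e) {k l : ℕ} (hkl : k ≤ l) {x : M} (h : Zt e k x) :
    Zt e l x := by
  induction hkl with
  | refl => exact h
  | step _ ih => exact zt_succ he ih

theorem zt_e {e : M} (he : e * e = e) (k : ℕ) : Zt e k e :=
  zt_mono he (Nat.zero_le k) (show Zt e 0 e from rfl)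

theorem zt_mul {e : M} (he : e * e = e) : ∀ {k : ℕ} {x y : M}, Zt e k x → Zt e k y →
    Zt e k (x * y)
  | 0, x, y, hx, hy => by
    have hx' : x = e := hx
    have hy' : y = e := hy
    show x * y = e
    rw [hx', hy', he]
  | k+1, x, y, hx, hy => by
    refine ⟨un_mul hx.1 hy.1, fun g hg => ?_⟩
    obtain ⟨z1, hz1, h1⟩ := hy.2 g hg
    obtain ⟨z2, hz2, h2⟩ := hx.2 (z1 * g) (un_mul (zt_un he hz1) hg)
    refine ⟨z2 * z1, zt_mul he hz2 hz1, ?_⟩
    calc x * y * g = x * (y * g) := mul_assoc _ _ _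
      _ = x * (z1 * g) * y := by rw [h1]; simp only [mul_assoc]
      _ = z2 * (z1 * g) * x * y := by rw [h2]
      _ = z2 * z1 * g * (x * y) := by simp only [mul_assoc]

theorem zt_pow {e : M} (he : e * e = e) {k : ℕ} {x : M} (hx : Zt e k x) :
    ∀ n, Zt e k (e * x ^ n)
  | 0 => by rw [pow_zero, mul_one]; exact zt_e he k
  | n+1 => by rw [pow_succ, ← mul_assoc]; exact zt_mul he (zt_pow he hx n) hx

/-- `RR` -/
def RR (p q : M) : Prop := ∀ e s t : M, e * e = e → e * s = s → t * e = t → Un e (s * p * t) →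
  ∃ g, (∃ k, Zt e k g) ∧ s * q * t = s * p * t * g

theorem rr_refl (p : M) : RR p p := by
  intro e s t he _ ht _
  exact ⟨e, ⟨0, rfl⟩, by rw [mul_assoc (s * p), ht]⟩

theorem rr_mul {p q p2 q2 : M} (h : RR p q) (h2 : RR p2 q2) : RR (p * p2) (q * q2) := by
  intro e s t he hs ht hu
  have e1 : s * (p * p2) * t = s * p * (p2 * t) := by simp only [mul_assoc]
  rw [e1] at hu
  obtain ⟨g1, ⟨k1, hg1⟩, h1⟩ := h e s (p2 * t) he hs (by rw [mul_assoc, ht]) hu
  have hu2 : Un e (s * q * p2 * t) := by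
    rw [mul_assoc (s * q), h1]
    exact un_mul hu (zt_un he hg1)
  obtain ⟨g2, ⟨k2, hg2⟩, h3⟩ := h2 e (s * q) t he (by rw [← mul_assoc, hs]) ht hu2
  refine ⟨g1 * g2, ⟨max k1 k2, zt_mul he (zt_mono he (le_max_left _ _) hg1)
    (zt_mono he (le_max_right _ _) hg2)⟩, ?_⟩
  calc s * (q * q2) * t = s * q * q2 * t := by simp only [mul_assoc]
    _ = s * q * p2 * t * g2 := h3
    _ = s * q * (p2 * t) * g2 := by simp only [mul_assoc]
    _ = s * p * (p2 * t) * g1 * g2 := by rw [h1]
    _ = s * (p * p2) * t * (g1 * g2) := by simp only [mul_assoc]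

theorem rr_pow {d : ℕ} (h : PP M d) (a : M) : RR a (a ^ (1 + d)) := by
  intro e s t he hs ht hu
  obtain ⟨h1, h2, v, h3, h4, h5, h6⟩ := hu
  have hev : e * (v * s) = v * s := by rw [← mul_assoc, h3]
  have hk := h e (v * s) a t he hev ht (by
    rw [show v * s * a * t = v * (s * a * t) by simp only [mul_assoc], h6])
  refine ⟨_, hk, ?_⟩
  calc s * a ^ (1 + d) * t = (e * s) * a ^ (1 + d) * t := by rw [hs]
    _ = (s * a * t * v) * s * a ^ (1 + d) * t := by rw [h5]
    _ = s * a * t * (v * s * a ^ (1 + d) * t) := by simp only [mul_assoc]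

/-- `Rel` -/
def Rel (c : ℕ) (p q : M) : Prop := ∃ e c' : M, e * e = e ∧ e * p = p ∧ p * c' = e ∧ c' * e = c' ∧
  ∃ g, Zt e c g ∧ q = g * p

theorem rel_zero {p q : M} (h : Rel 0 p q) : p = q := by
  obtain ⟨e, c', he, h1, h2, h3, g, hg, h4⟩ := h
  have : g = e := hg
  rw [h4, this, h1]

variable {d : ℕ} (hd1 : 1 ≤ d) (hd : ∀ x : M, x ^ d = x ^ (2 * d))
include hd1 hd

theorem pow_of_right {e x y : M} (hxe : x * e = x) (hxy : x * y = e) : x ^ d = e := by
  have h1 : ∀ n : ℕ, x ^ (n+1) * y ^ (n+1) = e := by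
    intro n
    induction n with
    | zero => simpa using hxy
    | succ n ih =>
      calc x ^ (n+1+1) * y ^ (n+1+1) = x ^ (n+1) * (x * y) * y ^ (n+1) := by
            rw [pow_succ x (n+1), pow_succ' y (n+1)]; simp only [mul_assoc]
        _ = x ^ n * (x * e) * y ^ (n+1) := by rw [hxy, pow_succ x n]; simp only [mul_assoc]
        _ = e := by rw [hxe, ← pow_succ, ih]
  obtain ⟨n, rfl⟩ : ∃ n, d = n + 1 := ⟨d - 1, by omega⟩
  calc x ^ (n+1) = x ^ n * (x * e) := by rw [hxe, pow_succ]
    _ = x ^ (n+1) * e := by rw [pow_succ]; simp only [mul_assoc]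
    _ = x ^ (n+1) * (x ^ (n+1) * y ^ (n+1)) := by rw [h1]
    _ = x ^ (2 * (n+1)) * y ^ (n+1) := by rw [← mul_assoc, ← pow_add, two_mul]
    _ = x ^ (n+1) * y ^ (n+1) := by rw [← hd]
    _ = e := h1 n

theorem un_of_right {e x y : M} (hx1 : e * x = x) (hx2 : x * e = x) (hy1 : e * y = y)
    (hy2 : y * e = y) (hxy : x * y = e) : Un e x := by
  refine ⟨hx1, hx2, y, hy1, hy2, hxy, ?_⟩
  have hp := pow_of_right hd1 hd hx2 hxy
  obtain ⟨n, rfl⟩ : ∃ n, d = n + 1 := ⟨d - 1, by omega⟩
  calc y * x = x ^ (n+1) * y * x := by rw [hp, hy1]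
    _ = x ^ n * (x * y) * x := by rw [pow_succ]; simp only [mul_assoc]
    _ = x ^ n * x := by rw [hxy, mul_assoc, hx1]
    _ = e := by rw [← pow_succ, hp]

theorem zt_inv {e : M} (he : e * e = e) {k : ℕ} {x : M} (hx : Zt e k x) :
    ∃ x', Zt e k x' ∧ x * x' = e ∧ x' * x = e := by
  obtain ⟨h1, h2, y, h3, h4, h5, h6⟩ := zt_un he hx
  have hp := pow_of_right hd1 hd h2 h5
  obtain ⟨n, rfl⟩ : ∃ n, d = n + 1 := ⟨d - 1, by omega⟩
  refine ⟨e * x ^ n, zt_pow he hx n, ?_, ?_⟩
  · rw [← mul_assoc, h2, ← pow_succ', hp]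
  · rw [mul_assoc, ← pow_succ, hp, he]

theorem zt_comm' {e : M} (he : e * e = e) {k : ℕ} {x g : M} (hx : Zt e (k+1) x) (hg : Un e g) :
    ∃ z, Zt e k z ∧ g * x = z * x * g := by
  obtain ⟨z, hz, h⟩ := hx.2 g hg
  obtain ⟨z', hz', h1, h2⟩ := zt_inv hd1 hd he hz
  refine ⟨z', hz', ?_⟩
  calc g * x = e * g * x := by rw [hg.1]
    _ = z' * (z * g * x) := by rw [← h2]; simp only [mul_assoc]
    _ = z' * x * g := by rw [← h, mul_assoc]

theorem zt_conj {e : M} (he : e * e = e) : ∀ {k : ℕ} {x g : M}, Zt e k x → Un e g →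
    ∃ x', Zt e k x' ∧ g * x = x' * g
  | 0, x, g, hx, hg => by
    have hx' : x = e := hx
    exact ⟨e, rfl, by rw [hx', hg.1, hg.2.1]⟩
  | k+1, x, g, hx, hg => by
    obtain ⟨z, hz, h⟩ := zt_comm' hd1 hd he hx hg
    exact ⟨z * x, zt_mul he (zt_succ he hz) hx, h⟩

theorem core {p a z : M} (h : p = a * p * z) : a ^ d * p = p ∧ p * z ^ d = p := by
  have h1 : ∀ n : ℕ, a ^ n * p * z ^ n = p := by
    intro n
    induction n with
    | zero => simp
    | succ n ih =>
      calc a ^ (n+1) * p * z ^ (n+1) = a ^ n * (a * p * z) * z ^ n := by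
            rw [pow_succ a n, pow_succ' z n]; simp only [mul_assoc]
        _ = p := by rw [← h, ih]
  have h2 := h1 d
  constructor
  · calc a ^ d * p = a ^ d * (a ^ d * p * z ^ d) := by rw [h2]
      _ = a ^ (2 * d) * p * z ^ d := by rw [two_mul, pow_add]; simp only [mul_assoc]
      _ = p := by rw [← hd, h2]
  · calc p * z ^ d = (a ^ d * p * z ^ d) * z ^ d := by rw [h2]
      _ = a ^ d * p * z ^ (2 * d) := by rw [two_mul, pow_add]; simp only [mul_assoc]
      _ = p := by rw [← hd, h2]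

theorem stabR {p y0 a b : M} (h : p = a * (p * y0) * b) : ∃ y, p = p * y0 * y := by
  have h' : p = a * p * (y0 * b) := by simpa only [mul_assoc] using h
  have h2 := (core hd1 hd h').2
  obtain ⟨n, rfl⟩ : ∃ n, d = n + 1 := ⟨d - 1, by omega⟩
  refine ⟨b * (y0 * b) ^ n, ?_⟩
  rw [pow_succ'] at h2
  simpa only [mul_assoc] using h2.symm

theorem stabL {p x0 a b : M} (h : p = a * (x0 * p) * b) : ∃ z, p = z * (x0 * p) := by
  have h' : p = (a * x0) * p * b := by simpa only [mul_assoc] using h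
  have h2 := (core hd1 hd h').1
  obtain ⟨n, rfl⟩ : ∃ n, d = n + 1 := ⟨d - 1, by omega⟩
  refine ⟨(a * x0) ^ n * a, ?_⟩
  rw [pow_succ] at h2
  simpa only [mul_assoc] using h2.symm

theorem claimA {C : ℕ} (hC : ∀ e x : M, e * e = e → (∃ k, Zt e k x) → Zt e C x)
    {p p' q' c1 w' v x x0 a b : M} (hp' : p' = p * (c1 * p) * w') (hp'2 : p' = x0 * p)
    (hq1 : q' = p * v) (hq2 : q' = x * p) (hRR : RR p' q') (hJ : p = a * p' * b) :
    Rel C p' q' := by
  obtain ⟨y, hy⟩ : ∃ y, p = p' * y := by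
    have : p = a * (p * (c1 * p * w')) * b := by
      rw [hp'] at hJ; simpa only [mul_assoc] using hJ
    obtain ⟨y, hy⟩ := stabR hd1 hd this
    exact ⟨y, by rw [hp']; simpa only [mul_assoc] using hy⟩
  obtain ⟨z, hz⟩ : ∃ z, p = z * p' := by
    rw [hp'2] at hJ
    obtain ⟨z, hz⟩ := stabL hd1 hd hJ
    exact ⟨z, by rw [hp'2]; exact hz⟩
  have h1 : p = (p * c1) * p * (w' * y) := by
    calc p = p' * y := hy
      _ = _ := by rw [hp']; simp only [mul_assoc]
  have h2 := (core hd1 hd h1).1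
  set e := (p * c1) ^ d with he_def
  have he : e * e = e := by rw [he_def, ← pow_add, ← two_mul, ← hd]
  obtain ⟨c', hc1, hc2⟩ : ∃ c', p * c' = e ∧ c' * e = c' := by
    obtain ⟨n, hn⟩ : ∃ n, d = n + 1 := ⟨d - 1, by omega⟩
    refine ⟨c1 * (p * c1) ^ n * e, ?_, by rw [mul_assoc, he]⟩
    have : p * (c1 * (p * c1) ^ n) = e := by
      rw [he_def, hn, pow_succ', mul_assoc]
    rw [← mul_assoc, this, he]
  have hep' : e * p' = p' := by
    rw [hp', ← mul_assoc, ← mul_assoc, h2]
  have hpy : p' * (y * c') = e := by rw [← mul_assoc, ← hy, hc1]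
  have hye : y * c' * e = y * c' := by rw [mul_assoc, hc2]
  obtain ⟨g, hg, h3⟩ := hRR e e (y * c') he he hye (by rw [hep', hpy]; exact un_self he)
  have hgz := hC e g he hg
  refine ⟨e, y * c', he, hep', hpy, hye, g, hgz, ?_⟩
  have heq' : e * q' = q' := by rw [hq1, ← mul_assoc, h2]
  rw [heq', hep', hpy, (zt_un he hgz).1] at h3
  rw [← h3]
  symm
  calc q' * (y * c') * p' = x * (z * p') * (y * c') * p' := by rw [← hz, ← hq2]
    _ = x * z * (p' * (y * c')) * p' := by simp only [mul_assoc]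
    _ = x * (z * p') := by rw [hpy, mul_assoc (x * z), hep', mul_assoc]
    _ = q' := by rw [← hz, ← hq2]

/-- one conjugation step -/
theorem hstep {e c' p c : M} (he : e * e = e) (hep : e * p = p) (hpc : p * c' = e)
    (hce : c' * e = c') (hJ : ∃ a b, p = a * (p * c * p) * b) :
    ∃ h, Un e h ∧ ∀ g, Un e g → p * (c * (g * p)) = h * g * p := by
  obtain ⟨a, b, hab⟩ := hJ
  obtain ⟨y, hy⟩ : ∃ y, p = p * (c * p) * y :=
    stabR hd1 hd (by rw [← mul_assoc p c p]; exact hab)
  refine ⟨p * c * p * c', ?_, ?_⟩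
  · refine un_of_right hd1 hd (y := p * y * c') ?_ ?_ ?_ ?_ ?_
    · simp only [← mul_assoc, hep]
    · rw [mul_assoc, hce]
    · simp only [← mul_assoc, hep]
    · rw [mul_assoc, hce]
    · calc p * c * p * c' * (p * y * c') = p * c * (p * c') * p * y * c' := by
            simp only [mul_assoc]
        _ = p * c * (e * p) * y * c' := by rw [hpc]; simp only [mul_assoc]
        _ = p * (c * p) * y * c' := by rw [hep]; simp only [mul_assoc]
        _ = e := by rw [← hy, hpc]
  · intro g hg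
    calc p * (c * (g * p)) = p * c * (e * g) * p := by rw [hg.1]; simp only [mul_assoc]
      _ = p * c * (p * c' * g) * p := by rw [hpc]
      _ = p * c * p * c' * g * p := by simp only [mul_assoc]

theorem claimB1 {e c' p q g : M} {k : ℕ} (he : e * e = e) (hep : e * p = p) (hpc : p * c' = e)
    (hce : c' * e = c') (hg : Zt e (k+1) g) (hq : q = g * p) :
    ∀ (cs : List M), (∀ c ∈ cs, ∃ a b, p = a * (p * c * p) * b) → ∀ (n : ℕ) (x y : M), Un e x →
      Un e y → (∃ z, Zt e k z ∧ x = z * (e * g ^ n * y)) →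
      ∃ x' y', Un e x' ∧ Un e y' ∧ (∃ z, Zt e k z ∧ x' = z * (e * g ^ (n + cs.length) * y')) ∧
        x * p * (cs.map (fun c => c * q)).prod = x' * p ∧
        y * p * (cs.map (fun c => c * p)).prod = y' * p := by
  intro cs
  induction cs with
  | nil =>
    intro _ n x y hx hy hz
    exact ⟨x, y, hx, hy, by simpa using hz, by simp, by simp⟩
  | cons c cs ih =>
    intro hcs n x y hx hy ⟨z, hz, hxz⟩
    obtain ⟨h, hh, hh2⟩ := hstep hd1 hd he hep hpc hce (hcs c (by simp))
    have gu := zt_un he hg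
    have hx' : Un e (x * h * g) := un_mul (un_mul hx hh) gu
    have hy' : Un e (y * h) := un_mul hy hh
    obtain ⟨z1, hz1, hz1'⟩ := zt_comm' hd1 hd he hg hy'
    have gn : Un e (e * g ^ n) := zt_un he (zt_pow he hg n)
    obtain ⟨z2, hz2, hz2'⟩ := zt_conj hd1 hd he hz1 gn
    have hnew : ∃ z, Zt e k z ∧ x * h * g = z * (e * g ^ (n+1) * (y * h)) := by
      refine ⟨z * z2, zt_mul he hz hz2, ?_⟩
      calc x * h * g = z * (e * g ^ n * y) * h * g := by rw [← hxz]
        _ = z * (e * g ^ n) * (y * h * g) := by simp only [mul_assoc]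
        _ = z * (e * g ^ n * z1) * g * (y * h) := by rw [hz1']; simp only [mul_assoc]
        _ = z * (z2 * (e * g ^ n)) * g * (y * h) := by rw [hz2']
        _ = z * z2 * (e * g ^ (n+1) * (y * h)) := by rw [pow_succ]; simp only [mul_assoc]
    obtain ⟨x', y', h1, h2, h3, h4, h5⟩ := ih (fun c hc => hcs c (by simp [hc])) (n+1)
      (x * h * g) (y * h) hx' hy' hnew
    refine ⟨x', y', h1, h2, ?_, ?_, ?_⟩
    · rw [List.length_cons, show n + (cs.length + 1) = n + 1 + cs.length by omega]; exact h3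
    · rw [List.map_cons, List.prod_cons, ← h4]
      calc x * p * (c * q * (cs.map (fun c => c * q)).prod)
          = x * (p * (c * q)) * (cs.map (fun c => c * q)).prod := by simp only [mul_assoc]
        _ = x * (h * g * p) * (cs.map (fun c => c * q)).prod := by rw [hq, hh2 g gu]
        _ = _ := by simp only [mul_assoc]
    · rw [List.map_cons, List.prod_cons, ← h5]
      have := hh2 e (un_self he)
      rw [hep, hh.2.1] at this
      calc y * p * (c * p * (cs.map (fun c => c * p)).prod)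
          = y * (p * (c * p)) * (cs.map (fun c => c * p)).prod := by simp only [mul_assoc]
        _ = y * (h * p) * (cs.map (fun c => c * p)).prod := by rw [this]
        _ = _ := by simp only [mul_assoc]

end basics

section step
variable {M : Type} [Monoid M]

/-- semantic steps -/
def sP (cs : List M) (p : M) : M := p * (cs.map (fun c => c * p)).prod
def sQ (d : ℕ) (cs : List M) (p q : M) : M :=
  p * ((cs.take d).map (fun c => c * q)).prod * ((cs.drop d).map (fun c => c * p)).prod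

theorem rr_prod {p q : M} (h : RR p q) : ∀ cs : List M,
    RR (cs.map (fun c => c * p)).prod (cs.map (fun c => c * q)).prod
  | [] => rr_refl _
  | c :: cs => by
    rw [List.map_cons, List.prod_cons, List.map_cons, List.prod_cons]
    exact rr_mul (rr_mul (rr_refl c) h) (rr_prod h cs)

theorem sP_eq (d : ℕ) (cs : List M) (p : M) : sP cs p = sQ d cs p p := by
  unfold sP sQ
  rw [mul_assoc, ← List.prod_append, ← List.map_append, List.take_append_drop]

theorem rr_step {d : ℕ} {cs : List M} {p q : M} (h : RR p q) : RR (sP cs p) (sQ d cs p q) := by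
  rw [sP_eq d]
  exact rr_mul (rr_mul (rr_refl p) (rr_prod h _)) (rr_refl _)

theorem ends (p : M) : ∀ (cs : List M) (x : M), ∃ a, x * p * (cs.map (fun c => c * p)).prod = a * p
  | [], x => ⟨x, by simp⟩
  | c :: cs, x => by
    obtain ⟨a, ha⟩ := ends p cs (x * p * c)
    refine ⟨a, ?_⟩
    rw [← ha, List.map_cons, List.prod_cons]; simp only [mul_assoc]

theorem sP_mem {cs : List M} {p c : M} (hc : c ∈ cs) : ∃ a b, sP cs p = a * (p * c * p) * b := by
  obtain ⟨l1, l2, rfl⟩ := List.append_of_mem hc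
  obtain ⟨a, ha⟩ := ends p l1 1
  refine ⟨a, (l2.map (fun c => c * p)).prod, ?_⟩
  unfold sP
  rw [List.map_append, List.prod_append, List.map_cons, List.prod_cons]
  rw [one_mul] at ha
  calc p * ((l1.map (fun c => c * p)).prod * (c * p * (l2.map (fun c => c * p)).prod))
      = p * (l1.map (fun c => c * p)).prod * (c * p * (l2.map (fun c => c * p)).prod) := by
        simp only [mul_assoc]
    _ = _ := by rw [ha]; simp only [mul_assoc]

variable {d : ℕ} (hd1 : 1 ≤ d) (hd : ∀ x : M, x ^ d = x ^ (2 * d))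
include hd1 hd

theorem stepA {C : ℕ} (hC : ∀ e x : M, e * e = e → (∃ k, Zt e k x) → Zt e C x)
    {cs : List M} (hcs : d + 1 ≤ cs.length) {p q : M} (hRR : RR p q)
    (hJ : ∃ a b, p = a * sP cs p * b) : Rel C (sP cs p) (sQ d cs p q) := by
  obtain ⟨a, b, hJ⟩ := hJ
  obtain ⟨c1, rest, hc⟩ : ∃ c1 rest, cs = c1 :: rest := by
    cases cs with
    | nil => simp at hcs
    | cons c r => exact ⟨c, r, rfl⟩
  obtain ⟨x0, hx0⟩ := ends p cs 1
  obtain ⟨x, hx⟩ : ∃ x, sQ d cs p q = x * p := by
    unfold sQ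
    obtain ⟨c2, r2, hr2⟩ : ∃ c2 r2, cs.drop d = c2 :: r2 := by
      cases h : cs.drop d with
      | nil => rw [List.drop_eq_nil_iff] at h; omega
      | cons c r => exact ⟨c, r, rfl⟩
    obtain ⟨a, ha⟩ := ends p r2 (p * ((cs.take d).map (fun c => c * q)).prod * c2)
    refine ⟨a, ?_⟩
    rw [← ha, hr2, List.map_cons, List.prod_cons]; simp only [mul_assoc]
  refine claimA hd1 hd hC (p := p) (c1 := c1) (w' := (rest.map (fun c => c * p)).prod)
    (v := ((cs.take d).map (fun c => c * q)).prod * ((cs.drop d).map (fun c => c * p)).prod)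
    (x := x) (x0 := x0) (a := a) (b := b) ?_ ?_ ?_ hx (rr_step hRR) hJ
  · unfold sP; rw [hc, List.map_cons, List.prod_cons]; simp only [mul_assoc]
  · unfold sP; rw [← hx0, one_mul]
  · unfold sQ; simp only [mul_assoc]

theorem stepB {k : ℕ} {cs : List M} (hcs : d + 1 ≤ cs.length) {p q : M} (hR : Rel (k+1) p q)
    (hJ : ∃ a b, p = a * sP cs p * b) : Rel k (sP cs p) (sQ d cs p q) := by
  obtain ⟨e, c', he, hep, hpc, hce, g, hg, hq⟩ := hR
  obtain ⟨a, b, hJ⟩ := hJ
  have hall : ∀ c ∈ cs.take d, ∃ a b, p = a * (p * c * p) * b := by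
    intro c hc
    obtain ⟨a2, b2, h2⟩ := sP_mem (p := p) (List.mem_of_mem_take hc)
    refine ⟨a * a2, b2 * b, ?_⟩
    calc p = a * sP cs p * b := hJ
      _ = _ := by rw [h2]; simp only [mul_assoc]
  obtain ⟨x', y', hx', hy', ⟨z, hz, hxz⟩, h4, h5⟩ := claimB1 hd1 hd he hep hpc hce hg hq (cs.take d)
    hall 0 e e (un_self he) (un_self he) ⟨e, zt_e he k, by rw [pow_zero, mul_one, he, he]⟩
  have hlen : (cs.take d).length = d := by rw [List.length_take]; omega
  have hgd : g ^ d = e := by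
    obtain ⟨h1, h2, y, h3, h4, h5, h6⟩ := zt_un he hg
    exact pow_of_right hd1 hd h2 h5
  rw [hlen, zero_add, hgd, he, hy'.1] at hxz
  rw [hep] at h4 h5
  have hPeq : sP cs p = y' * p * ((cs.drop d).map (fun c => c * p)).prod := by
    rw [sP_eq d]; unfold sQ; rw [h5]
  have hQeq : sQ d cs p q = z * sP cs p := by
    unfold sQ; rw [h4, hxz, hPeq]; simp only [mul_assoc]
  obtain ⟨y, hy⟩ : ∃ y, p = sP cs p * y := stabR hd1 hd hJ
  refine ⟨e, y * c', he, ?_, ?_, ?_, z, hz, hQeq⟩
  · unfold sP; rw [← mul_assoc, hep]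
  · rw [← mul_assoc, ← hy, hpc]
  · rw [mul_assoc, hce]

/-- potential -/
def Pot (C N : ℕ) (p q : M) : Prop := RR p q ∧ (p = q ∨ ∃ i c : ℕ,
  ({m | ∃ a b, m = a * p * b} : Set M).ncard ≤ i ∧ c ≤ C + 1 ∧ (c ≤ C → Rel c p q) ∧
    i * (C + 2) + c ≤ N)

omit hd1 hd in
theorem pot_init [Finite M] {p q : M} (C : ℕ) (h : RR p q) :
    Pot C (Nat.card M * (C + 2) + C + 1) p q := by
  refine ⟨h, Or.inr ⟨Nat.card M, C + 1, ?_, le_rfl, fun h => by omega, by omega⟩⟩
  rw [← Set.ncard_univ]
  exact Set.ncard_le_ncard (Set.subset_univ _)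

omit hd1 hd in
theorem pot_zero [Finite M] {p q : M} {C : ℕ} (h : Pot C 0 p q) : p = q := by
  obtain ⟨_, h | ⟨i, c, h1, h2, h3, h4⟩⟩ := h
  · exact h
  · have hc : c = 0 := by omega
    subst hc
    exact rel_zero (h3 (Nat.zero_le _))

theorem pot_step [Finite M] {C N : ℕ} (hC : ∀ e x : M, e * e = e → (∃ k, Zt e k x) → Zt e C x)
    {cs : List M} (hcs : d + 1 ≤ cs.length) {p q : M} (h : Pot C (N+1) p q) :
    Pot C N (sP cs p) (sQ d cs p q) := by
  obtain ⟨hRR, h⟩ := h
  refine ⟨rr_step hRR, ?_⟩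
  obtain h | ⟨i, c, h1, h2, h3, h4⟩ := h
  · left; rw [← h, ← sP_eq]
  · have hsub : ({m | ∃ a b, m = a * sP cs p * b} : Set M) ⊆ {m | ∃ a b, m = a * p * b} := by
      rintro m ⟨a, b, rfl⟩
      refine ⟨a, (cs.map (fun c => c * p)).prod * b, ?_⟩
      unfold sP; simp only [mul_assoc]
    rcases lt_or_ge ({m | ∃ a b, m = a * sP cs p * b} : Set M).ncard
        ({m | ∃ a b, m = a * p * b} : Set M).ncard with hlt | hge
    · right
      refine ⟨i - 1, C + 1, by omega, le_rfl, fun h => by omega, ?_⟩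
      obtain ⟨j, rfl⟩ : ∃ j, i = j + 1 := ⟨i - 1, by omega⟩
      rw [Nat.add_sub_cancel]
      have : (j + 1) * (C + 2) = j * (C + 2) + (C + 2) := by ring
      omega
    · have heq := Set.eq_of_subset_of_ncard_le hsub hge
      have hJ : ∃ a b, p = a * sP cs p * b := by
        have : p ∈ ({m | ∃ a b, m = a * p * b} : Set M) := ⟨1, 1, by simp⟩
        rw [← heq] at this
        exact this
      rcases Nat.eq_or_lt_of_le h2 with hc | hc
      · right
        exact ⟨i, C, (Set.ncard_le_ncard hsub).trans h1, by omega,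
          fun _ => stepA hd1 hd hC hcs hRR hJ, by omega⟩
      · have hR := h3 (by omega)
        rcases c with _ | c
        · left
          have := rel_zero hR
          rw [← this, ← sP_eq]
        · right
          exact ⟨i, c, (Set.ncard_le_ncard hsub).trans h1, by omega,
            fun _ => stepB hd1 hd hcs hR hJ, by omega⟩

end step

section words

theorem zw_add (n : ℕ) : ∀ i, Zw n ++ ((Zw i).map (n + ·)).flatMap (fun c => c :: Zw n) = Zw (n + i)
  | 0 => by simp [Zw]
  | i+1 => by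
    have ih := zw_add n i
    have e1 : Zw (n + (i + 1)) = Zw (n + i) ++ (n + i) :: Zw (n + i) := rfl
    rw [e1, ← ih]
    show Zw n ++ ((Zw i ++ i :: Zw i).map (n + ·)).flatMap (fun c => c :: Zw n) = _
    rw [List.map_append, List.map_cons, List.flatMap_append, List.flatMap_cons]
    simp only [List.append_assoc, List.cons_append]

theorem le_length : ∀ i, i ≤ (Zw i).length
  | 0 => Nat.zero_le _
  | i+1 => by
    show i + 1 ≤ (Zw i ++ i :: Zw i).length
    have := le_length i
    simp only [List.length_append, List.length_cons]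
    omega

/-- the word sequences -/
def wP (i : ℕ) (j : ℕ) : List ℕ := Zw (1 + j * i)

def wQ (d i : ℕ) : ℕ → List ℕ
  | 0 => List.replicate (1 + d) 0
  | j+1 => wP i j ++ (((Zw i).map ((1 + j * i) + ·)).take d).flatMap (fun c => c :: wQ d i j) ++
      (((Zw i).map ((1 + j * i) + ·)).drop d).flatMap (fun c => c :: wP i j)

theorem wP_succ (i j : ℕ) : wP i (j+1) =
    wP i j ++ ((Zw i).map ((1 + j * i) + ·)).flatMap (fun c => c :: wP i j) := by
  unfold wP
  rw [zw_add, show 1 + (j+1) * i = 1 + j * i + i by ring]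

theorem wQ_factor (d i : ℕ) (hd : 1 ≤ d) (hi : 1 ≤ i) :
    ∀ j, ∃ A B, wQ d i j = A ++ List.replicate (1 + d) 0 ++ B
  | 0 => ⟨[], [], by simp [wQ]⟩
  | j+1 => by
    obtain ⟨A, B, h⟩ := wQ_factor d i hd hi j
    have h1 : ∃ c r, ((Zw i).map ((1 + j * i) + ·)).take d = c :: r := by
      cases h : ((Zw i).map ((1 + j * i) + ·)).take d with
      | nil =>
        have := congrArg List.length h
        have h2 := le_length i
        simp only [List.length_take, List.length_map, List.length_nil] at this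
        omega
      | cons c r => exact ⟨c, r, rfl⟩
    obtain ⟨c, r, hcr⟩ := h1
    refine ⟨wP i j ++ c :: A, B ++ r.flatMap (fun c => c :: wQ d i j) ++
      (((Zw i).map ((1 + j * i) + ·)).drop d).flatMap (fun c => c :: wP i j), ?_⟩
    show wP i j ++ (((Zw i).map ((1 + j * i) + ·)).take d).flatMap (fun c => c :: wQ d i j) ++
      (((Zw i).map ((1 + j * i) + ·)).drop d).flatMap (fun c => c :: wP i j) = _
    rw [hcr, List.flatMap_cons]
    generalize hF : r.flatMap (fun c => c :: wQ d i j) = F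
    rw [h]
    simp only [List.append_assoc, List.cons_append]

variable {M : Type} [Monoid M]

theorem ev_flatMap (f : ℕ → M) (P : List ℕ) : ∀ L : List ℕ,
    ((L.flatMap (fun c => c :: P)).map f).prod =
      ((L.map f).map (fun c => c * (P.map f).prod)).prod
  | [] => by simp
  | c :: L => by
    rw [List.flatMap_cons, List.map_append, List.prod_append, ev_flatMap f P L]
    simp

theorem ev_P (f : ℕ → M) (i j : ℕ) : ((wP i (j+1)).map f).prod =
    sP (((Zw i).map ((1 + j * i) + ·)).map f) ((wP i j).map f).prod := by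
  rw [wP_succ, List.map_append, List.prod_append, ev_flatMap]
  rfl

theorem ev_Q (f : ℕ → M) (d i j : ℕ) : ((wQ d i (j+1)).map f).prod =
    sQ d (((Zw i).map ((1 + j * i) + ·)).map f) ((wP i j).map f).prod ((wQ d i j).map f).prod := by
  show ((wP i j ++ (((Zw i).map ((1 + j * i) + ·)).take d).flatMap (fun c => c :: wQ d i j) ++
      (((Zw i).map ((1 + j * i) + ·)).drop d).flatMap (fun c => c :: wP i j)).map f).prod = _
  rw [List.map_append, List.prod_append, List.map_append, List.prod_append, ev_flatMap, ev_flatMap,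
    List.map_take, List.map_drop]
  rfl

end words

end J5

open J5 in
/-- Sapir's condition implies a nontrivial identity `Zw n = W` of a special kind -/
theorem zimin_of_PP (M : Type) [Monoid M] [Finite M] (d : ℕ) (hd1 : 1 ≤ d)
    (hd : ∀ x : M, x ^ d = x ^ (2 * d)) (h : PP M d) :
    ∃ (n : ℕ) (A B : List ℕ), 1 ≤ n ∧ Sat M (Zw n) (A ++ List.replicate (1 + d) 0 ++ B) := by
  obtain ⟨C, hC⟩ : ∃ C : ℕ, ∀ e x : M, e * e = e → (∃ k, Zt e k x) → Zt e C x := by
    classical
    have := Fintype.ofFinite M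
    let F : M × M → ℕ := fun v => if h : ∃ k, Zt v.1 k v.2 then Classical.choose h else 0
    refine ⟨Finset.univ.sup F, fun e x he hk => ?_⟩
    have h1 : Zt e (F (e, x)) x := by
      have : F (e, x) = Classical.choose hk := dif_pos hk
      rw [this]
      exact Classical.choose_spec hk
    exact zt_mono he (Finset.le_sup (f := F) (Finset.mem_univ (e, x))) h1
  set N := Nat.card M * (C + 2) + C + 1 with hN
  set i := d + 1 with hi
  obtain ⟨A, B, hAB⟩ := wQ_factor d i hd1 (by omega) N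
  refine ⟨1 + N * i, A, B, by omega, ?_⟩
  intro f
  rw [← hAB]
  show ((wP i N).map f).prod = _
  have key : ∀ j, j ≤ N → Pot C (N - j) ((wP i j).map f).prod ((wQ d i j).map f).prod := by
    intro j
    induction j with
    | zero =>
      intro _
      rw [Nat.sub_zero, hN]
      apply pot_init
      have e1 : ((wP i 0).map f).prod = f 0 := by simp [wP, Zw]
      have e2 : ((wQ d i 0).map f).prod = f 0 ^ (1 + d) := by
        simp [wQ, List.map_replicate, List.prod_replicate]
      rw [e1, e2]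
      exact rr_pow h (f 0)
    | succ j ih =>
      intro hj
      have h1 := ih (by omega)
      rw [show N - j = (N - (j+1)) + 1 by omega] at h1
      rw [ev_P, ev_Q]
      refine pot_step hd1 hd hC ?_ h1
      rw [List.length_map, List.length_map]
      exact le_length i
  have := key N le_rfl
  rw [Nat.sub_self] at this
  exact pot_zero this

end SJ5
end Pool.Agent.INFB
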