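import Pool.Agent.INFB.Defs

set_option autoImplicit false

namespace Pool.Agent.INFB
namespace SJ6




/-- the local monoid -/
def Cor {M : Type} [Monoid M] (e : M) (_ : e * e = e) : Type := {x : M // e * x = x ∧ x * e = x}

instance {M : Type} [Monoid M] (e : M) (he : e * e = e) : Monoid (Cor e he) where
  mul x y := ⟨x.1 * y.1, by rw [← mul_assoc, x.2.1], by rw [mul_assoc, y.2.2]⟩
  one := ⟨e, he, he⟩
  mul_assoc x y z := Subtype.ext (mul_assoc x.1 y.1 z.1)
  one_mul x := Subtype.ext x.2.1
  mul_one x := Subtype.ext x.2.2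

instance {M : Type} [Monoid M] [Finite M] (e : M) (he : e * e = e) : Finite (Cor e he) :=
  inferInstanceAs (Finite {x : M // e * x = x ∧ x * e = x})

theorem Cor.mul_val {M : Type} [Monoid M] (e : M) (he : e * e = e) (x y : Cor e he) :
    (x * y).1 = x.1 * y.1 := rfl

theorem Cor.one_val {M : Type} [Monoid M] (e : M) (he : e * e = e) : (1 : Cor e he).1 = e := rfl

theorem one_comm {C : Type} [Monoid C] [Finite C] {a b : C} (h : a * b = 1) : b * a = 1 := by
  have hinj : Function.Injective (fun x : C => b * x) := by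
    intro x y hxy
    have := congrArg (fun z => a * z) hxy
    simpa only [← mul_assoc, h, one_mul] using this
  obtain ⟨c, hc⟩ := (Finite.injective_iff_surjective.1 hinj) 1
  have hc' : b * c = 1 := hc
  have : a = c := by
    calc a = a * (b * c) := by rw [hc', mul_one]
      _ = c := by rw [← mul_assoc, h, one_mul]
  rw [this]
  exact hc'

/-- the value of a word -/
def vl {Λ C : Type} [Monoid C] (f : Λ → C) (w : List Λ) : C := (w.map f).prod

theorem vl_append {Λ C : Type} [Monoid C] (f : Λ → C) (w w' : List Λ) :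
    vl f (w ++ w') = vl f w * vl f w' := by simp [vl]

theorem vl_single {Λ C : Type} [Monoid C] (f : Λ → C) (a : Λ) : vl f [a] = f a := by simp [vl]

theorem vl_rep {Λ C : Type} [Monoid C] (f : Λ → C) (w : List Λ) (n : ℕ) :
    vl f (List.replicate n w).flatten = vl f w ^ n := by
  induction n with
  | zero => simp [vl]
  | succ n ih => rw [List.replicate_succ, List.flatten_cons, vl_append, ih, pow_succ']

/-- formal inverse -/
def iv {Λ : Type} (d : ℕ) (w : List Λ) : List Λ := (List.replicate (2 * d - 1) w).flatten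

theorem vl_iv {Λ H : Type} [Group H] {d : ℕ} (hd1 : 1 ≤ d) (hH : ∀ h : H, h ^ d = 1) (f : Λ → H)
    (w : List Λ) : vl f (iv d w) = (vl f w)⁻¹ := by
  unfold iv
  rw [vl_rep, eq_inv_iff_mul_eq_one, ← pow_succ]
  have : 2 * d - 1 + 1 = d * 2 := by omega
  rw [this, pow_mul, hH, one_pow]

/-- formal commutator -/
def cm {Λ : Type} (d : ℕ) (a b : List Λ) : List Λ := a ++ b ++ iv d a ++ iv d b

theorem vl_foldl {Λ H : Type} [Group H] {d : ℕ} (hd1 : 1 ≤ d) (hH : ∀ h : H, h ^ d = 1) (f : Λ → H)
    (L : List (List Λ)) : ∀ w : List Λ, vl f (L.foldl (cm d) w)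
      = (L.map (vl f)).foldl (fun a b => a * b * a⁻¹ * b⁻¹) (vl f w) := by
  induction L with
  | nil => intro w; rfl
  | cons b L ih =>
    intro w
    rw [List.foldl_cons, ih, List.map_cons, List.foldl_cons]
    congr 1
    unfold cm
    rw [vl_append, vl_append, vl_append, vl_iv hd1 hH, vl_iv hd1 hH]

theorem foldl_one {H : Type} [Group H] (L : List H) :
    L.foldl (fun a b => a * b * a⁻¹ * b⁻¹) (1 : H) = 1 := by
  induction L with
  | nil => rfl
  | cons b L ih =>
    rw [List.foldl_cons]
    have : (1 : H) * b * 1⁻¹ * b⁻¹ = 1 := by group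
    rw [this, ih]

theorem foldl_mem_one {H : Type} [Group H] (L : List H) (h : (1 : H) ∈ L) :
    ∀ z : H, L.foldl (fun a b => a * b * a⁻¹ * b⁻¹) z = 1 := by
  induction L with
  | nil => simp at h
  | cons b L ih =>
    intro z
    rw [List.foldl_cons]
    rcases List.mem_cons.1 h with h1 | h1
    · rw [← h1]
      have : z * 1 * z⁻¹ * (1 : H)⁻¹ = 1 := by group
      rw [this, foldl_one]
    · exact ih h1 _

/-- the alphabet -/
abbrev Al (N : ℕ) : Type := Option (Fin (N + 1) ⊕ (Fin (N + 1) × Fin (N + 1)))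

/-- the list of pairs -/
abbrev prs (N : ℕ) : List (Fin (N + 1) × Fin (N + 1)) :=
  ((List.finRange (N + 1)) ×ˢ (List.finRange (N + 1))).filter (fun p => decide (p.1 < p.2))

/-- the iterated commutator as a word -/
def sg (N d : ℕ) : List (Al N) :=
  ((prs N).map (fun p => [some (Sum.inr p)] ++ ([some (Sum.inl p.1)] ++ iv d [some (Sum.inl p.2)]) ++
    iv d [some (Sum.inr p)])).foldl (cm d) [none]

theorem vl_sg {H : Type} [Group H] {N d : ℕ} (hd1 : 1 ≤ d) (hH : ∀ h : H, h ^ d = 1)
    (f : Al N → H) : vl f (sg N d) = ((prs N).map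
      (fun p => f (some (Sum.inr p)) * (f (some (Sum.inl p.1)) * (f (some (Sum.inl p.2)))⁻¹)
        * (f (some (Sum.inr p)))⁻¹)).foldl (fun a b => a * b * a⁻¹ * b⁻¹) (f none) := by
  unfold sg
  rw [vl_foldl hd1 hH, vl_single, List.map_map]
  congr 1
  refine List.map_congr_left fun p _ => ?_
  simp only [Function.comp]
  rw [vl_append, vl_append, vl_append, vl_iv hd1 hH, vl_iv hd1 hH, vl_single, vl_single, vl_single]

theorem vl_sg_one {H : Type} [Group H] {N d : ℕ} (hd1 : 1 ≤ d) (hH : ∀ h : H, h ^ d = 1)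
    (f : Al N → H) (hf : ∃ i j, i ≠ j ∧ f (some (Sum.inl i)) = f (some (Sum.inl j))) :
    vl f (sg N d) = 1 := by
  rw [vl_sg hd1 hH]
  refine foldl_mem_one _ ?_ _
  obtain ⟨i, j, hij, hlt⟩ : ∃ i j, f (some (Sum.inl i)) = f (some (Sum.inl j)) ∧ i < j := by
    obtain ⟨i, j, hne, h⟩ := hf
    rcases lt_or_gt_of_ne hne with h1 | h1
    · exact ⟨i, j, h, h1⟩
    · exact ⟨j, i, h.symm, h1⟩
  rw [List.mem_map]
  refine ⟨(i, j), ?_, ?_⟩
  · rw [List.mem_filter]
    refine ⟨?_, by simpa using hlt⟩
    exact List.mem_product.2 ⟨List.mem_finRange _, List.mem_finRange _⟩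
  · simp only [hij]
    group

/-- a word which is divisible by every word, for all evaluations -/
theorem exists_U {M : Type} [Monoid M] [Finite M] (Λ : Type) [Finite Λ] :
    ∃ U : List Λ, ∀ (f : Λ → M) (w : List Λ), ∃ p s : List Λ, vl f U = vl f p * vl f w * vl f s := by
  classical
  have : Fintype M := Fintype.ofFinite M
  have : Fintype Λ := Fintype.ofFinite Λ
  have key : ∀ L : List ((Λ → M) × M), ∃ U : List Λ, ∀ q ∈ L, ∀ w : List Λ, vl q.1 w = q.2 →
      ∃ p s : List Λ, vl q.1 U = vl q.1 p * vl q.1 w * vl q.1 s := by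
    intro L
    induction L with
    | nil => exact ⟨[], by simp⟩
    | cons q L ih =>
      obtain ⟨U, hU⟩ := ih
      by_cases hq : ∃ w0 : List Λ, vl q.1 w0 = q.2
      · obtain ⟨w0, hw0⟩ := hq
        refine ⟨w0 ++ U, ?_⟩
        intro q' hq' w hw
        rcases List.mem_cons.1 hq' with rfl | h1
        · exact ⟨[], U, by rw [vl_append, hw0, hw]; simp [vl]⟩
        · obtain ⟨p, s, hps⟩ := hU q' h1 w hw
          exact ⟨w0 ++ p, s, by rw [vl_append, hps, vl_append]; simp only [mul_assoc]⟩
      · refine ⟨U, ?_⟩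
        intro q' hq' w hw
        rcases List.mem_cons.1 hq' with rfl | h1
        · exact absurd ⟨w, hw⟩ hq
        · exact hU q' h1 w hw
  obtain ⟨U, hU⟩ := key (Finset.univ : Finset ((Λ → M) × M)).toList
  exact ⟨U, fun f w => hU (f, vl f w) (by simp) w rfl⟩

theorem vl_flatMap {Λ C : Type} [Monoid C] (f : Λ → C) (E w : List Λ) :
    vl f (w.flatMap (fun a => E ++ [a] ++ E)) = vl (fun a => vl f E * f a * vl f E) w := by
  induction w with
  | nil => simp [vl]
  | cons a w ih =>
    rw [List.flatMap_cons, vl_append, ih, vl_append, vl_append, vl_single]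
    simp [vl]

/-- values in the local monoid -/
theorem vl_cor {Λ M : Type} [Monoid M] (e : M) (he : e * e = e) (X : Λ → (Cor e he)ˣ)
    (w : List Λ) : e * vl (fun a => (X a).1.1) w = (vl X w).1.1 := by
  induction w with
  | nil =>
    simp only [vl, List.map_nil, List.prod_nil, mul_one]
    rfl
  | cons a w ih =>
    have h1 : vl (fun a => (X a).1.1) (a :: w) = (X a).1.1 * vl (fun a => (X a).1.1) w := by
      simp [vl]
    have h2 : vl X (a :: w) = X a * vl X w := by simp [vl]
    rw [h1, h2, Units.val_mul, Cor.mul_val, ← ih, ← mul_assoc, ← mul_assoc, (X a).1.2.1,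
      (X a).1.2.2]

/-- an identity of `M` which forces the iterated commutator law in groups -/
theorem exists_law (M : Type) [Monoid M] [Finite M] (N d : ℕ) (hN : Nat.card M ≤ N) (hd1 : 1 ≤ d)
    (hd : ∀ x : M, x ^ d = x ^ (2 * d)) :
    ∃ u v : List ℕ, Sat M u v ∧
      ∀ (G : Type) [Group G], (∀ g : G, g ^ d = 1) → Sat G u v → GLaw G N := by
  classical
  obtain ⟨U, hU⟩ := exists_U (M := M) (Al N)
  obtain ⟨E, hE⟩ : ∃ E : List (Al N), E = (List.replicate d U).flatten := ⟨_, rfl⟩
  let enc : Al N → ℕ := Encodable.encode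
  have henc : Function.Injective enc := Encodable.encode_injective
  have hmap : ∀ (C : Type) [Monoid C] (f : ℕ → C) (w : List (Al N)),
      ((w.map enc).map f).prod = vl (fun a => f (enc a)) w := by
    intro C _ f w
    rw [List.map_map]
    rfl
  refine ⟨(E ++ (sg N d).flatMap (fun a => E ++ [a] ++ E)).map enc, E.map enc, ?_, ?_⟩
  · intro f0
    rw [hmap, hmap]
    obtain ⟨f, hf⟩ : ∃ f : Al N → M, f = fun a => f0 (enc a) := ⟨_, rfl⟩
    rw [← hf, vl_append, vl_flatMap]
    obtain ⟨e, hee⟩ : ∃ e, e = vl f E := ⟨_, rfl⟩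
    rw [← hee]
    have hev : e = vl f U ^ d := by rw [hee, hE, vl_rep]
    have he : e * e = e := by
      rw [hev, ← pow_add, ← two_mul, ← hd]
    -- the elements are units
    have hunit : ∀ a, ∃ X : (Cor e he)ˣ, X.1.1 = e * f a * e := by
      intro a
      let x : Cor e he := ⟨e * f a * e, by rw [← mul_assoc, ← mul_assoc, he],
        by rw [mul_assoc, he]⟩
      obtain ⟨p, s, hps⟩ := hU f (E ++ [a] ++ E)
      rw [vl_append, vl_append, vl_single, ← hee] at hps
      obtain ⟨n, rfl⟩ : ∃ n, d = n + 1 := ⟨d - 1, by omega⟩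
      have h1 : e = vl f p * (e * f a * e) * (vl f s * vl f U ^ n) := by
        calc e = vl f U * vl f U ^ n := by rw [hev, pow_succ']
          _ = (vl f p * (e * f a * e) * vl f s) * vl f U ^ n := by rw [← hps]
          _ = _ := by simp only [mul_assoc]
      obtain ⟨b, hb⟩ : ∃ b, b = vl f p := ⟨_, rfl⟩
      obtain ⟨c, hc⟩ : ∃ c, c = vl f s * vl f U ^ n := ⟨_, rfl⟩
      rw [← hb, ← hc] at h1
      let B : Cor e he := ⟨e * b * e, by rw [← mul_assoc, ← mul_assoc, he], by rw [mul_assoc, he]⟩
      let D : Cor e he := ⟨e * c * e, by rw [← mul_assoc, ← mul_assoc, he], by rw [mul_assoc, he]⟩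
      have h2 : B * (x * D) = 1 := by
        apply Subtype.ext
        show (e * b * e) * ((e * f a * e) * (e * c * e)) = e
        have h3 : (e * b * e) * ((e * f a * e) * (e * c * e))
            = e * (b * (e * f a * e) * c) * e := by
          have e1 : ∀ z : M, e * (e * z) = e * z := fun z => by rw [← mul_assoc, he]
          simp only [mul_assoc, e1]
        rw [h3, ← h1, he, he]
      have h3 : (x * D) * B = 1 := one_comm h2
      have h4 : x * (D * B) = 1 := by rw [← mul_assoc]; exact h3
      have h5 : (D * B) * x = 1 := one_comm h4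
      exact ⟨⟨x, D * B, h4, h5⟩, rfl⟩
    choose X hX using hunit
    have h1 : (fun a => e * f a * e) = fun a => (X a).1.1 := funext fun a => (hX a).symm
    rw [h1, vl_cor e he X]
    have hH : ∀ h : (Cor e he)ˣ, h ^ d = 1 := by
      intro h
      have hpow : ∀ n : ℕ, 1 ≤ n → (h ^ n).1.1 = h.1.1 ^ n := by
        intro n hn
        induction n, hn using Nat.le_induction with
        | base => simp
        | succ n hn ih => rw [pow_succ, Units.val_mul, Cor.mul_val, ih, pow_succ]
      have h2 : h ^ d = h ^ (2 * d) := by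
        apply Units.ext
        apply Subtype.ext
        rw [hpow d hd1, hpow (2 * d) (by omega), hd]
      have h3 : h ^ d * h ^ d = h ^ d * 1 := by
        rw [mul_one, ← pow_add, ← two_mul, ← h2]
      exact mul_left_cancel h3
    have hpig : ∃ i j, i ≠ j ∧ X (some (Sum.inl i)) = X (some (Sum.inl j)) := by
      by_contra hcon
      push Not at hcon
      have hinj : Function.Injective (fun i : Fin (N + 1) => (X (some (Sum.inl i))).1.1) := by
        intro i j hij
        by_contra hne
        exact hcon i j hne (Units.ext (Subtype.ext hij))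
      have := Nat.card_le_card_of_injective _ hinj
      rw [Nat.card_eq_fintype_card, Fintype.card_fin] at this
      omega
    rw [vl_sg_one hd1 hH X hpig]
    rfl
  · intro G _ hG hsat z x y
    obtain ⟨g, hg⟩ : ∃ g : Al N → G, g = fun a => match a with
      | none => z
      | some (Sum.inl i) => x i
      | some (Sum.inr p) => y p := ⟨_, rfl⟩
    have hs := hsat (Function.extend enc g (fun _ => 1))
    rw [hmap, hmap] at hs
    have hext : (fun a => Function.extend enc g (fun _ => 1) (enc a)) = g :=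
      funext fun a => henc.extend_apply _ _ _
    rw [hext, vl_append, vl_flatMap, hE, vl_rep, hG] at hs
    simp only [one_mul, mul_one] at hs
    rw [vl_sg hd1 hG] at hs
    rw [hg] at hs
    exact hs

end SJ6
end Pool.Agent.INFB
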