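import Pool.Agent.INFB.Defs

set_option autoImplicit false

namespace Pool.Agent.INFB
namespace SJ9



/-- the Rees congruence of a factor closed set of words -/
def reesCon {A : Type} (Fac : Set (List A))
    (hsub : ∀ x y z : List A, x ++ y ++ z ∈ Fac → y ∈ Fac) : Con (FreeMonoid A) where
  r w w' := w = w' ∨ (FreeMonoid.toList w ∉ Fac ∧ FreeMonoid.toList w' ∉ Fac)
  iseqv := by
    refine ⟨fun w => Or.inl rfl, ?_, ?_⟩
    · rintro x y (h | ⟨h1, h2⟩)
      · exact Or.inl h.symm
      · exact Or.inr ⟨h2, h1⟩
    · rintro x y z (h | ⟨h1, h2⟩) (h' | ⟨h3, h4⟩)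
      · exact Or.inl (h.trans h')
      · subst h; exact Or.inr ⟨h3, h4⟩
      · subst h'; exact Or.inr ⟨h1, h2⟩
      · exact Or.inr ⟨h1, h4⟩
  mul' := by
    have hl : ∀ x y : FreeMonoid A, FreeMonoid.toList x ∉ Fac → FreeMonoid.toList (x * y) ∉ Fac := by
      intro x y h h'
      apply h
      apply hsub [] _ (FreeMonoid.toList y)
      simpa using h'
    have hr : ∀ x y : FreeMonoid A, FreeMonoid.toList y ∉ Fac → FreeMonoid.toList (x * y) ∉ Fac := by
      intro x y h h'
      apply h
      apply hsub (FreeMonoid.toList x) _ []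
      simpa using h'
    rintro w x y z (h | ⟨h1, h2⟩) (h' | ⟨h3, h4⟩)
    · exact Or.inl (by rw [h, h'])
    · exact Or.inr ⟨hr _ _ h3, hr _ _ h4⟩
    · exact Or.inr ⟨hl _ _ h1, hl _ _ h2⟩
    · exact Or.inr ⟨hl _ _ h1, hl _ _ h2⟩

/-- a factor closed set of arbitrarily long words over a finite alphabet gives an infinite finitely
generated monoid which satisfies all the identities that act trivially on the set -/
theorem exists_infinite_monoid {A : Type} [Finite A] (Fac : Set (List A))
    (hsub : ∀ x y z : List A, x ++ y ++ z ∈ Fac → y ∈ Fac)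
    (hinf : ∀ L : ℕ, ∃ w ∈ Fac, L ≤ w.length) :
    ∃ (N : Type) (_ : Monoid N), Monoid.FG N ∧ ¬ Finite N ∧
      ∀ u v : List ℕ,
        (∀ φ : ℕ → List A, u.flatMap φ ∈ Fac → v.flatMap φ = u.flatMap φ) →
        (∀ φ : ℕ → List A, v.flatMap φ ∈ Fac → u.flatMap φ = v.flatMap φ) →
        Sat N u v := by
  classical
  let c := reesCon Fac hsub
  have hc : ∀ x y : FreeMonoid A, c x y ↔
      (x = y ∨ (FreeMonoid.toList x ∉ Fac ∧ FreeMonoid.toList y ∉ Fac)) := fun x y => Iff.rfl
  refine ⟨c.Quotient, inferInstance, ?_, ?_, ?_⟩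
  · have : Monoid.FG (FreeMonoid A) := by
      infer_instance
    exact Monoid.fg_of_surjective c.mk' c.mk'_surjective
  · intro hfin
    choose w hw hwl using hinf
    -- choose a sequence of words of increasing lengths
    let f : ℕ → ℕ := fun n => Nat.rec 0 (fun _ m => (w m).length + 1) n
    have hf : ∀ n, f (n + 1) = (w (f n)).length + 1 := fun n => rfl
    have hmono : StrictMono (fun n => (w (f n)).length) := by
      apply strictMono_nat_of_lt_succ
      intro n
      have h1 := hwl (f (n + 1))
      have h2 := hf n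
      show (w (f n)).length < (w (f (n + 1))).length
      omega
    have hinj : Function.Injective (fun n : ℕ => c.mk' (FreeMonoid.ofList (w (f n)))) := by
      intro a b hab
      have h1 : c (FreeMonoid.ofList (w (f a))) (FreeMonoid.ofList (w (f b))) := by
        exact (Con.eq c).1 hab
      rcases (hc _ _).1 h1 with h | ⟨h, _⟩
      · have h2 : w (f a) = w (f b) := FreeMonoid.ofList.injective h
        apply hmono.injective
        show (w (f a)).length = (w (f b)).length
        rw [h2]
      · exact absurd (hw (f a)) h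
    exact not_finite_iff_infinite.2 (Infinite.of_injective _ hinj) hfin
  · intro u v hu hv g
    have hs := c.mk'_surjective
    choose l hl using hs
    let φ : ℕ → List A := fun n => FreeMonoid.toList (l (g n))
    have key : ∀ u : List ℕ, (u.map g).prod = c.mk' (FreeMonoid.ofList (u.flatMap φ)) := by
      intro u
      induction u with
      | nil => simp
      | cons a t ih =>
        rw [List.map_cons, List.prod_cons, ih, List.flatMap_cons, FreeMonoid.ofList_append, map_mul]
        congr 1
        show g a = c.mk' (l (g a))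
        rw [hl]
    rw [key, key]
    by_cases h1 : u.flatMap φ ∈ Fac
    · rw [hu φ h1]
    · by_cases h2 : v.flatMap φ ∈ Fac
      · rw [hv φ h2]
      · exact (Con.eq c).2 ((hc _ _).2 (Or.inr ⟨h1, h2⟩))

end SJ9
end Pool.Agent.INFB
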