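import Pool.Agent.INFB.J1
import Pool.Agent.INFB.J2
import Pool.Agent.INFB.J3
import Pool.Agent.INFB.J4
import Pool.Agent.INFB.J5
import Pool.Agent.INFB.J6
import Pool.Agent.INFB.J9
import Pool.Agent.INFB.J10
import Pool.Agent.INFB.J12
import Pool.Agent.INFB.Bem3

/-!
Sapir's condition characterizes the inherently non-finitely based finite monoids.
-/

set_option autoImplicit false

namespace Pool.Agent.INFB

open SJ1 SJ2 SJ3 SJ4 SJ5 SJ6 SJ9 SJ12

/-- Sapir's condition: the monoid lies in a finitely based locally finite variety. -/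
theorem finite_basis_of_PP (M : Type) [Monoid M] [Finite M] (h : PP M (Nat.card M).factorial) :
    ∃ F : Finset (List ℕ × List ℕ), (∀ p ∈ F, Sat M p.1 p.2) ∧
      ∀ (N : Type) [Monoid N], (∀ p ∈ F, Sat N p.1 p.2) → Monoid.FG N → Finite N := by
  classical
  set d := (Nat.card M).factorial with hd
  have hd1 : 1 ≤ d := Nat.factorial_pos _
  have hdd : ∀ x : M, x ^ d = x ^ (2 * d) := pow_factorial_idem M
  obtain ⟨n, A, B, hn, hZ⟩ := zimin_of_PP M d hd1 hdd h
  obtain ⟨u, v, huv, hlaw⟩ := exists_law M (Nat.card M) d le_rfl hd1 hdd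
  have hpow : ∀ (N : Type) [Monoid N] (x : N) (k : ℕ),
      ((List.replicate k 0).map (fun _ : ℕ => x)).prod = x ^ k := by
    intro N _ x k
    simp
  have hpow2 : ∀ (N : Type) [Monoid N],
      Sat N (List.replicate d 0) (List.replicate (2 * d) 0) ↔ ∀ x : N, x ^ d = x ^ (2 * d) := by
    intro N _
    constructor
    · intro h x
      have := h (fun _ => x)
      rwa [hpow, hpow] at this
    · intro h f
      simp only [List.map_replicate, List.prod_replicate]
      exact h (f 0)
  refine ⟨{(List.replicate d 0, List.replicate (2 * d) 0),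
    (Zw n, A ++ List.replicate (1 + d) 0 ++ B), (u, v)}, ?_, ?_⟩
  · intro p hp
    simp only [Finset.mem_insert, Finset.mem_singleton] at hp
    rcases hp with rfl | rfl | rfl
    · exact (hpow2 M).2 hdd
    · exact hZ
    · exact huv
  · intro N _ hN hfg
    refine locally_finite ↑({(List.replicate d 0, List.replicate (2 * d) 0),
      (Zw n, A ++ List.replicate (1 + d) 0 ++ B), (u, v)} : Finset (List ℕ × List ℕ)) d n hd1 hn A B
      ?_ ?_ ?_ zimin_unavoidable N ?_ hfg
    · intro N _ hF
      exact (hpow2 N).1 (hF (List.replicate d 0, List.replicate (2 * d) 0) (by simp))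
    · intro N _ hF
      exact hF (Zw n, A ++ List.replicate (1 + d) 0 ++ B) (by simp)
    · intro G _ hF hfgG
      have h1 : ∀ g : G, g ^ d = 1 := by
        intro g
        have h2 := (hpow2 G).1 (hF (List.replicate d 0, List.replicate (2 * d) 0) (by simp)) g
        rw [two_mul, pow_add] at h2
        exact (mul_eq_left.1 h2.symm)
      exact group_finite G hfgG (Nat.card M) d hd1 h1 (hlaw G h1 (hF (u, v) (by simp)))
    · intro p hp
      exact hN p (by exact_mod_cast hp)

/-- the identities of a monoid which violates Sapir's condition -/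
theorem theory_of_not_PP (M : Type) [Monoid M] [Finite M]
    (h : ¬ PP M (Nat.card M).factorial) : Theory (Sat M) := by
  refine ⟨?_, ?_, ?_⟩
  · intro u v θ huv f
    have h1 := huv (fun x => ((θ x).map f).prod)
    have e : ∀ w : List ℕ, ((w.flatMap θ).map f).prod =
        (w.map (fun x => ((θ x).map f).prod)).prod := by
      intro w
      induction w with
      | nil => simp
      | cons a w ih => simp [ih]
    rw [e, e, h1]
  · intro u v x y huv f
    simp [huv f]
  · intro n W hW
    by_contra hne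
    exact h (PP_of_zimin M _ (Nat.factorial_pos _) (pow_factorial_idem M) n W hW hne)

theorem infinite_of_not_PP (M : Type) [Monoid M] [Finite M]
    (h : ¬ PP M (Nat.card M).factorial) (F : Finset (List ℕ × List ℕ))
    (hF : ∀ p ∈ F, Sat M p.1 p.2) :
    ∃ (N : Type) (_ : Monoid N), Monoid.FG N ∧ ¬ Finite N ∧ ∀ p ∈ F, Sat N p.1 p.2 := by
  classical
  have T := theory_of_not_PP M h
  let n := F.sup (fun p => p.1.toFinset.card + p.2.toFinset.card)
  obtain ⟨A, hA, Fac, h1, h2, h3⟩ := exists_fac T n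
  obtain ⟨N, hN, hfg, hinf, hsat⟩ := exists_infinite_monoid Fac h1 h2
  refine ⟨N, hN, hfg, hinf, ?_⟩
  intro p hp
  have hle : p.1.toFinset.card + p.2.toFinset.card ≤ n :=
    Finset.le_sup (f := fun p : List ℕ × List ℕ => p.1.toFinset.card + p.2.toFinset.card) hp
  apply hsat p.1 p.2
  · intro φ hφ
    exact h3 p.1 p.2 (by omega) (hF p hp) φ hφ
  · intro φ hφ
    exact h3 p.2 p.1 (by omega) (fun f => (hF p hp f).symm) φ hφ

/-- satisfaction of identities in the free monoid form -/
theorem sat_free (N : Type) [Monoid N] (p : FreeMonoid ℕ × FreeMonoid ℕ) :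
    (∀ g : ℕ → N, FreeMonoid.lift g p.1 = FreeMonoid.lift g p.2) ↔
      Sat N (FreeMonoid.toList p.1) (FreeMonoid.toList p.2) := by
  simp only [FreeMonoid.lift_apply, Sat]

/-- **the characterization** -/
theorem infb_iff (M : Type) [Monoid M] [Finite M] :
    (∀ Sig : Set (FreeMonoid ℕ × FreeMonoid ℕ),
      (∀ p ∈ Sig, Sat M (FreeMonoid.toList p.1) (FreeMonoid.toList p.2)) →
      (∀ (N : Type) [Monoid N],
        (∀ p ∈ Sig, ∀ g : ℕ → N, FreeMonoid.lift g p.1 = FreeMonoid.lift g p.2) →
        Monoid.FG N → Finite N) →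
      ¬ ∃ F : Finset (FreeMonoid ℕ × FreeMonoid ℕ), ∀ (N : Type) [Monoid N],
        ((∀ p ∈ F, ∀ g : ℕ → N, FreeMonoid.lift g p.1 = FreeMonoid.lift g p.2) ↔
          (∀ p ∈ Sig, ∀ g : ℕ → N, FreeMonoid.lift g p.1 = FreeMonoid.lift g p.2))) ↔
    ¬ PP M (Nat.card M).factorial := by
  classical
  constructor
  · intro h hPP
    obtain ⟨F, hF1, hF2⟩ := finite_basis_of_PP M hPP
    let i : List ℕ × List ℕ → FreeMonoid ℕ × FreeMonoid ℕ :=
      fun p => (FreeMonoid.ofList p.1, FreeMonoid.ofList p.2)
    let F' : Finset (FreeMonoid ℕ × FreeMonoid ℕ) := F.image i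
    refine h (↑F' : Set (FreeMonoid ℕ × FreeMonoid ℕ)) ?_ ?_ ⟨F', ?_⟩
    · intro p hp
      obtain ⟨q, hq, rfl⟩ := Finset.mem_image.1 (Finset.mem_coe.1 hp)
      exact hF1 q hq
    · intro N _ hN hfg
      apply hF2 N _ hfg
      intro q hq
      have := (sat_free N (i q)).1 (hN (i q) (Finset.mem_coe.2 (Finset.mem_image_of_mem i hq)))
      exact this
    · intro N _
      simp only [Finset.mem_coe]
  · rintro h Sig hM hlf ⟨F, hF⟩
    have hMF : ∀ p ∈ F, Sat M (FreeMonoid.toList p.1) (FreeMonoid.toList p.2) := by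
      intro p hp
      rw [← sat_free]
      exact (hF M).2 (fun q hq => (sat_free M q).2 (hM q hq)) p hp
    let j : FreeMonoid ℕ × FreeMonoid ℕ → List ℕ × List ℕ :=
      fun p => (FreeMonoid.toList p.1, FreeMonoid.toList p.2)
    obtain ⟨N, hN, hfg, hinf, hsat⟩ := infinite_of_not_PP M h (F.image j) (by
      intro q hq
      obtain ⟨p, hp, rfl⟩ := Finset.mem_image.1 hq
      exact hMF p hp)
    apply hinf
    apply hlf N _ hfg
    apply (hF N).1
    intro p hp
    rw [sat_free]
    exact hsat (j p) (Finset.mem_image_of_mem j hp)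

end Pool.Agent.INFB
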