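import Pool.Agent.INFB.Main

/-!
From multiplication tables to monoids.
-/

set_option autoImplicit false

namespace Pool.Agent.INFB

open SJ12

/-- the arithmetical data of a multiplication table of a monoid with identity `e` -/
structure TMon (c : ℕ × List ℕ) (e : ℕ) : Prop where
  len : c.2.length = c.1 * c.1
  lt : ∀ x ∈ c.2, x < c.1
  assoc : ∀ a < c.1, ∀ b < c.1, ∀ d < c.1, tmul c (tmul c a b) d = tmul c a (tmul c b d)
  elt : e < c.1
  one : ∀ a < c.1, tmul c e a = a ∧ tmul c a e = a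

namespace TMon

variable {c : ℕ × List ℕ} {e : ℕ}

theorem tmul_lt (h : TMon c e) {a b : ℕ} (ha : a < c.1) (hb : b < c.1) : tmul c a b < c.1 := by
  have h1 : a * c.1 + b < c.2.length := by
    rw [h.len]
    have : (a + 1) * c.1 ≤ c.1 * c.1 := Nat.mul_le_mul_right _ ha
    have h2 : (a + 1) * c.1 = a * c.1 + c.1 := by ring
    omega
  unfold tmul
  rw [List.getD_eq_getElem _ _ h1]
  exact h.lt _ (List.getElem_mem h1)

/-- the underlying type of the monoid of a table -/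
@[ext] structure TM (_ : TMon c e) : Type where
  /-- value -/
  val : ℕ
  /-- bound -/
  lt : val < c.1

instance (h : TMon c e) : Monoid h.TM where
  mul a b := ⟨tmul c a.1 b.1, h.tmul_lt a.2 b.2⟩
  mul_assoc a b d := TM.ext (h.assoc a.1 a.2 b.1 b.2 d.1 d.2)
  one := ⟨e, h.elt⟩
  one_mul a := TM.ext (h.one a.1 a.2).1
  mul_one a := TM.ext (h.one a.1 a.2).2

/-- `TM` is `Fin c.1` -/
def equivFin (h : TMon c e) : h.TM ≃ Fin c.1 where
  toFun a := ⟨a.1, a.2⟩
  invFun a := ⟨a.1, a.2⟩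
  left_inv _ := rfl
  right_inv _ := rfl

instance (h : TMon c e) : Finite h.TM := Finite.of_equiv _ h.equivFin.symm

theorem card_TM (h : TMon c e) : Nat.card h.TM = c.1 := by
  rw [Nat.card_congr h.equivFin]
  simp

theorem val_mul (h : TMon c e) (a b : h.TM) : (a * b).1 = tmul c a.1 b.1 := rfl

theorem val_one (h : TMon c e) : (1 : h.TM).1 = e := rfl

theorem eval (h : TMon c e) (f : ℕ → ℕ) (hf : ∀ i, f i < c.1) (w : List ℕ) :
    w.foldl (fun a x => c.2.getD (a * c.1 + f x) 0) e =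
      ((w.map (fun i => (⟨f i, hf i⟩ : h.TM))).prod).1 := by
  have key : ∀ (w : List ℕ) (a : h.TM),
      w.foldl (fun a x => c.2.getD (a * c.1 + f x) 0) a.1 =
        (a * (w.map (fun i => (⟨f i, hf i⟩ : h.TM))).prod).1 := by
    intro w
    induction w with
    | nil => intro a; simp
    | cons x w ih =>
      intro a
      rw [List.foldl_cons, List.map_cons, List.prod_cons, ← mul_assoc]
      exact ih (a * (⟨f x, hf x⟩ : h.TM))
  have h1 := key w (1 : h.TM)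
  rw [one_mul] at h1
  exact h1

theorem sat_iff (h : TMon c e) (u v : List ℕ) :
    Sat h.TM u v ↔ ∀ f : ℕ → ℕ, (∀ i, f i < c.1) →
      u.foldl (fun a x => c.2.getD (a * c.1 + f x) 0) e =
        v.foldl (fun a x => c.2.getD (a * c.1 + f x) 0) e := by
  constructor
  · intro hs f hf
    rw [h.eval f hf, h.eval f hf]
    exact congrArg TM.val (hs (fun i => ⟨f i, hf i⟩))
  · intro hs f
    have h1 := hs (fun i => (f i).1) (fun i => (f i).2)
    rw [h.eval _ (fun i => (f i).2), h.eval _ (fun i => (f i).2)] at h1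
    exact TM.ext h1

theorem tpow_eq (h : TMon c e) (a : h.TM) (k : ℕ) : tpow c a.1 k = (a ^ (k + 1)).1 := by
  induction k with
  | zero => simp [tpow]
  | succ k ih =>
    rw [tpow, ih, pow_succ a (k + 1), h.val_mul]

theorem un_iff (h : TMon c e) (x y : h.TM) : Un x y ↔ tUn c x.1 y.1 := by
  unfold Un tUn
  constructor
  · rintro ⟨h1, h2, z, h3, h4, h5, h6⟩
    exact ⟨congrArg TM.val h1, congrArg TM.val h2, z.1, z.2, congrArg TM.val h3,
      congrArg TM.val h4, congrArg TM.val h5, congrArg TM.val h6⟩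
  · rintro ⟨h1, h2, z, hz, h3, h4, h5, h6⟩
    exact ⟨TM.ext h1, TM.ext h2, ⟨z, hz⟩, TM.ext h3, TM.ext h4,
      TM.ext h5, TM.ext h6⟩

theorem zt_iff (h : TMon c e) (x : h.TM) (k : ℕ) : ∀ y : h.TM, Zt x k y ↔ tZt c x.1 k y.1 := by
  induction k with
  | zero =>
    intro y
    exact TM.ext_iff
  | succ k ih =>
    intro y
    simp only [Zt, tZt]
    rw [h.un_iff]
    constructor
    · rintro ⟨h1, h2⟩
      refine ⟨h1, ?_⟩
      intro g hg hug
      obtain ⟨z, hz1, hz2⟩ := h2 ⟨g, hg⟩ ((h.un_iff x ⟨g, hg⟩).2 hug)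
      exact ⟨z.1, z.2, (ih z).1 hz1, congrArg TM.val hz2⟩
    · rintro ⟨h1, h2⟩
      refine ⟨h1, ?_⟩
      intro g hug
      obtain ⟨z, hz, hz1, hz2⟩ := h2 g.1 g.2 ((h.un_iff x g).1 hug)
      exact ⟨⟨z, hz⟩, (ih ⟨z, hz⟩).2 hz1, TM.ext hz2⟩

theorem pp_iff (h : TMon c e) : PP h.TM (Nat.card h.TM).factorial ↔ tPP c := by
  have key : ∀ x s u t : h.TM,
      (s * u ^ (1 + c.1.factorial) * t).1 =
        tmul c (tmul c s.1 (tpow c u.1 c.1.factorial)) t.1 := by
    intro x s u t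
    rw [h.val_mul, h.val_mul, h.tpow_eq, add_comm 1]
  rw [h.card_TM]
  unfold PP tPP
  constructor
  · intro hp x hx s hs u hu t ht h1 h2 h3 h4
    have h5 := hp ⟨x, hx⟩ ⟨s, hs⟩ ⟨u, hu⟩ ⟨t, ht⟩ (TM.ext h1) (TM.ext h2)
      (TM.ext h3) (TM.ext h4)
    rw [Zt_stab h.TM _ _ (TM.ext h1), h.card_TM, h.zt_iff, key ⟨x, hx⟩] at h5
    exact h5
  · intro hp x s u t h1 h2 h3 h4
    rw [Zt_stab h.TM _ _ h1, h.card_TM, h.zt_iff, key x]
    exact hp x.1 x.2 s.1 s.2 u.1 u.2 t.1 t.2 (congrArg TM.val h1) (congrArg TM.val h2)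
      (congrArg TM.val h3) (congrArg TM.val h4)

end TMon

/-- the frozen predicate -/
theorem pred_iff (c : ℕ × List ℕ) :
    (c.2.length = c.1 * c.1 ∧ c.1 ≠ 0 ∧ (∀ x ∈ c.2, x < c.1) ∧
      (∀ a < c.1, ∀ b < c.1, ∀ d < c.1,
        c.2.getD ((c.2.getD (a * c.1 + b) 0) * c.1 + d) 0 =
          c.2.getD (a * c.1 + c.2.getD (b * c.1 + d) 0) 0) ∧
      ∃ e < c.1, (∀ a < c.1, c.2.getD (e * c.1 + a) 0 = a ∧ c.2.getD (a * c.1 + e) 0 = a) ∧
        ∀ Sig : Set (FreeMonoid ℕ × FreeMonoid ℕ),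
          (∀ p ∈ Sig, ∀ f : ℕ → ℕ, (∀ i, f i < c.1) →
            (FreeMonoid.toList p.1).foldl (fun a x => c.2.getD (a * c.1 + f x) 0) e =
              (FreeMonoid.toList p.2).foldl (fun a x => c.2.getD (a * c.1 + f x) 0) e) →
          (∀ (N : Type) [Monoid N],
            (∀ p ∈ Sig, ∀ g : ℕ → N, FreeMonoid.lift g p.1 = FreeMonoid.lift g p.2) →
            Monoid.FG N → Finite N) →
          ¬ ∃ F : Finset (FreeMonoid ℕ × FreeMonoid ℕ), ∀ (N : Type) [Monoid N],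
            ((∀ p ∈ F, ∀ g : ℕ → N, FreeMonoid.lift g p.1 = FreeMonoid.lift g p.2) ↔
              (∀ p ∈ Sig, ∀ g : ℕ → N, FreeMonoid.lift g p.1 = FreeMonoid.lift g p.2))) ↔
    (tValid c ∧ ¬ tPP c) := by
  have key : ∀ (e : ℕ) (h : TMon c e),
      (∀ Sig : Set (FreeMonoid ℕ × FreeMonoid ℕ),
          (∀ p ∈ Sig, ∀ f : ℕ → ℕ, (∀ i, f i < c.1) →
            (FreeMonoid.toList p.1).foldl (fun a x => c.2.getD (a * c.1 + f x) 0) e =
              (FreeMonoid.toList p.2).foldl (fun a x => c.2.getD (a * c.1 + f x) 0) e) →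
          (∀ (N : Type) [Monoid N],
            (∀ p ∈ Sig, ∀ g : ℕ → N, FreeMonoid.lift g p.1 = FreeMonoid.lift g p.2) →
            Monoid.FG N → Finite N) →
          ¬ ∃ F : Finset (FreeMonoid ℕ × FreeMonoid ℕ), ∀ (N : Type) [Monoid N],
            ((∀ p ∈ F, ∀ g : ℕ → N, FreeMonoid.lift g p.1 = FreeMonoid.lift g p.2) ↔
              (∀ p ∈ Sig, ∀ g : ℕ → N, FreeMonoid.lift g p.1 = FreeMonoid.lift g p.2))) ↔
      ¬ tPP c := by
    intro e h
    rw [← h.pp_iff, ← infb_iff h.TM]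
    refine forall_congr' (fun Sig => ?_)
    have h1 : (∀ p ∈ Sig, ∀ f : ℕ → ℕ, (∀ i, f i < c.1) →
            (FreeMonoid.toList p.1).foldl (fun a x => c.2.getD (a * c.1 + f x) 0) e =
              (FreeMonoid.toList p.2).foldl (fun a x => c.2.getD (a * c.1 + f x) 0) e) ↔
        (∀ p ∈ Sig, Sat h.TM (FreeMonoid.toList p.1) (FreeMonoid.toList p.2)) := by
      refine forall_congr' (fun p => forall_congr' (fun _ => ?_))
      rw [h.sat_iff]
    rw [h1]
  constructor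
  · rintro ⟨h1, h2, h3, h4, e, he, h5, h6⟩
    have h : TMon c e := ⟨h1, h3, h4, he, h5⟩
    exact ⟨⟨h1, h2, h3, h4, e, he, h5⟩, (key e h).1 h6⟩
  · rintro ⟨⟨h1, h2, h3, h4, e, he, h5⟩, h6⟩
    have h : TMon c e := ⟨h1, h3, h4, he, h5⟩
    exact ⟨h1, h2, h3, h4, e, he, h5, (key e h).2 h6⟩

end Pool.Agent.INFB
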